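/-
PWM (MP_4d8f14_an), transfer part (section 7 of the table m3), definitions (helper53).
The finite theorem in the weakest form which is enough for almost everywhere convergence, for
`m` commuting maps, and the core statement.
-/
import Mathlib
import Pool.Agent.PWZ.EndPoint
import Pool.Agent.PWZ.EndNet

set_option autoImplicit false

open Finset MeasureTheory Filter Topology Pool.Agent.PWZ

namespace Pool.PWM

open Pool.PWZ

/-- the average over `|n| ≤ N` of the product of the `F i` at the points `x + n e_i` -/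
noncomputable def zav {m : ℕ} (F : Fin m → (Fin m → ℤ) → ℝ) (x : Fin m → ℤ) (N : ℕ) : ℝ :=
  av (fun n => ∏ i, F i (Function.update x i (x i + n))) N

/-- the box `[0, M)^m` -/
noncomputable def box (m M : ℕ) : Finset (Fin m → ℤ) := Fintype.piFinset fun _ => Finset.Ico (0 : ℤ) (M : ℤ)

/-- scales with ratios in `[2^R, 2^(4R)]` -/
def Scales (R : ℕ) (N : ℕ → ℕ) : Prop :=
  (∀ k, 0 < N k) ∧ (∀ k, 2 ^ R * N k ≤ N (k + 1)) ∧ ∀ k, N (k + 1) ≤ 2 ^ (4 * R) * N k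

/-- THE FINITE THEOREM, in the weakest form which is enough for almost everywhere convergence -/
def FinTh (m : ℕ) : Prop :=
  ∀ c : ℝ, 0 < c → ∃ R : ℕ, 1 ≤ R ∧ ∀ δ : ℝ, 0 < δ → ∃ J : ℕ, 1 ≤ J ∧
    ∀ N : ℕ → ℕ, Scales R N → ∀ p : ℕ → ℕ, StrictMono p → 1 ≤ p 0 →
      ∃ M : ℕ, 1 ≤ M ∧ ∀ F : Fin m → (Fin m → ℤ) → ℝ, (∀ i x, |F i x| ≤ 1) →
        ∑ x ∈ box m M, ∑ j ∈ range J,
          ind (OscP (fun k => zav F x (N k)) c (p j) (p (j + 1))) ≤ δ * J * (M : ℝ) ^ m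

/-- almost everywhere convergence for `m` commuting maps and real bounded functions -/
def CorePW (m : ℕ) : Prop :=
  ∀ (X : Type) [MeasurableSpace X] (μ : Measure X) [IsProbabilityMeasure μ]
    (T : Fin m → Equiv.Perm X), (∀ i, Measurable ⇑(T i).symm) →
    (∀ i, MeasurePreserving ⇑(T i) μ μ) → (∀ i j, Commute (T i) (T j)) →
    ∀ f : Fin m → X → ℝ, (∀ i, Measurable (f i)) → (∀ i x, |f i x| ≤ 1) →
    ∀ᵐ x ∂μ, ∃ L : ℝ,
      Tendsto (fun N : ℕ => av (fun n => ∏ i, f i ((T i ^ n) x)) N) atTop (𝓝 L)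

/-- weak block oscillation bound along sequences with ratios in `[2^R, 2^(4R)]` -/
def WOB {X : Type*} [MeasurableSpace X] (μ : Measure X) (φ : X → ℤ → ℝ) : Prop :=
  ∀ c : ℝ, 0 < c → ∃ R : ℕ, 1 ≤ R ∧ ∀ δ : ℝ, 0 < δ → ∃ J : ℕ, 1 ≤ J ∧
    ∀ N : ℕ → ℕ, Scales R N → ∀ p : ℕ → ℕ, StrictMono p → 1 ≤ p 0 →
      ∑ j ∈ Finset.range J,
        μ.real (oscSet (fun k x => av (φ x) (N k)) c (p j) (p (j + 1))) ≤ δ * J

lemma box_card (m M : ℕ) : (box m M).card = M ^ m := by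
  unfold box
  rw [Fintype.card_piFinset]
  simp

end Pool.PWM
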