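/-
PWM (MP_4d8f14_an), transfer part, module TrTor (helper53).
The finite theorem on the torus `(Z/M)^m`, also in the form with faces, implies `FinTh m`.
-/
import Mathlib
import Pool.Agent.PWM.TrDefs

set_option autoImplicit false

open Finset Pool.Agent.PWZ Pool.PWZ

namespace Pool.PWM

/-- the average on the torus -/
noncomputable def tav {m M : ℕ} (F : Fin m → (Fin m → ZMod M) → ℝ) (x : Fin m → ZMod M)
    (N : ℕ) : ℝ :=
  av (fun n => ∏ i, F i (Function.update x i (x i + (n : ZMod M)))) N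

/-- the average on the torus, with faces: `F i x d` does not depend on `x i`, `d = ∑ x + n` -/
noncomputable def fav {m M : ℕ} (F : Fin m → (Fin m → ZMod M) → ZMod M → ℝ)
    (x : Fin m → ZMod M) (N : ℕ) : ℝ :=
  av (fun n => ∏ i, F i x (∑ j, x j + (n : ZMod M))) N

/-- `F i x d` does not depend on the coordinate `x i` -/
def Face {m : ℕ} {V : Type*} (F : Fin m → (Fin m → V) → V → ℝ) : Prop :=
  ∀ i x y d, (∀ j, j ≠ i → x j = y j) → F i x d = F i y d

/-- the finite theorem on the torus -/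
def FinTor (m : ℕ) : Prop :=
  ∀ c : ℝ, 0 < c → ∃ R : ℕ, 1 ≤ R ∧ ∀ δ : ℝ, 0 < δ → ∃ J : ℕ, 1 ≤ J ∧
    ∀ N : ℕ → ℕ, Scales R N → ∀ p : ℕ → ℕ, StrictMono p → 1 ≤ p 0 →
      ∀ M0 : ℕ, ∃ M : ℕ, M0 ≤ M ∧ ∃ _h : NeZero M, ∀ F : Fin m → (Fin m → ZMod M) → ℝ,
        (∀ i x, |F i x| ≤ 1) →
        ∑ x : Fin m → ZMod M, ∑ j ∈ range J,
          ind (OscP (fun k => tav F x (N k)) c (p j) (p (j + 1))) ≤ δ * J * (M : ℝ) ^ m

/-- the finite theorem on the torus, with faces -/
def FinFace (m : ℕ) : Prop :=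
  ∀ c : ℝ, 0 < c → ∃ R : ℕ, 1 ≤ R ∧ ∀ δ : ℝ, 0 < δ → ∃ J : ℕ, 1 ≤ J ∧
    ∀ N : ℕ → ℕ, Scales R N → ∀ p : ℕ → ℕ, StrictMono p → 1 ≤ p 0 →
      ∀ M0 : ℕ, ∃ M : ℕ, M0 ≤ M ∧ ∃ _h : NeZero M,
        ∀ F : Fin m → (Fin m → ZMod M) → ZMod M → ℝ, Face F → (∀ i x d, |F i x d| ≤ 1) →
        ∑ x : Fin m → ZMod M, ∑ j ∈ range J,
          ind (OscP (fun k => fav F x (N k)) c (p j) (p (j + 1))) ≤ δ * J * (M : ℝ) ^ m

/-- the finite theorem for three maps, with three functions on the faces -/
def Fin3 : Prop :=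
  ∀ c : ℝ, 0 < c → ∃ R : ℕ, 1 ≤ R ∧ ∀ δ : ℝ, 0 < δ → ∃ J : ℕ, 1 ≤ J ∧
    ∀ N : ℕ → ℕ, Scales R N → ∀ p : ℕ → ℕ, StrictMono p → 1 ≤ p 0 →
      ∀ M0 : ℕ, ∃ M : ℕ, M0 ≤ M ∧ ∃ _h : NeZero M,
        ∀ F1 F2 F3 : ZMod M → ZMod M → ZMod M → ℝ, (∀ b c d, |F1 b c d| ≤ 1) →
          (∀ a c d, |F2 a c d| ≤ 1) → (∀ a b d, |F3 a b d| ≤ 1) →
        ∑ a : ZMod M, ∑ b : ZMod M, ∑ c' : ZMod M, ∑ j ∈ range J,
          ind (OscP (fun k => av (fun n => F1 b c' (a + b + c' + (n : ZMod M)) *
            F2 a c' (a + b + c' + (n : ZMod M)) * F3 a b (a + b + c' + (n : ZMod M))) (N k))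
            c (p j) (p (j + 1))) ≤ δ * J * (M : ℝ) ^ 3

lemma sum_update' {m : ℕ} {V : Type*} [AddCommGroup V] (x : Fin m → V) (i : Fin m) (v : V) :
    ∑ j, Function.update x i v j = ∑ j, x j - x i + v := by
  rw [Finset.sum_update_of_mem (Finset.mem_univ i), ← Finset.sum_erase_eq_sub (Finset.mem_univ i),
    Finset.sdiff_singleton_eq_erase]
  abel

/-- faces are enough -/
theorem finTor_of_finFace (m : ℕ) (h : FinFace m) : FinTor m := by
  intro c hc
  obtain ⟨R, hR, h1⟩ := h c hc
  refine ⟨R, hR, fun δ hδ => ?_⟩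
  obtain ⟨J, hJ, h2⟩ := h1 δ hδ
  refine ⟨J, hJ, fun N hN p hp hp0 M0 => ?_⟩
  obtain ⟨M, hM, hM', h3⟩ := h2 N hN p hp hp0 M0
  refine ⟨M, hM, hM', fun F hF => ?_⟩
  have h4 := h3 (fun i x d => F i (Function.update x i (d - (∑ j, x j - x i))))
    (by
      intro i x y d hxy
      have e1 : ∑ j, x j - x i = ∑ j, y j - y i := by
        rw [← Finset.sum_erase_eq_sub (Finset.mem_univ i),
          ← Finset.sum_erase_eq_sub (Finset.mem_univ i)]
        exact Finset.sum_congr rfl fun j hj => hxy j (Finset.ne_of_mem_erase hj)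
      have e2 : Function.update x i (d - (∑ j, x j - x i)) =
          Function.update y i (d - (∑ j, y j - y i)) := by
        rw [e1]
        funext j
        by_cases hj : j = i
        · subst hj; rw [Function.update_self, Function.update_self]
        · rw [Function.update_of_ne hj, Function.update_of_ne hj, hxy j hj]
      show F i _ = F i _
      rw [e2])
    (fun i x d => hF i _)
  refine le_trans (le_of_eq ?_) h4
  refine Finset.sum_congr rfl fun x _ => Finset.sum_congr rfl fun j _ => ?_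
  congr 1
  have h5 : ∀ k, tav F x (N k) =
      fav (fun i x d => F i (Function.update x i (d - (∑ j, x j - x i)))) x (N k) := by
    intro k
    unfold tav fav
    congr 1
    funext n
    refine Finset.prod_congr rfl fun i _ => ?_
    have e : ∑ j, x j + (n : ZMod M) - (∑ j, x j - x i) = x i + (n : ZMod M) := by abel
    show F i _ = F i _
    rw [e]
  simp only [h5]

/-- sums over functions on `Fin 3` -/
def e3 (V : Type*) : (Fin 3 → V) ≃ V × V × V where
  toFun x := (x 0, x 1, x 2)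
  invFun y := ![y.1, y.2.1, y.2.2]
  left_inv x := by funext i; fin_cases i <;> rfl
  right_inv y := rfl

lemma sum_fin3 {V : Type*} [Fintype V] (g : V → V → V → ℝ) :
    ∑ x : Fin 3 → V, g (x 0) (x 1) (x 2) = ∑ a, ∑ b, ∑ c, g a b c := by
  rw [← Equiv.sum_comp (e3 V).symm, Fintype.sum_prod_type]
  refine Finset.sum_congr rfl fun a _ => ?_
  rw [Fintype.sum_prod_type]
  rfl

/-- three maps -/
theorem finFace_of_fin3 (h : Fin3) : FinFace 3 := by
  intro c hc
  obtain ⟨R, hR, h1⟩ := h c hc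
  refine ⟨R, hR, fun δ hδ => ?_⟩
  obtain ⟨J, hJ, h2⟩ := h1 δ hδ
  refine ⟨J, hJ, fun N hN p hp hp0 M0 => ?_⟩
  obtain ⟨M, hM, hM', h3⟩ := h2 N hN p hp hp0 M0
  refine ⟨M, hM, hM', fun F hF hF1 => ?_⟩
  have h4 := h3 (fun b c d => F 0 ![0, b, c] d) (fun a c d => F 1 ![a, 0, c] d)
    (fun a b d => F 2 ![a, b, 0] d) (fun _ _ _ => hF1 _ _ _) (fun _ _ _ => hF1 _ _ _)
    (fun _ _ _ => hF1 _ _ _)
  rw [← sum_fin3 (fun a b c' => ∑ j ∈ range J,
          ind (OscP (fun k => av (fun n => F 0 ![0, b, c'] (a + b + c' + (n : ZMod M)) *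
            F 1 ![a, 0, c'] (a + b + c' + (n : ZMod M)) *
              F 2 ![a, b, 0] (a + b + c' + (n : ZMod M))) (N k))
            c (p j) (p (j + 1))))] at h4
  refine le_trans (le_of_eq ?_) h4
  refine Finset.sum_congr rfl fun x _ => Finset.sum_congr rfl fun j _ => ?_
  congr 1
  have h5 : ∀ k, fav F x (N k) =
      av (fun n => F 0 ![0, x 1, x 2] (x 0 + x 1 + x 2 + (n : ZMod M)) *
            F 1 ![x 0, 0, x 2] (x 0 + x 1 + x 2 + (n : ZMod M)) *
              F 2 ![x 0, x 1, 0] (x 0 + x 1 + x 2 + (n : ZMod M))) (N k) := by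
    intro k
    unfold fav
    congr 1
    funext n
    rw [Fin.prod_univ_three, Fin.sum_univ_three]
    rw [hF 0 x ![0, x 1, x 2] _ (by intro j hj; fin_cases j <;> simp_all),
      hF 1 x ![x 0, 0, x 2] _ (by intro j hj; fin_cases j <;> simp_all),
      hF 2 x ![x 0, x 1, 0] _ (by intro j hj; fin_cases j <;> simp_all)]
  simp only [h5]

/-- Bernoulli -/
lemma bern (m : ℕ) (M Q : ℝ) (hM : 0 < M) (hQM : 2 * Q ≤ M) :
    M ^ m - (M - 2 * Q) ^ m ≤ m * (2 * Q / M) * M ^ m := by
  have h1 : (1 : ℝ) + m * (-(2 * Q / M)) ≤ (1 + -(2 * Q / M)) ^ m := by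
    apply one_add_mul_le_pow
    have : 2 * Q / M ≤ 1 := (div_le_one hM).mpr hQM
    linarith
  have h2 : M - 2 * Q = M * (1 + -(2 * Q / M)) := by field_simp; ring
  rw [h2, mul_pow]
  have h3 : 0 ≤ M ^ m := by positivity
  nlinarith [mul_le_mul_of_nonneg_left h1 h3]

/-- the torus form implies the box form -/
theorem finTh_of_finTor (m : ℕ) (h : FinTor m) : FinTh m := by
  intro c hc
  obtain ⟨R, hR, h1⟩ := h c hc
  refine ⟨R, hR, fun δ hδ => ?_⟩
  obtain ⟨J, hJ, h2⟩ := h1 (δ / 2) (by positivity)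
  refine ⟨J, hJ, fun N hN p hp hp0 => ?_⟩
  -- bound for the scales
  set Q := ∑ k ∈ range (p J), N k with hQ
  have hNQ : ∀ k < p J, N k ≤ Q := fun k hk =>
    Finset.single_le_sum (f := N) (fun i _ => Nat.zero_le _) (Finset.mem_range.mpr hk)
  obtain ⟨M0, hM0⟩ := exists_nat_gt (4 * m * Q / δ)
  obtain ⟨M, hM, hM', h3⟩ := h2 N hN p hp hp0 (M0 + 2 * Q + 1)
  refine ⟨M, by omega, fun F hF => ?_⟩
  have hMpos : (0 : ℝ) < M := by
    have : 0 < M := by omega
    exact_mod_cast this
  have h4 := h3 (fun i y => F i (fun j => ((y j).val : ℤ))) (fun i y => hF i _)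
  -- safe points
  set sbox : Finset (Fin m → ℤ) :=
    Fintype.piFinset fun _ => Finset.Ico (Q : ℤ) ((M : ℤ) - Q) with hsbox
  have hsub : sbox ⊆ box m M := by
    intro x hx
    rw [hsbox, Fintype.mem_piFinset] at hx
    unfold box
    rw [Fintype.mem_piFinset]
    intro i
    have := hx i
    rw [Finset.mem_Ico] at this ⊢
    constructor <;> omega
  have hcard : ((box m M \ sbox).card : ℝ) ≤ m * (2 * Q / M) * (M : ℝ) ^ m := by
    rw [Finset.card_sdiff_of_subset hsub, box_card]
    have e1 : sbox.card = (M - 2 * Q) ^ m := by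
      rw [hsbox, Fintype.card_piFinset]
      simp only [Int.card_Ico, Finset.prod_const, Finset.card_univ, Fintype.card_fin]
      congr 1
      omega
    rw [e1, Nat.cast_sub (Nat.pow_le_pow_left (by omega) m)]
    push_cast
    rw [Nat.cast_sub (by omega)]
    push_cast
    exact bern m M Q hMpos (by
      have : 2 * Q ≤ M := by omega
      exact_mod_cast this)
  have hterm : ∀ x, ∑ j ∈ range J, ind (OscP (fun k => zav F x (N k)) c (p j) (p (j + 1))) ≤ J := by
    intro x
    calc _ ≤ ∑ _j ∈ range J, (1 : ℝ) := Finset.sum_le_sum fun j _ => ind_le_one _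
      _ = J := by simp
  have hterm0 : ∀ x, 0 ≤
      ∑ j ∈ range J, ind (OscP (fun k => zav F x (N k)) c (p j) (p (j + 1))) := fun x =>
    Finset.sum_nonneg fun j _ => ind_nonneg _
  rw [← Finset.sum_sdiff hsub]
  have hA : ∑ x ∈ box m M \ sbox, ∑ j ∈ range J,
      ind (OscP (fun k => zav F x (N k)) c (p j) (p (j + 1))) ≤ δ / 2 * J * (M : ℝ) ^ m := by
    calc _ ≤ ∑ _x ∈ box m M \ sbox, (J : ℝ) := Finset.sum_le_sum fun x _ => hterm x
      _ = ((box m M \ sbox).card : ℝ) * J := by rw [Finset.sum_const, nsmul_eq_mul]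
      _ ≤ (m * (2 * Q / M) * (M : ℝ) ^ m) * J := by gcongr
      _ ≤ δ / 2 * J * (M : ℝ) ^ m := by
        have e1 : (m : ℝ) * (2 * Q / M) ≤ δ / 2 := by
          rw [mul_div_assoc', div_le_iff₀ hMpos]
          rw [div_lt_iff₀ hδ] at hM0
          have e2 : (M0 : ℝ) ≤ M := by
            have : M0 ≤ M := by omega
            exact_mod_cast this
          nlinarith
        have e3 : (0 : ℝ) ≤ J * (M : ℝ) ^ m := by positivity
        calc (m * (2 * Q / M) * (M : ℝ) ^ m) * J = (m * (2 * Q / M)) * (J * (M : ℝ) ^ m) := by ring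
          _ ≤ δ / 2 * (J * (M : ℝ) ^ m) := mul_le_mul_of_nonneg_right e1 e3
          _ = _ := by ring
  have hB : ∑ x ∈ sbox, ∑ j ∈ range J,
      ind (OscP (fun k => zav F x (N k)) c (p j) (p (j + 1))) ≤ δ / 2 * J * (M : ℝ) ^ m := by
    refine le_trans ?_ h4
    have hcast : ∀ x ∈ sbox, ∀ j < J,
        ind (OscP (fun k => zav F x (N k)) c (p j) (p (j + 1))) =
        ind (OscP (fun k => tav (fun i y => F i (fun j => ((y j).val : ℤ)))
          (fun i => ((x i : ℤ) : ZMod M)) (N k)) c (p j) (p (j + 1))) := by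
      intro x hx j hj
      have hval : ∀ k < p J, tav (fun i y => F i (fun j => ((y j).val : ℤ)))
          (fun i => ((x i : ℤ) : ZMod M)) (N k) = zav F x (N k) := by
        intro k hk
        unfold tav zav av
        congr 1
        refine Finset.sum_congr rfl fun n hn => ?_
        refine Finset.prod_congr rfl fun i _ => ?_
        show F i _ = F i _
        congr 1
        rw [hsbox, Fintype.mem_piFinset] at hx
        rw [Finset.mem_Icc] at hn
        have hk' := hNQ k hk
        funext l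
        by_cases hl : l = i
        · subst hl
          rw [Function.update_self, Function.update_self]
          have := hx l
          rw [Finset.mem_Ico] at this
          rw [← Int.cast_add, ZMod.val_intCast]
          apply Int.emod_eq_of_lt <;> omega
        · rw [Function.update_of_ne hl, Function.update_of_ne hl]
          have := hx l
          rw [Finset.mem_Ico] at this
          rw [ZMod.val_intCast]
          apply Int.emod_eq_of_lt <;> omega
      congr 1
      apply propext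
      have hpj : p (j + 1) ≤ p J := hp.monotone hj
      unfold OscP
      constructor
      · rintro ⟨k, hk, k', hk', h⟩
        refine ⟨k, hk, k', hk', ?_⟩
        beta_reduce at h ⊢
        rw [hval k (by have := hk.2; omega), hval k' (by have := hk'.2; omega)]
        exact h
      · rintro ⟨k, hk, k', hk', h⟩
        refine ⟨k, hk, k', hk', ?_⟩
        beta_reduce at h ⊢
        rw [hval k (by have := hk.2; omega), hval k' (by have := hk'.2; omega)] at h
        exact h
    rw [Finset.sum_congr rfl fun x hx => Finset.sum_congr rfl fun j hj =>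
      hcast x hx j (Finset.mem_range.mp hj)]
    rw [← Finset.sum_image (f := fun y : Fin m → ZMod M => ∑ j ∈ range J,
      ind (OscP (fun k => tav (fun i y => F i (fun j => ((y j).val : ℤ))) y (N k)) c
        (p j) (p (j + 1)))) (g := fun (x : Fin m → ℤ) (i : Fin m) => ((x i : ℤ) : ZMod M))]
    · exact Finset.sum_le_sum_of_subset_of_nonneg (Finset.subset_univ _)
        fun y _ _ => Finset.sum_nonneg fun j _ => ind_nonneg _
    · intro x hx y hy hxy
      rw [Finset.mem_coe, hsbox, Fintype.mem_piFinset] at hx hy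
      funext i
      have h5 := congrFun hxy i
      have h6 := congrArg (fun z : ZMod M => ((z.val : ℕ) : ℤ)) h5
      have hxi := hx i
      have hyi := hy i
      rw [Finset.mem_Ico] at hxi hyi
      simp only [ZMod.val_intCast] at h6
      rwa [Int.emod_eq_of_lt (by omega) (by omega), Int.emod_eq_of_lt (by omega) (by omega)] at h6
  linarith

/-- the finite theorem for three maps implies `FinTh 3` -/
theorem finTh_of_fin3 (h : Fin3) : FinTh 3 :=
  finTh_of_finTor 3 (finTor_of_finFace 3 (finFace_of_fin3 h))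

end Pool.PWM
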