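/-
PWM (MP_4d8f14_an), transfer part, module TrBin (helper11).
The finite theorem in the BINARY noise model (section 0 of the table m3: windows
`J_l = y_l - [0, 2^(l+1))`, `y_l = sum x + (w mod 2^(l+1))`) implies the finite theorem with faces.
-/
import Mathlib
import Pool.Agent.PWM.TrTor

set_option autoImplicit false

open Finset Pool.Agent.PWZ Pool.PWZ

namespace Pool.PWM

/-! ### deterministic part: binary windows control the symmetric averages -/

section det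

/-- sum of `h` over `[-u, 0)` -/
noncomputable def Hs (h : ℤ → ℝ) (u : ℕ) : ℝ := ∑ n ∈ range u, h (-(n : ℤ) - 1)

/-- sum of `h` over `[0, v)` -/
noncomputable def Ps (h : ℤ → ℝ) (v : ℕ) : ℝ := ∑ n ∈ range v, h n

/-- sum over the window `[v - m, v)` -/
lemma win_eq (h : ℤ → ℝ) (v m : ℕ) (hvm : v ≤ m) :
    ∑ n ∈ range m, h ((v : ℤ) - 1 - n) = Ps h v + Hs h (m - v) := by
  obtain ⟨k, rfl⟩ := Nat.exists_eq_add_of_le hvm
  rw [Finset.sum_range_add, Nat.add_sub_cancel_left]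
  unfold Ps Hs
  congr 1
  · rw [← Finset.sum_range_reflect (fun n => h n) v]
    refine Finset.sum_congr rfl fun n hn => ?_
    rw [Finset.mem_range] at hn
    congr 1
    omega
  · refine Finset.sum_congr rfl fun n _ => ?_
    congr 1
    push_cast
    ring

lemma abs_Hs_le (h : ℤ → ℝ) (B : ℝ) (hB : ∀ n, |h n| ≤ B) (u : ℕ) : |Hs h u| ≤ B * u := by
  unfold Hs
  refine (Finset.abs_sum_le_sum_abs _ _).trans ?_
  calc ∑ n ∈ range u, |h (-(n : ℤ) - 1)| ≤ ∑ _n ∈ range u, B :=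
        Finset.sum_le_sum fun n _ => hB _
    _ = B * u := by rw [Finset.sum_const, card_range, nsmul_eq_mul]; ring

/-- windows of the binary model are uniformly small at the levels `[Λ, μ]` -/
def WinSmall (h : ℤ → ℝ) (ε : ℝ) (Λ μ : ℕ) : Prop :=
  ∀ l, Λ ≤ l → l ≤ μ → ∀ w : ℕ, w < 2 ^ (l + 1) →
    |∑ n ∈ range (2 ^ (l + 1)), h ((w : ℤ) - n)| ≤ ε * 2 ^ (l + 1)

lemma WinSmall.v {h : ℤ → ℝ} {ε : ℝ} {Λ μ : ℕ} (hw : WinSmall h ε Λ μ) {l : ℕ} (h1 : Λ ≤ l)
    (h2 : l ≤ μ) {v : ℕ} (hv1 : 1 ≤ v) (hv : v ≤ 2 ^ (l + 1)) :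
    |Ps h v + Hs h (2 ^ (l + 1) - v)| ≤ ε * 2 ^ (l + 1) := by
  rw [← win_eq h v _ hv]
  have := hw l h1 h2 (v - 1) (by omega)
  rw [Nat.cast_sub hv1] at this
  exact_mod_cast this

lemma Hs_bound (h : ℤ → ℝ) (ε : ℝ) (hε : 0 ≤ ε) (Λ μ : ℕ) (hB : ∀ n, |h n| ≤ 2)
    (hw : WinSmall h ε Λ μ) :
    ∀ l, Λ ≤ l → l ≤ μ → ∀ u : ℕ, u < 2 ^ (l + 1) →
      |Hs h u| ≤ 3 * ε * 2 ^ (l + 1) + 2 * 2 ^ (Λ + 1) := by
  intro l hl
  induction l, hl using Nat.le_induction with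
  | base =>
    intro _ u hu
    have h1 := abs_Hs_le h 2 hB u
    have h2 : (u : ℝ) ≤ 2 ^ (Λ + 1) := by exact_mod_cast hu.le
    have h3 : 0 ≤ 3 * ε * 2 ^ (Λ + 1) := by positivity
    linarith
  | succ l hl ih =>
    intro hμ u hu
    have hpow : (2 : ℕ) ^ (l + 1 + 1) = 2 * 2 ^ (l + 1) := by ring
    have hpowR : (2 : ℝ) ^ (l + 1 + 1) = 2 * 2 ^ (l + 1) := by ring
    have hpos : (0 : ℝ) < 2 ^ (l + 1) := by positivity
    by_cases h1 : u < 2 ^ (l + 1)
    · have h2 := ih (by omega) u h1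
      rw [hpowR]
      nlinarith
    · push Not at h1
      have h2 := ih (by omega) (u - 2 ^ (l + 1)) (by omega)
      set v := 2 ^ (l + 1 + 1) - u with hv
      have h3 := hw.v (l := l + 1) (by omega) hμ (v := v) (by omega) (by omega)
      have h4 := hw.v (l := l) hl (by omega) (v := v) (by omega) (by omega)
      rw [show 2 ^ (l + 1 + 1) - v = u by omega] at h3
      rw [show 2 ^ (l + 1) - v = u - 2 ^ (l + 1) by omega] at h4
      rw [hpowR] at h3 ⊢
      rw [abs_le] at h2 h3 h4 ⊢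
      constructor <;> nlinarith [h2.1, h2.2, h3.1, h3.2, h4.1, h4.2]

lemma Ps_bound (h : ℤ → ℝ) (ε : ℝ) (hε : 0 ≤ ε) (Λ μ : ℕ) (hB : ∀ n, |h n| ≤ 2)
    (hw : WinSmall h ε Λ μ) (l : ℕ) (hl : Λ ≤ l) (hμ : l ≤ μ) (v : ℕ) (hv1 : 1 ≤ v)
    (hv : v ≤ 2 ^ (l + 1)) :
    |Ps h v| ≤ 4 * ε * 2 ^ (l + 1) + 2 * 2 ^ (Λ + 1) := by
  have h1 := hw.v hl hμ hv1 hv
  have h2 := Hs_bound h ε hε Λ μ hB hw l hl hμ (2 ^ (l + 1) - v) (by
    have : 0 < 2 ^ (l + 1) := by positivity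
    omega)
  rw [abs_le] at h1 h2 ⊢
  constructor <;> linarith [h1.1, h1.2, h2.1, h2.2]

lemma sum_Icc_sym (h : ℤ → ℝ) (N : ℕ) :
    ∑ n ∈ Finset.Icc (-(N : ℤ)) (N : ℤ), h n = Ps h (N + 1) + Hs h N := by
  have h1 := win_eq h (N + 1) (2 * N + 1) (by omega)
  rw [show 2 * N + 1 - (N + 1) = N by omega] at h1
  rw [← h1]
  symm
  refine Finset.sum_bij' (i := fun n _ => ((N + 1 : ℕ) : ℤ) - 1 - n)
    (j := fun m _ => ((N : ℤ) - m).toNat) ?_ ?_ ?_ ?_ ?_
  · intro n hn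
    rw [Finset.mem_range] at hn
    rw [Finset.mem_Icc]
    push_cast
    constructor <;> omega
  · intro m hm
    rw [Finset.mem_Icc] at hm
    rw [Finset.mem_range]
    omega
  · intro n hn
    rw [Finset.mem_range] at hn
    push_cast
    omega
  · intro m hm
    rw [Finset.mem_Icc] at hm
    push_cast
    omega
  · intro n _
    rfl

/-- the symmetric averages are close to `g` -/
lemma av_close (φ : ℤ → ℝ) (g ε : ℝ) (hε : 0 ≤ ε) (Λ μ : ℕ) (hφ : ∀ n, |φ n - g| ≤ 2)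
    (hw : WinSmall (fun n => φ n - g) ε Λ μ) (l : ℕ) (hl : Λ ≤ l) (hμ : l ≤ μ) (N : ℕ)
    (hN1 : 2 ^ l ≤ N) (hN2 : N < 2 ^ (l + 1)) :
    |av φ N - g| ≤ 7 * ε + 8 * 2 ^ Λ / N := by
  have h1 := Ps_bound _ ε hε Λ μ hφ hw l hl hμ (N + 1) (by omega) (by omega)
  have h2 := Hs_bound _ ε hε Λ μ hφ hw l hl hμ N hN2
  have h3 : av φ N - g = ((2 * N + 1 : ℕ) : ℝ)⁻¹ *
      ∑ n ∈ Finset.Icc (-(N : ℤ)) (N : ℤ), (φ n - g) := by
    unfold av
    rw [Finset.sum_sub_distrib, Finset.sum_const, card_Icc_sym, nsmul_eq_mul, mul_sub]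
    have : ((2 * N + 1 : ℕ) : ℝ) ≠ 0 := by positivity
    field_simp
  rw [h3, sum_Icc_sym, abs_mul]
  have hNpos : (0 : ℝ) < N := by
    have : 0 < 2 ^ l := by positivity
    exact_mod_cast lt_of_lt_of_le this hN1
  have hcast : ((2 * N + 1 : ℕ) : ℝ) = 2 * N + 1 := by push_cast; ring
  rw [hcast, abs_of_pos (by positivity : (0 : ℝ) < (2 * (N : ℝ) + 1)⁻¹)]
  have h4 : |Ps (fun n => φ n - g) (N + 1) + Hs (fun n => φ n - g) N| ≤
      7 * ε * 2 ^ (l + 1) + 4 * 2 ^ (Λ + 1) := by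
    refine (abs_add_le _ _).trans ?_
    linarith
  have h5 : (2 : ℝ) ^ (l + 1) ≤ 2 * N + 1 := by
    have : (2 : ℕ) ^ (l + 1) ≤ 2 * N + 1 := by rw [pow_succ]; omega
    exact_mod_cast this
  calc (2 * (N : ℝ) + 1)⁻¹ * |Ps (fun n => φ n - g) (N + 1) + Hs (fun n => φ n - g) N|
      ≤ (2 * (N : ℝ) + 1)⁻¹ * (7 * ε * (2 * N + 1) + 4 * 2 ^ (Λ + 1)) := by
        refine mul_le_mul_of_nonneg_left (h4.trans ?_) (by positivity)
        have : 7 * ε * 2 ^ (l + 1) ≤ 7 * ε * (2 * (N : ℝ) + 1) :=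
          mul_le_mul_of_nonneg_left h5 (by positivity)
        linarith
    _ = 7 * ε + 8 * 2 ^ Λ / (2 * N + 1) := by
        rw [pow_succ]
        field_simp
        ring
    _ ≤ 7 * ε + 8 * 2 ^ Λ / N := by
        have : (8 : ℝ) * 2 ^ Λ / (2 * N + 1) ≤ 8 * 2 ^ Λ / N := by
          apply div_le_div_of_nonneg_left (by positivity) hNpos
          linarith
        linarith

end det

/-! ### the binary windows -/

/-- the average over the window `(w - 2^(l+1), w]` -/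
noncomputable def wav (φ : ℤ → ℝ) (l w : ℕ) : ℝ :=
  ((2 : ℝ) ^ (l + 1))⁻¹ * ∑ n ∈ range (2 ^ (l + 1)), φ ((w : ℤ) - n)

lemma wav_succ (φ : ℤ → ℝ) (hφ : ∀ n, |φ n| ≤ 1) (l w : ℕ) :
    |wav φ l (w + 1) - wav φ l w| ≤ 2 / 2 ^ (l + 1) := by
  have hpos : (0 : ℝ) < 2 ^ (l + 1) := by positivity
  have h1 : ∑ n ∈ range (2 ^ (l + 1)), φ (((w + 1 : ℕ) : ℤ) - n) -
      ∑ n ∈ range (2 ^ (l + 1)), φ ((w : ℤ) - n) =
      φ (w + 1) - φ ((w : ℤ) + 1 - ((2 ^ (l + 1) : ℕ) : ℤ)) := by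
    generalize 2 ^ (l + 1) = m
    have h2 := Finset.sum_range_succ' (fun n : ℕ => φ ((w : ℤ) + 1 - n)) m
    have h3 := Finset.sum_range_succ (fun n : ℕ => φ ((w : ℤ) + 1 - n)) m
    rw [h3] at h2
    have h4 : ∑ n ∈ range m, φ ((w : ℤ) + 1 - ((n + 1 : ℕ) : ℤ)) =
        ∑ n ∈ range m, φ ((w : ℤ) - n) := by
      refine Finset.sum_congr rfl fun n _ => ?_
      congr 1
      push_cast
      ring
    rw [h4] at h2
    have h5 : ∑ n ∈ range m, φ (((w + 1 : ℕ) : ℤ) - n) =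
        ∑ n ∈ range m, φ ((w : ℤ) + 1 - n) := by
      refine Finset.sum_congr rfl fun n _ => ?_
      push_cast
      rfl
    rw [h5]
    simp only [Nat.cast_zero, sub_zero] at h2
    linarith
  unfold wav
  rw [← mul_sub, h1, abs_mul, abs_of_pos (by positivity : (0 : ℝ) < (2 ^ (l + 1))⁻¹)]
  have h6 : |φ (w + 1) - φ ((w : ℤ) + 1 - ((2 ^ (l + 1) : ℕ) : ℤ))| ≤ 2 := by
    have a1 := hφ (w + 1)
    have a2 := hφ ((w : ℤ) + 1 - ((2 ^ (l + 1) : ℕ) : ℤ))
    rw [abs_le] at a1 a2 ⊢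
    constructor <;> linarith [a1.1, a1.2, a2.1, a2.2]
  rw [div_eq_mul_inv, mul_comm]
  exact mul_le_mul_of_nonneg_right h6 (by positivity)

lemma wav_lip (φ : ℤ → ℝ) (hφ : ∀ n, |φ n| ≤ 1) (l w k : ℕ) :
    |wav φ l (w + k) - wav φ l w| ≤ 2 * k / 2 ^ (l + 1) := by
  induction k with
  | zero => simp
  | succ k ih =>
    have h1 := wav_succ φ hφ l (w + k)
    have h2 : wav φ l (w + (k + 1)) - wav φ l w =
        (wav φ l (w + k + 1) - wav φ l (w + k)) + (wav φ l (w + k) - wav φ l w) := by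
      rw [← add_assoc]; ring
    rw [h2]
    refine (abs_add_le _ _).trans ?_
    push_cast
    have : 2 * ((k : ℝ) + 1) / 2 ^ (l + 1) = 2 / 2 ^ (l + 1) + 2 * k / 2 ^ (l + 1) := by ring
    linarith

/-- many `v < 2^(L+1)` have `v mod 2^(l+1)` in a given cell of length `2^(l+1-d)` and
`v mod 2^(λ+1)` small -/
lemma many_v (L l lam d i : ℕ) (hlL : l ≤ L) (hlam : lam + d ≤ l) (hd : d ≤ lam + 1)
    (hi : i < 2 ^ d) (B : Finset ℕ) (hB : B.card < 2 ^ (L + 1 - 2 * d)) :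
    ∃ v < 2 ^ (L + 1), v ∉ B ∧ i * 2 ^ (l + 1 - d) ≤ v % 2 ^ (l + 1) ∧
      v % 2 ^ (l + 1) < (i + 1) * 2 ^ (l + 1 - d) ∧ v % 2 ^ (lam + 1) < 2 ^ (lam + 1 - d) := by
  classical
  set f : ℕ × ℕ × ℕ → ℕ := fun q =>
    q.1 * 2 ^ (l + 1) + (i * 2 ^ (l + 1 - d) + (q.2.1 * 2 ^ (lam + 1) + q.2.2)) with hf
  set S : Finset (ℕ × ℕ × ℕ) := range (2 ^ (L - l)) ×ˢ (range (2 ^ (l - d - lam)) ×ˢ
    range (2 ^ (lam + 1 - d))) with hS
  have e1 : (2 : ℕ) ^ (l + 1) = 2 ^ d * 2 ^ (l + 1 - d) := by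
    rw [← pow_add]; congr 1; omega
  have e2 : (2 : ℕ) ^ (l + 1 - d) = 2 ^ (l - d - lam) * 2 ^ (lam + 1) := by
    rw [← pow_add]; congr 1; omega
  have e3 : (2 : ℕ) ^ (lam + 1) = 2 ^ d * 2 ^ (lam + 1 - d) := by
    rw [← pow_add]; congr 1; omega
  have e4 : (2 : ℕ) ^ (L + 1) = 2 ^ (L - l) * 2 ^ (l + 1) := by
    rw [← pow_add]; congr 1; omega
  have e5 : 0 < (2 : ℕ) ^ (lam + 1) := by positivity
  have e6 : 0 < (2 : ℕ) ^ (l + 1 - d) := by positivity
  have e7 : (2 : ℕ) ^ (lam + 1 - d) ≤ 2 ^ (lam + 1) := Nat.pow_le_pow_right (by norm_num) (by omega)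
  -- ranges
  have r1 : ∀ q ∈ S, q.2.1 * 2 ^ (lam + 1) + q.2.2 < 2 ^ (l + 1 - d) := by
    intro q hq
    rw [hS, Finset.mem_product, Finset.mem_product, Finset.mem_range, Finset.mem_range,
      Finset.mem_range] at hq
    have h1 : q.2.2 < 2 ^ (lam + 1) := hq.2.2.trans_le e7
    have h2 : q.2.1 + 1 ≤ 2 ^ (l - d - lam) := hq.2.1
    rw [e2]
    calc q.2.1 * 2 ^ (lam + 1) + q.2.2 < q.2.1 * 2 ^ (lam + 1) + 2 ^ (lam + 1) := by omega
      _ = (q.2.1 + 1) * 2 ^ (lam + 1) := by ring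
      _ ≤ _ := Nat.mul_le_mul_right _ h2
  have r2 : ∀ q ∈ S, i * 2 ^ (l + 1 - d) + (q.2.1 * 2 ^ (lam + 1) + q.2.2) < 2 ^ (l + 1) := by
    intro q hq
    have h1 := r1 q hq
    rw [e1]
    calc _ < i * 2 ^ (l + 1 - d) + 2 ^ (l + 1 - d) := by omega
      _ = (i + 1) * 2 ^ (l + 1 - d) := by ring
      _ ≤ _ := Nat.mul_le_mul_right _ hi
  have m1 : ∀ q ∈ S, f q % 2 ^ (l + 1) =
      i * 2 ^ (l + 1 - d) + (q.2.1 * 2 ^ (lam + 1) + q.2.2) := by
    intro q hq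
    rw [hf]
    show (q.1 * 2 ^ (l + 1) + _) % 2 ^ (l + 1) = _
    rw [add_comm, Nat.add_mul_mod_self_right, Nat.mod_eq_of_lt (r2 q hq)]
  have m2 : ∀ q ∈ S, f q % 2 ^ (lam + 1) = q.2.2 := by
    intro q hq
    have hq' := hq
    rw [hS, Finset.mem_product, Finset.mem_product, Finset.mem_range, Finset.mem_range,
      Finset.mem_range] at hq'
    have h1 : f q = (q.1 * (2 ^ d * 2 ^ (l - d - lam)) + i * 2 ^ (l - d - lam) + q.2.1) *
        2 ^ (lam + 1) + q.2.2 := by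
      show q.1 * 2 ^ (l + 1) + (i * 2 ^ (l + 1 - d) + (q.2.1 * 2 ^ (lam + 1) + q.2.2)) = _
      rw [e1, e2]
      ring
    rw [h1, add_comm, Nat.add_mul_mod_self_right, Nat.mod_eq_of_lt (hq'.2.2.trans_le e7)]
  have finj : Set.InjOn f (S : Set (ℕ × ℕ × ℕ)) := by
    intro q hq q' hq' h
    rw [Finset.mem_coe] at hq hq'
    have h1 := m2 q hq
    have h2 := m2 q' hq'
    rw [h] at h1
    have h3 : q.2.2 = q'.2.2 := by rw [← h1, ← h2]
    have h4 := m1 q hq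
    have h5 := m1 q' hq'
    rw [h] at h4
    have h6 : q.2.1 = q'.2.1 := by
      have : q.2.1 * 2 ^ (lam + 1) = q'.2.1 * 2 ^ (lam + 1) := by omega
      exact Nat.eq_of_mul_eq_mul_right e5 this
    have h7 : q.1 = q'.1 := by
      have h8 : q.1 * 2 ^ (l + 1) + (i * 2 ^ (l + 1 - d) + (q.2.1 * 2 ^ (lam + 1) + q.2.2)) =
        q'.1 * 2 ^ (l + 1) + (i * 2 ^ (l + 1 - d) + (q'.2.1 * 2 ^ (lam + 1) + q'.2.2)) := h
      rw [h6, h3] at h8
      have : q.1 * 2 ^ (l + 1) = q'.1 * 2 ^ (l + 1) := by omega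
      exact Nat.eq_of_mul_eq_mul_right (by positivity) this
    exact Prod.ext h7 (Prod.ext h6 h3)
  have hcard : (S.image f).card = 2 ^ (L + 1 - 2 * d) := by
    rw [Finset.card_image_of_injOn finj, hS, Finset.card_product, Finset.card_product, card_range,
      card_range, card_range, ← pow_add, ← pow_add]
    congr 1
    omega
  obtain ⟨v, hv, hvB⟩ := Finset.exists_mem_notMem_of_card_lt_card (hB.trans_eq hcard.symm)
  rw [Finset.mem_image] at hv
  obtain ⟨q, hq, rfl⟩ := hv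
  refine ⟨f q, ?_, hvB, ?_, ?_, ?_⟩
  · have h1 := r2 q hq
    have hq' := hq
    rw [hS, Finset.mem_product, Finset.mem_range] at hq'
    rw [e4]
    calc f q < q.1 * 2 ^ (l + 1) + 2 ^ (l + 1) := by
          show q.1 * 2 ^ (l + 1) + _ < _
          omega
      _ = (q.1 + 1) * 2 ^ (l + 1) := by ring
      _ ≤ _ := Nat.mul_le_mul_right _ hq'.1
  · rw [m1 q hq]
    omega
  · rw [m1 q hq]
    have h1 := r1 q hq
    calc _ < i * 2 ^ (l + 1 - d) + 2 ^ (l + 1 - d) := by omega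
      _ = _ := by ring
  · rw [m2 q hq]
    rw [hS, Finset.mem_product, Finset.mem_product, Finset.mem_range, Finset.mem_range,
      Finset.mem_range] at hq
    exact hq.2.2

/-- ONE BLOCK: if for all but few `v` the windows at the levels `[lam, mu]` along `v` are close,
then all the windows are close to one number -/
lemma win_small_of_few (φ : ℤ → ℝ) (hφ : ∀ n, |φ n| ≤ 1) (c0 : ℝ) (L lam mu d : ℕ)
    (hmu : mu ≤ L) (hd : d ≤ lam + 1) (B : Finset ℕ) (hB : B.card < 2 ^ (L + 1 - 2 * d))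
    (hgood : ∀ v < 2 ^ (L + 1), v ∉ B → ∀ l, lam ≤ l → l ≤ mu →
      |wav φ l (v % 2 ^ (l + 1)) - wav φ lam (v % 2 ^ (lam + 1))| < c0) :
    WinSmall (fun n => φ n - wav φ lam 0) (c0 + 4 * (2 ^ d)⁻¹) (lam + d) mu := by
  intro l hl1 hl2 w hw
  have hpos : (0 : ℝ) < 2 ^ (l + 1) := by positivity
  -- the cell of w
  set i := w / 2 ^ (l + 1 - d) with hi
  have e1 : (2 : ℕ) ^ (l + 1) = 2 ^ d * 2 ^ (l + 1 - d) := by
    rw [← pow_add]; congr 1; omega
  have hi1 : i < 2 ^ d := by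
    rw [hi, Nat.div_lt_iff_lt_mul (by positivity), ← e1]
    exact hw
  obtain ⟨v, hv1, hv2, hv3, hv4, hv5⟩ := many_v L l lam d i (by omega) hl1 hd hi1 B hB
  have h1 := hgood v hv1 hv2 l (by omega) hl2
  have hw1 : i * 2 ^ (l + 1 - d) ≤ w := Nat.div_mul_le_self _ _
  have hw2 : w < (i + 1) * 2 ^ (l + 1 - d) := by
    have h1 := Nat.div_add_mod w (2 ^ (l + 1 - d))
    have h2 := Nat.mod_lt w (by positivity : 0 < 2 ^ (l + 1 - d))
    calc w = 2 ^ (l + 1 - d) * i + w % 2 ^ (l + 1 - d) := h1.symm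
      _ < 2 ^ (l + 1 - d) * i + 2 ^ (l + 1 - d) := by omega
      _ = (i + 1) * 2 ^ (l + 1 - d) := by ring
  -- Lipschitz
  have hlip : ∀ (l : ℕ) (p q : ℕ), d ≤ l + 1 → p ≤ q → q ≤ p + 2 ^ (l + 1 - d) →
      |wav φ l q - wav φ l p| ≤ 2 * (2 ^ d)⁻¹ := by
    intro l p q hdl hpq hq
    obtain ⟨k, rfl⟩ := Nat.exists_eq_add_of_le hpq
    refine (wav_lip φ hφ l p k).trans ?_
    have hk : (k : ℝ) ≤ 2 ^ (l + 1 - d) := by exact_mod_cast (by omega : k ≤ 2 ^ (l + 1 - d))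
    have e2 : (2 : ℝ) ^ (l + 1) = 2 ^ d * 2 ^ (l + 1 - d) := by
      rw [← pow_add]; congr 1; omega
    rw [div_le_iff₀ (by positivity), e2]
    have : 2 * ((2 : ℝ) ^ d)⁻¹ * (2 ^ d * 2 ^ (l + 1 - d)) = 2 * 2 ^ (l + 1 - d) := by
      field_simp
    rw [this]
    linarith
  have h2 : |wav φ l w - wav φ l (v % 2 ^ (l + 1))| ≤ 2 * (2 ^ d)⁻¹ := by
    rcases le_total (v % 2 ^ (l + 1)) w with h | h
    · exact hlip l _ _ (by omega) h (by
        have : (i + 1) * 2 ^ (l + 1 - d) = i * 2 ^ (l + 1 - d) + 2 ^ (l + 1 - d) := by ring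
        omega)
    · rw [abs_sub_comm]
      exact hlip l _ _ (by omega) h (by
        have : (i + 1) * 2 ^ (l + 1 - d) = i * 2 ^ (l + 1 - d) + 2 ^ (l + 1 - d) := by ring
        omega)
  have h3 : |wav φ lam (v % 2 ^ (lam + 1)) - wav φ lam 0| ≤ 2 * (2 ^ d)⁻¹ :=
    hlip lam 0 _ hd (Nat.zero_le _) (by omega)
  have h4 : |wav φ l w - wav φ lam 0| ≤ c0 + 4 * (2 ^ d)⁻¹ := by
    rw [abs_le] at h2 h3 ⊢
    rw [abs_lt] at h1
    constructor <;> linarith [h1.1, h1.2, h2.1, h2.2, h3.1, h3.2]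
  have h5 : ∑ n ∈ range (2 ^ (l + 1)), (φ ((w : ℤ) - n) - wav φ lam 0) =
      2 ^ (l + 1) * (wav φ l w - wav φ lam 0) := by
    rw [Finset.sum_sub_distrib, Finset.sum_const, card_range, nsmul_eq_mul]
    unfold wav
    push_cast
    field_simp
  rw [h5, abs_mul, abs_of_pos hpos, mul_comm]
  exact mul_le_mul_of_nonneg_right h4 hpos.le

/-! ### the finite theorem in the binary model -/

/-- the average over the window `J_l = y_l - [0, 2^(l+1))`, `y_l = sum x + (w mod 2^(l+1))` -/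
noncomputable def bav {m M : ℕ} (F : Fin m → (Fin m → ZMod M) → ZMod M → ℝ) (x : Fin m → ZMod M)
    (l w : ℕ) : ℝ :=
  ((2 : ℝ) ^ (l + 1))⁻¹ * ∑ n ∈ range (2 ^ (l + 1)),
    ∏ i, F i x (∑ j, x j + ((w % 2 ^ (l + 1) : ℕ) : ZMod M) - (n : ZMod M))

/-- THE FINITE THEOREM IN THE BINARY MODEL: levels `L, ..., 0`, noise `w < 2^(L+1)` uniform; a mark
at the level `j` allows a change from the level `j+1` to the level `j` -/
def BinTh (m : ℕ) : Prop :=
  ∀ c : ℝ, 0 < c → ∀ η : ℝ, 0 < η → ∃ K : ℝ, 0 ≤ K ∧ ∀ L M0 : ℕ,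
    ∃ M : ℕ, M0 ≤ M ∧ ∃ _h : NeZero M,
      ∀ F : Fin m → (Fin m → ZMod M) → ZMod M → ℝ, Face F → (∀ i x d, |F i x d| ≤ 1) →
      ∃ (mark : (Fin m → ZMod M) → ℕ → ℕ → Prop) (exc : (Fin m → ZMod M) → ℕ → Prop),
        (∑ x : Fin m → ZMod M, ∑ w ∈ range (2 ^ (L + 1)), ∑ j ∈ range (L + 1), ind (mark x w j)) ≤
          K * ((M : ℝ) ^ m * 2 ^ (L + 1)) ∧
        (∑ x : Fin m → ZMod M, ∑ w ∈ range (2 ^ (L + 1)), ind (exc x w)) ≤
          η * ((M : ℝ) ^ m * 2 ^ (L + 1)) ∧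
        ∀ x, ∀ w < 2 ^ (L + 1), ¬ exc x w → ∀ l' l, l' ≤ l → l ≤ L →
          (∀ j, l' ≤ j → j < l → ¬ mark x w j) → |bav F x l w - bav F x l' w| < c

/-- one base point, one block -/
lemma block_bin (φ : ℤ → ℝ) (hφ : ∀ n, |φ n| ≤ 1) (c : ℝ) (hc : 0 < c)
    (L d : ℕ) (hd : 1000 / c ≤ 2 ^ d)
    (N : ℕ → ℕ) (p q lam mu : ℕ) (hlam : d ≤ lam) (hmu : mu ≤ L)
    (hN1 : ∀ k, p ≤ k → k < q → 2 ^ (lam + 2 * d) ≤ N k)
    (hN2 : ∀ k, p ≤ k → k < q → N k < 2 ^ (mu + 1))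
    (mark : ℕ → ℕ → Prop) (exc : ℕ → Prop)
    (hm : ∀ w < 2 ^ (L + 1), ¬ exc w → ∀ l' l, l' ≤ l → l ≤ L →
      (∀ j, l' ≤ j → j < l → ¬ mark w j) →
      |wav φ l (w % 2 ^ (l + 1)) - wav φ l' (w % 2 ^ (l' + 1))| < c / 100)
    (hosc : OscP (fun k => av φ (N k)) c p q) :
    (2 : ℝ) ^ (L + 1) ≤ 4 ^ d * ∑ w ∈ range (2 ^ (L + 1)),
      (ind (exc w) + ∑ j ∈ Finset.Ico lam mu, ind (mark w j)) := by
  classical
  obtain ⟨k, k', hk1, hk2, hk3, hk4⟩ := hosc.exists_lt hc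
  set B : Finset ℕ := (range (2 ^ (L + 1))).filter
    (fun w => exc w ∨ ∃ j ∈ Finset.Ico lam mu, mark w j) with hB
  have h1 : (B.card : ℝ) ≤ ∑ w ∈ range (2 ^ (L + 1)),
      (ind (exc w) + ∑ j ∈ Finset.Ico lam mu, ind (mark w j)) := by
    rw [hB, Finset.card_filter]
    push_cast
    refine Finset.sum_le_sum fun w _ => ?_
    have hs0 : 0 ≤ ∑ j ∈ Finset.Ico lam mu, ind (mark w j) := Finset.sum_nonneg fun j _ => ind_nonneg _
    split_ifs with h
    · rcases h with h | ⟨j, hj, h⟩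
      · rw [ind_of h]; linarith
      · have h2 : ind (mark w j) ≤ ∑ j ∈ Finset.Ico lam mu, ind (mark w j) :=
          Finset.single_le_sum (f := fun j => ind (mark w j)) (fun j _ => ind_nonneg _) hj
        rw [ind_of h] at h2
        linarith [ind_nonneg (exc w)]
    · linarith [ind_nonneg (exc w)]
  by_cases hlm : lam + 2 * d ≤ mu + 1
  swap
  · exfalso
    have h2 := hN1 k hk1 (by omega)
    have h3 := hN2 k hk1 (by omega)
    have h4 : (2 : ℕ) ^ (mu + 1) ≤ 2 ^ (lam + 2 * d) := Nat.pow_le_pow_right (by norm_num) (by omega)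
    omega
  by_cases hcard : B.card < 2 ^ (L + 1 - 2 * d)
  · exfalso
    have h2 := win_small_of_few φ hφ (c / 100) L lam mu d hmu (by omega) B hcard (by
      intro v hv hvB l hl1 hl2
      have hvB' : ¬ (exc v ∨ ∃ j ∈ Finset.Ico lam mu, mark v j) := by
        intro h
        exact hvB (by rw [hB, Finset.mem_filter, Finset.mem_range]; exact ⟨hv, h⟩)
      push Not at hvB'
      exact hm v hv hvB'.1 lam l hl1 (by omega) fun j hj1 hj2 =>
        hvB'.2 j (Finset.mem_Ico.mpr ⟨hj1, by omega⟩))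
    have hdinv : ((2 : ℝ) ^ d)⁻¹ ≤ c / 1000 := by
      rw [inv_le_comm₀ (by positivity) (by positivity)]
      rw [inv_div]
      exact hd
    have hwl : |wav φ lam 0| ≤ 1 := by
      unfold wav
      rw [abs_mul, abs_of_pos (by positivity : (0 : ℝ) < (2 ^ (lam + 1))⁻¹)]
      have : |∑ n ∈ range (2 ^ (lam + 1)), φ (((0 : ℕ) : ℤ) - n)| ≤ 2 ^ (lam + 1) := by
        refine (Finset.abs_sum_le_sum_abs _ _).trans ?_
        calc _ ≤ ∑ _n ∈ range (2 ^ (lam + 1)), (1 : ℝ) := Finset.sum_le_sum fun n _ => hφ _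
          _ = 2 ^ (lam + 1) := by rw [Finset.sum_const, card_range, nsmul_eq_mul, mul_one]; push_cast; rfl
      calc _ ≤ ((2 : ℝ) ^ (lam + 1))⁻¹ * 2 ^ (lam + 1) :=
            mul_le_mul_of_nonneg_left this (by positivity)
        _ = 1 := by field_simp
    have hB2 : ∀ n, |φ n - wav φ lam 0| ≤ 2 := by
      intro n
      have a1 := hφ n
      rw [abs_le] at a1 hwl ⊢
      constructor <;> linarith [a1.1, a1.2, hwl.1, hwl.2]
    have key : ∀ k, p ≤ k → k < q → |av φ (N k) - wav φ lam 0| ≤ c / 4 := by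
      intro k hk1 hk2
      have a1 := hN1 k hk1 hk2
      have a2 := hN2 k hk1 hk2
      have hNk : N k ≠ 0 := by
        have : 0 < 2 ^ (lam + 2 * d) := by positivity
        omega
      set l := Nat.log 2 (N k) with hl
      have b1 : 2 ^ l ≤ N k := Nat.pow_log_le_self 2 hNk
      have b2 : N k < 2 ^ (l + 1) := Nat.lt_pow_succ_log_self (by norm_num) _
      have b3 : lam + 2 * d ≤ l := Nat.le_log_of_pow_le (by norm_num) a1
      have b4 : l ≤ mu := by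
        have : 2 ^ l < 2 ^ (mu + 1) := lt_of_le_of_lt b1 a2
        have := (Nat.pow_lt_pow_iff_right (by norm_num : 1 < 2)).mp this
        omega
      have h3 := av_close φ (wav φ lam 0) (c / 100 + 4 * (2 ^ d)⁻¹) (by positivity) (lam + d) mu
        hB2 h2 l (by omega) b4 (N k) b1 b2
      refine h3.trans ?_
      have h4 : 8 * (2 : ℝ) ^ (lam + d) / N k ≤ 8 * (2 ^ d)⁻¹ := by
        have hNpos : (0 : ℝ) < N k := by exact_mod_cast Nat.pos_of_ne_zero hNk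
        rw [div_le_iff₀ hNpos]
        have h5 : (2 : ℝ) ^ (lam + 2 * d) ≤ N k := by exact_mod_cast a1
        have h6 : (2 : ℝ) ^ (lam + 2 * d) = 2 ^ (lam + d) * 2 ^ d := by
          rw [← pow_add]; congr 1; omega
        rw [h6] at h5
        calc 8 * (2 : ℝ) ^ (lam + d) = 8 * (2 ^ d)⁻¹ * (2 ^ (lam + d) * 2 ^ d) := by field_simp
          _ ≤ 8 * (2 ^ d)⁻¹ * N k := mul_le_mul_of_nonneg_left h5 (by positivity)
      linarith
    have h3 := key k hk1 (by omega)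
    have h4 := key k' (by omega) hk3
    have h5 : |av φ (N k) - av φ (N k')| ≤ c / 2 := by
      rw [abs_le] at h3 h4 ⊢
      constructor <;> linarith [h3.1, h3.2, h4.1, h4.2]
    have h6 : c ≤ |av φ (N k) - av φ (N k')| := hk4
    linarith
  · push Not at hcard
    have h2 : (2 : ℝ) ^ (L + 1 - 2 * d) ≤ B.card := by exact_mod_cast hcard
    have h3 : (2 : ℝ) ^ (L + 1) = 4 ^ d * 2 ^ (L + 1 - 2 * d) := by
      rw [show (4 : ℝ) = 2 ^ 2 by norm_num, ← pow_mul, ← pow_add]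
      congr 1
      omega
    rw [h3]
    exact mul_le_mul_of_nonneg_left (h2.trans h1) (by positivity)

theorem finFace_of_bin (m : ℕ) (h : BinTh m) : FinFace m := by
  intro c0 hc0
  -- a smaller constant
  set c := min c0 1 with hcdef
  have hc : 0 < c := lt_min hc0 one_pos
  obtain ⟨d, hd⟩ := pow_unbounded_of_one_lt (1000 / c) (by norm_num : (1 : ℝ) < 2)
  refine ⟨4 * d + 4, by omega, fun δ hδ => ?_⟩
  obtain ⟨K, hK, hbin⟩ := h (c / 100) (by positivity) (δ / (2 * 4 ^ d)) (by positivity)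
  obtain ⟨J, hJ⟩ := exists_nat_gt (2 * 4 ^ d * K / δ)
  refine ⟨J + 1, by omega, fun N hN p hp hp0 M0 => ?_⟩
  obtain ⟨hNpos, hNr, _⟩ := hN
  -- monotonicity of the scales
  have hNmono : ∀ k, N k ≤ N (k + 1) := fun k =>
    (Nat.le_mul_of_pos_left _ (by positivity)).trans (hNr k)
  have hNmono' : Monotone N := monotone_nat_of_le_succ hNmono
  set e : ℕ → ℕ := fun k => Nat.log 2 (N k) with he
  have he1 : ∀ k, 2 ^ e k ≤ N k := fun k => Nat.pow_log_le_self 2 (hNpos k).ne'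
  have he2 : ∀ k, N k < 2 ^ (e k + 1) := fun k => Nat.lt_pow_succ_log_self (by norm_num) _
  have hemono : Monotone e := fun i j hij => Nat.log_mono_right (hNmono' hij)
  have hestep : ∀ k, e k + (4 * d + 4) ≤ e (k + 1) := by
    intro k
    apply Nat.le_log_of_pow_le (by norm_num)
    rw [pow_add]
    calc 2 ^ e k * 2 ^ (4 * d + 4) ≤ N k * 2 ^ (4 * d + 4) := Nat.mul_le_mul_right _ (he1 k)
      _ = 2 ^ (4 * d + 4) * N k := by ring
      _ ≤ _ := hNr k
  -- the top level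
  obtain ⟨M, hM, hM', hMF⟩ := hbin (e (p (J + 1))) M0
  refine ⟨M, hM, hM', fun F hF hF1 => ?_⟩
  obtain ⟨mark, exc, hmark, hexc, hosc⟩ := hMF F hF hF1
  set L := e (p (J + 1)) with hL
  set lam : ℕ → ℕ := fun j => e (p j) - 2 * d with hlam
  set mu : ℕ → ℕ := fun j => e (p (j + 1) - 1) with hmu
  have hpj : ∀ j, 1 ≤ p j := fun j => hp0.trans (hp.monotone (Nat.zero_le j))
  have hebig : ∀ j, 4 * d + 4 ≤ e (p j) := by
    intro j
    have h1 := hestep (p j - 1)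
    rw [Nat.sub_add_cancel (hpj j)] at h1
    omega
  have hnext : ∀ j, mu j ≤ lam (j + 1) := by
    intro j
    have h1 := hestep (p (j + 1) - 1)
    rw [Nat.sub_add_cancel (hpj (j + 1))] at h1
    show e (p (j + 1) - 1) ≤ e (p (j + 1)) - 2 * d
    omega
  have hmuL : ∀ j, j < J + 1 → mu j ≤ L := by
    intro j hj
    apply hemono
    have : p (j + 1) ≤ p (J + 1) := hp.monotone (by omega)
    omega
  have hlm : ∀ j, lam j ≤ mu j := by
    intro j
    have h1 : e (p j) ≤ e (p (j + 1) - 1) := by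
      apply hemono
      have : p j < p (j + 1) := hp (Nat.lt_succ_self j)
      omega
    show e (p j) - 2 * d ≤ e (p (j + 1) - 1)
    omega
  -- pointwise bound
  have hpt : ∀ x : Fin m → ZMod M, (2 : ℝ) ^ (L + 1) * ∑ j ∈ range (J + 1),
      ind (OscP (fun k => fav F x (N k)) c0 (p j) (p (j + 1))) ≤
      4 ^ d * ∑ w ∈ range (2 ^ (L + 1)), ((J + 1 : ℕ) * ind (exc x w) +
        ∑ j ∈ range (L + 1), ind (mark x w j)) := by
    intro x
    set φ : ℤ → ℝ := fun n => ∏ i, F i x (∑ j, x j + ((n : ℤ) : ZMod M)) with hφ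
    have hφ1 : ∀ n, |φ n| ≤ 1 := by
      intro n
      rw [hφ]
      simp only [Finset.abs_prod]
      exact Finset.prod_le_one (fun i _ => abs_nonneg _) fun i _ => hF1 _ _ _
    have hbav : ∀ l w, bav F x l w = wav φ l (w % 2 ^ (l + 1)) := by
      intro l w
      unfold bav wav
      congr 1
      refine Finset.sum_congr rfl fun n _ => ?_
      refine Finset.prod_congr rfl fun i _ => ?_
      congr 1
      rw [Int.cast_sub, Int.cast_natCast, Int.cast_natCast]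
      ring
    have h1 : ∀ j ∈ range (J + 1), (2 : ℝ) ^ (L + 1) *
        ind (OscP (fun k => fav F x (N k)) c0 (p j) (p (j + 1))) ≤
        4 ^ d * ∑ w ∈ range (2 ^ (L + 1)),
          (ind (exc x w) + ∑ i ∈ Finset.Ico (lam j) (mu j), ind (mark x w i)) := by
      intro j hj
      rw [Finset.mem_range] at hj
      by_cases hos : OscP (fun k => fav F x (N k)) c0 (p j) (p (j + 1))
      · rw [ind_of hos, mul_one]
        refine block_bin φ hφ1 c hc L d hd.le N (p j) (p (j + 1)) (lam j) (mu j) ?_ (hmuL j hj)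
          ?_ ?_ (mark x) (exc x) ?_ ?_
        · have := hebig j
          show d ≤ e (p j) - 2 * d
          omega
        · intro k hk1 _
          have h2 : lam j + 2 * d ≤ e k := by
            have := hemono hk1
            have := hebig j
            show e (p j) - 2 * d + 2 * d ≤ e k
            omega
          exact (Nat.pow_le_pow_right (by norm_num) h2).trans (he1 k)
        · intro k _ hk2
          have h2 : e k ≤ mu j := hemono (by omega)
          exact (he2 k).trans_le (Nat.pow_le_pow_right (by norm_num) (by omega))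
        · intro w hw hex l' l hl' hl hno
          have h2 := hosc x w hw hex l' l hl' hl hno
          rw [hbav, hbav] at h2
          exact h2
        · obtain ⟨k, hk, k', hk', h3⟩ := hos
          refine ⟨k, hk, k', hk', ?_⟩
          have h4 : c ≤ c0 := min_le_left _ _
          exact h4.trans h3
      · rw [ind_not hos, mul_zero]
        exact mul_nonneg (by positivity) (Finset.sum_nonneg fun w _ => add_nonneg (ind_nonneg _)
          (Finset.sum_nonneg fun i _ => ind_nonneg _))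
    rw [Finset.mul_sum]
    refine (Finset.sum_le_sum h1).trans ?_
    rw [← Finset.mul_sum]
    refine mul_le_mul_of_nonneg_left ?_ (by positivity)
    rw [Finset.sum_comm]
    refine Finset.sum_le_sum fun w _ => ?_
    rw [Finset.sum_add_distrib, Finset.sum_const, card_range, nsmul_eq_mul]
    refine add_le_add le_rfl ?_
    -- disjoint blocks of levels
    have h2 : ∀ n ≤ J + 1, ∑ j ∈ range n, ∑ i ∈ Finset.Ico (lam j) (mu j), ind (mark x w i) ≤
        ∑ i ∈ range (if n = 0 then 0 else mu (n - 1)), ind (mark x w i) := by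
      intro n
      induction n with
      | zero => intro _; simp
      | succ n ih =>
        intro hn
        rw [Finset.sum_range_succ]
        have h3 := ih (by omega)
        rw [if_neg (Nat.succ_ne_zero n), Nat.add_sub_cancel]
        have h4 : (if n = 0 then 0 else mu (n - 1)) ≤ lam n := by
          split_ifs with h0
          · exact Nat.zero_le _
          · obtain ⟨k, rfl⟩ := Nat.exists_eq_succ_of_ne_zero h0
            exact hnext k
        have h5 : ∑ i ∈ range (if n = 0 then 0 else mu (n - 1)), ind (mark x w i) ≤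
            ∑ i ∈ range (lam n), ind (mark x w i) :=
          Finset.sum_le_sum_of_subset_of_nonneg (Finset.range_mono h4) fun i _ _ => ind_nonneg _
        have h6 : ∑ i ∈ range (lam n), ind (mark x w i) +
            ∑ i ∈ Finset.Ico (lam n) (mu n), ind (mark x w i) =
            ∑ i ∈ range (mu n), ind (mark x w i) :=
          Finset.sum_range_add_sum_Ico _ (hlm n)
        linarith
    refine (h2 (J + 1) le_rfl).trans ?_
    rw [if_neg (Nat.succ_ne_zero J), Nat.add_sub_cancel]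
    refine Finset.sum_le_sum_of_subset_of_nonneg (Finset.range_mono ?_) fun i _ _ => ind_nonneg _
    have := hmuL J (by omega)
    omega
  -- sum over the base points
  have hpos : (0 : ℝ) < 2 ^ (L + 1) := by positivity
  have hsum : (2 : ℝ) ^ (L + 1) * ∑ x : Fin m → ZMod M, ∑ j ∈ range (J + 1),
      ind (OscP (fun k => fav F x (N k)) c0 (p j) (p (j + 1))) ≤
      4 ^ d * ((J + 1 : ℕ) * (δ / (2 * 4 ^ d) * ((M : ℝ) ^ m * 2 ^ (L + 1))) +
        K * ((M : ℝ) ^ m * 2 ^ (L + 1))) := by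
    rw [Finset.mul_sum]
    refine (Finset.sum_le_sum fun x _ => hpt x).trans ?_
    rw [← Finset.mul_sum]
    refine mul_le_mul_of_nonneg_left ?_ (by positivity)
    have h3 : ∑ x : Fin m → ZMod M, ∑ w ∈ range (2 ^ (L + 1)), (((J + 1 : ℕ) : ℝ) * ind (exc x w) +
        ∑ j ∈ range (L + 1), ind (mark x w j)) =
        ((J + 1 : ℕ) : ℝ) * (∑ x : Fin m → ZMod M, ∑ w ∈ range (2 ^ (L + 1)), ind (exc x w)) +
        ∑ x : Fin m → ZMod M, ∑ w ∈ range (2 ^ (L + 1)), ∑ j ∈ range (L + 1), ind (mark x w j) := by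
      rw [Finset.mul_sum, ← Finset.sum_add_distrib]
      refine Finset.sum_congr rfl fun x _ => ?_
      rw [Finset.sum_add_distrib, Finset.mul_sum]
    rw [h3]
    exact add_le_add (mul_le_mul_of_nonneg_left hexc (by positivity)) hmark
  have hMm : (0 : ℝ) ≤ (M : ℝ) ^ m := by positivity
  have hJ' : 2 * 4 ^ d * K / δ ≤ ((J + 1 : ℕ) : ℝ) := by push_cast; linarith
  rw [div_le_iff₀ hδ] at hJ'
  have h4 : (4 : ℝ) ^ d * ((J + 1 : ℕ) * (δ / (2 * 4 ^ d) * ((M : ℝ) ^ m * 2 ^ (L + 1))) +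
        K * ((M : ℝ) ^ m * 2 ^ (L + 1))) =
      2 ^ (L + 1) * (((J + 1 : ℕ) : ℝ) * δ / 2 * (M : ℝ) ^ m + 4 ^ d * K * (M : ℝ) ^ m) := by
    field_simp
  rw [h4] at hsum
  have h5 := le_of_mul_le_mul_left hsum hpos
  refine h5.trans ?_
  have h6 : (4 : ℝ) ^ d * K ≤ ((J + 1 : ℕ) : ℝ) * δ / 2 := by linarith
  have h7 := mul_le_mul_of_nonneg_right h6 hMm
  calc ((J + 1 : ℕ) : ℝ) * δ / 2 * (M : ℝ) ^ m + 4 ^ d * K * (M : ℝ) ^ m
      ≤ ((J + 1 : ℕ) : ℝ) * δ / 2 * (M : ℝ) ^ m + ((J + 1 : ℕ) : ℝ) * δ / 2 * (M : ℝ) ^ m := by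
        linarith
    _ = δ * ((J + 1 : ℕ) : ℝ) * (M : ℝ) ^ m := by ring

end Pool.PWM
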