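/-
PWM (MP_4d8f14_an), transfer part, module TrOB (helper53): the weak block oscillation bound implies
almost everywhere convergence.  Adapted from PWZ/EndOsc and PWZ/EndNet (helper74).
-/
import Mathlib
import Pool.Agent.PWM.TrDefs

set_option autoImplicit false

open MeasureTheory Set Filter Pool.PWZ

namespace Pool.PWM

/-- If for every `δ` there is `J` such that the expected number of blocks with oscillation at least
`c` is at most `δ J`, for all systems of `J` consecutive blocks, then almost every point has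
eventually oscillation less than `c`. -/
theorem ae_osc_of_wblocks {X : Type*} [MeasurableSpace X] (μ : Measure X) [IsFiniteMeasure μ]
    {a : ℕ → X → ℝ} (c : ℝ)
    (h : ∀ δ : ℝ, 0 < δ → ∃ J : ℕ, 1 ≤ J ∧ ∀ p : ℕ → ℕ, StrictMono p → 1 ≤ p 0 →
      ∑ j ∈ Finset.range J, μ.real (oscSet a c (p j) (p (j + 1))) ≤ δ * J) :
    ∀ᵐ x ∂μ, ∃ k0, ∀ k ≥ k0, ∀ k' ≥ k0, |a k x - a k' x| < c := by
  -- the bad set
  set B : Set X := {x | ∀ k0, ∃ k ≥ k0, ∃ k' ≥ k0, c ≤ |a k x - a k' x|} with hB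
  have hBsub : ∀ p, B ⊆ ⋃ q, oscSet a c p q := by
    intro p x hx
    obtain ⟨k, hk, k', hk', hx⟩ := hx p
    refine mem_iUnion.mpr ⟨max k k' + 1, k, ⟨hk, ?_⟩, k', ⟨hk', ?_⟩, hx⟩
    · exact Nat.lt_succ_of_le (le_max_left _ _)
    · exact Nat.lt_succ_of_le (le_max_right _ _)
  suffices hB0 : μ B = 0 by
    rw [ae_iff]
    refine measure_mono_null ?_ hB0
    intro x hx
    intro k0
    by_contra hcon
    apply hx
    refine ⟨k0, fun k hk k' hk' => ?_⟩
    by_contra hcc
    exact hcon ⟨k, hk, k', hk', not_lt.mp hcc⟩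
  by_contra hne
  have hpos : 0 < μ B := pos_iff_ne_zero.mpr hne
  have hfin : μ B ≠ ⊤ := measure_ne_top μ B
  -- for every `p` there is `q > p` with large oscillation set
  have hex : ∀ p, ∃ q, p < q ∧ μ B / 2 ≤ μ (oscSet a c p q) := by
    intro p
    have hmono : Monotone fun q => oscSet a c p q := fun q q' hqq => oscSet_mono a c hqq
    have hlim : Filter.Tendsto (fun q => μ (oscSet a c p q)) Filter.atTop
        (nhds (μ (⋃ q, oscSet a c p q))) := tendsto_measure_iUnion_atTop hmono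
    have hlt : μ B / 2 < μ (⋃ q, oscSet a c p q) :=
      (ENNReal.half_lt_self hne hfin).trans_le (measure_mono (hBsub p))
    have hev := (hlim.eventually (lt_mem_nhds hlt)).and (Filter.eventually_gt_atTop p)
    obtain ⟨q, hq1, hq2⟩ := hev.exists
    exact ⟨q, hq2, hq1.le⟩
  choose q hq1 hq2 using hex
  -- iterate
  let p : ℕ → ℕ := fun j => Nat.rec 1 (fun _ r => q r) j
  have hp0 : p 0 = 1 := rfl
  have hps : ∀ j, p (j + 1) = q (p j) := fun j => rfl
  have hpm : StrictMono p := strictMono_nat_of_lt_succ fun j => by rw [hps]; exact hq1 _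
  have hlow : ∀ j, (μ B / 2).toReal ≤ μ.real (oscSet a c (p j) (p (j + 1))) := by
    intro j
    rw [hps]
    exact ENNReal.toReal_mono (measure_ne_top _ _) (hq2 _)
  have hhalf : 0 < (μ B / 2).toReal := by
    apply ENNReal.toReal_pos
    · exact (ENNReal.half_pos hne).ne'
    · exact (ENNReal.div_lt_top hfin (by norm_num)).ne
  obtain ⟨J, hJ, hJ2⟩ := h ((μ B / 2).toReal / 2) (by positivity)
  have h1 := hJ2 p hpm hp0.ge
  have h2 : (J : ℝ) * (μ B / 2).toReal ≤
      ∑ j ∈ Finset.range J, μ.real (oscSet a c (p j) (p (j + 1))) := by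
    calc (J : ℝ) * (μ B / 2).toReal = ∑ _j ∈ Finset.range J, (μ B / 2).toReal := by simp
      _ ≤ _ := Finset.sum_le_sum fun j _ => hlow j
  have hJ' : (1 : ℝ) ≤ J := by exact_mod_cast hJ
  nlinarith

/-- the weak block oscillation bound implies almost everywhere convergence -/
theorem ae_tendsto_of_WOB {X : Type*} [MeasurableSpace X] (μ : Measure X) [IsFiniteMeasure μ]
    (φ : X → ℤ → ℝ) (hφ : ∀ x n, |φ x n| ≤ 1) (h : WOB μ φ) :
    ∀ᵐ x ∂μ, ∃ L : ℝ, Tendsto (fun N : ℕ => av (φ x) N) atTop (nhds L) := by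
  -- eventual oscillation at most `5 / (M + 1)`
  have key : ∀ M : ℕ, ∀ᵐ x ∂μ, ∃ N0 : ℕ, ∀ N ≥ N0, ∀ N' ≥ N0,
      |av (φ x) N - av (φ x) N'| < 5 / (M + 1 : ℝ) := by
    intro M
    have hc : (0 : ℝ) < 1 / (M + 1 : ℝ) := by positivity
    obtain ⟨R, hR1, hR2⟩ := h _ hc
    have hRpos : 0 < R := by omega
    set D := 2 * (M + 1) with hD
    have hDpos : 0 < D := by omega
    have good : ∀ s : ℕ → ℕ, (∀ k, 0 < s k) → (∀ k, 2 ^ R * s k ≤ s (k + 1)) →
        (∀ k, s (k + 1) ≤ 2 ^ (4 * R) * s k) →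
        ∀ᵐ x ∂μ, ∀ᶠ K in atTop, ∀ k ≥ K, ∀ k' ≥ K,
          |av (φ x) (s k) - av (φ x) (s k')| < 1 / (M + 1 : ℝ) := by
      intro s h1 h2 h3
      have h4 := ae_osc_of_wblocks μ (a := fun k x => av (φ x) (s k)) (1 / (M + 1 : ℝ))
        (fun δ hδ => by
          obtain ⟨J, hJ1, hJ2⟩ := hR2 δ hδ
          exact ⟨J, hJ1, fun p hp hp1 => hJ2 s ⟨h1, h2, h3⟩ p hp hp1⟩)
      filter_upwards [h4] with x hx
      obtain ⟨k0, hk0⟩ := hx
      filter_upwards [eventually_ge_atTop k0] with K hK k hk k' hk'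
      exact hk0 k (hK.trans hk) k' (hK.trans hk')
    have hP : ∀ᵐ x ∂μ, ∀ m ∈ Finset.Ico D (2 * D), ∀ r ∈ Finset.range R, ∀ᶠ K in atTop,
        ∀ k ≥ K, ∀ k' ≥ K,
          |av (φ x) (seqP R m r k) - av (φ x) (seqP R m r k')| < 1 / (M + 1 : ℝ) := by
      rw [eventually_all_finset]
      intro m hm
      rw [eventually_all_finset]
      intro r _
      have hm0 : 0 < m := hDpos.trans_le (Finset.mem_Ico.mp hm).1
      refine good (seqP R m r) (fun k => seqP_pos hm0) (fun k => (seqP_succ R m r k).ge) ?_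
      intro k
      rw [seqP_succ]
      gcongr
      · norm_num
      · omega
    have hQ : ∀ᵐ x ∂μ, ∀ m ∈ Finset.Ico D (2 * D), ∀ r ∈ Finset.range R,
        ∀ m' ∈ Finset.Ico D (2 * D), ∀ r' ∈ Finset.range R, ∀ᶠ K in atTop,
        ∀ k ≥ K, ∀ k' ≥ K,
          |av (φ x) (seqQ R m r m' r' k) - av (φ x) (seqQ R m r m' r' k')| < 1 / (M + 1 : ℝ) := by
      rw [eventually_all_finset]
      intro m hm
      rw [eventually_all_finset]
      intro r hr
      rw [eventually_all_finset]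
      intro m' hm'
      rw [eventually_all_finset]
      intro r' hr'
      rw [Finset.mem_Ico] at hm hm'
      rw [Finset.mem_range] at hr hr'
      exact good (seqQ R m r m' r') (fun k => seqQ_pos (by omega) (by omega))
        (fun k => seqQ_low hr hr' (by omega) (by omega))
        (fun k => seqQ_up hr hr' (by omega) (by omega))
    filter_upwards [hP, hQ] with x hxP hxQ
    have hE : ∀ᶠ K in atTop, (∀ m ∈ Finset.Ico D (2 * D), ∀ r ∈ Finset.range R,
        ∀ k ≥ K, ∀ k' ≥ K,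
          |av (φ x) (seqP R m r k) - av (φ x) (seqP R m r k')| < 1 / (M + 1 : ℝ)) ∧
        (∀ m ∈ Finset.Ico D (2 * D), ∀ r ∈ Finset.range R,
        ∀ m' ∈ Finset.Ico D (2 * D), ∀ r' ∈ Finset.range R,
        ∀ k ≥ K, ∀ k' ≥ K,
          |av (φ x) (seqQ R m r m' r' k) - av (φ x) (seqQ R m r m' r' k')| <
            1 / (M + 1 : ℝ)) := by
      rw [eventually_and]
      constructor
      · rw [eventually_all_finset]
        intro m hm
        rw [eventually_all_finset]
        intro r hr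
        exact hxP m hm r hr
      · rw [eventually_all_finset]
        intro m hm
        rw [eventually_all_finset]
        intro r hr
        rw [eventually_all_finset]
        intro m' hm'
        rw [eventually_all_finset]
        intro r' hr'
        exact hxQ m hm r hr m' hm' r' hr'
    obtain ⟨K, hK1, hK2⟩ := hE.exists
    refine ⟨D * 2 ^ (R * (K + 1)), fun N hN N' hN' => ?_⟩
    obtain ⟨m, hm, r, hr, k, hk, hle, s, hs1, hs2⟩ := exists_net hDpos hRpos hN
    obtain ⟨m', hm', r', hr', k', hk', hle', s', hs1', hs2'⟩ := exists_net hDpos hRpos hN'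
    have e1 := abs_av_sub_av_le' (hφ x) hle hs1 hDpos hs2
    have e1' := abs_av_sub_av_le' (hφ x) hle' hs1' hDpos hs2'
    have hDc : (2 : ℝ) / D = 1 / (M + 1 : ℝ) := by
      rw [hD]
      push_cast
      field_simp
    rw [hDc] at e1 e1'
    have e2 := hK1 m hm r hr k hk (4 * K) (by omega)
    have e3 := hK2 m hm r hr m' hm' r' hr' (2 * K) (by omega) (2 * K + 1) (by omega)
    rw [seqQ_even, seqQ_odd] at e3
    have e4 := hK1 m' hm' r' hr' (4 * K + 2) (by omega) k' hk'
    have h5 : (5 : ℝ) / (M + 1 : ℝ) = 5 * (1 / (M + 1 : ℝ)) := by ring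
    rw [h5]
    rw [abs_lt] at e2 e3 e4 ⊢
    rw [abs_le] at e1 e1'
    constructor <;> linarith [e1.1, e1.2, e1'.1, e1'.2, e2.1, e2.2, e3.1, e3.2, e4.1, e4.2]
  have key' : ∀ᵐ x ∂μ, ∀ M : ℕ, ∃ N0 : ℕ, ∀ N ≥ N0, ∀ N' ≥ N0,
      |av (φ x) N - av (φ x) N'| < 5 / (M + 1 : ℝ) := ae_all_iff.mpr key
  filter_upwards [key'] with x hx
  apply cauchySeq_tendsto_of_complete
  rw [Metric.cauchySeq_iff]
  intro ε hε
  obtain ⟨M, hM⟩ := exists_nat_gt (5 / ε)
  obtain ⟨N0, hN0⟩ := hx M
  refine ⟨N0, fun N hN N' hN' => ?_⟩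
  rw [Real.dist_eq]
  refine (hN0 N hN N' hN').trans_le ?_
  have hM1 : (0 : ℝ) < (M : ℝ) + 1 := by positivity
  rw [div_le_iff₀ hM1]
  rw [div_lt_iff₀ hε] at hM
  nlinarith



end Pool.PWM
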