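/-
PWM (MP_4d8f14_an), transfer part, module TrInt (helper53).
Transference: the finite theorem `FinTh m` implies almost everywhere convergence for `m` commuting
measure preserving maps and real bounded functions.
-/
import Mathlib
import Pool.Agent.PWM.TrOB
import Pool.Agent.PWZ.EndInt

set_option autoImplicit false

open Finset MeasureTheory Filter Topology Pool.Agent.PWZ Pool.PWZ

namespace Pool.PWM

/-- the product of the `T i ^ x i` -/
def tp {G : Type*} [Group G] {m : ℕ} (T : Fin m → G) (x : Fin m → ℤ) : G :=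
  (List.ofFn fun i => T i ^ x i).prod

lemma tp_commute {G : Type*} [Group G] {m : ℕ} (T : Fin m → G) (x : Fin m → ℤ) (g : G)
    (h : ∀ i, Commute g (T i)) : Commute g (tp T x) := by
  unfold tp
  refine Commute.list_prod_right _ _ ?_
  intro y hy
  rw [List.mem_ofFn] at hy
  obtain ⟨i, rfl⟩ := hy
  exact (h i).zpow_right _

lemma tp_update {G : Type*} [Group G] : ∀ {m : ℕ} (T : Fin m → G),
    (∀ i j, Commute (T i) (T j)) → ∀ (x : Fin m → ℤ) (i : Fin m) (n : ℤ),
    tp T (Function.update x i (x i + n)) = T i ^ n * tp T x := by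
  intro m
  induction m with
  | zero => intro T _ x i; exact i.elim0
  | succ m ih =>
    intro T hT x i n
    have hsucc : ∀ z : Fin (m + 1) → ℤ,
        tp T z = T 0 ^ z 0 * tp (fun j : Fin m => T j.succ) (fun j => z j.succ) := by
      intro z
      unfold tp
      rw [List.ofFn_succ, List.prod_cons]
    rw [hsucc, hsucc x]
    refine Fin.cases ?_ ?_ i
    · have h1 : (fun j : Fin m => Function.update x 0 (x 0 + n) j.succ) = fun j => x j.succ := by
        funext j
        rw [Function.update_of_ne (Fin.succ_ne_zero j)]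
      rw [h1, Function.update_self, ← mul_assoc, ← zpow_add, add_comm (x 0) n]
    · intro j
      have h0 : Function.update x j.succ (x j.succ + n) 0 = x 0 :=
        Function.update_of_ne (Fin.succ_ne_zero j).symm _ _
      have h1 : (fun l : Fin m => Function.update x j.succ (x j.succ + n) l.succ) =
          Function.update (fun l => x l.succ) j (x j.succ + n) := by
        funext l
        by_cases hl : l = j
        · subst hl; rw [Function.update_self, Function.update_self]
        · rw [Function.update_of_ne hl, Function.update_of_ne]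
          intro h; exact hl (Fin.succ_inj.mp h)
      rw [h0, h1, ih (fun l => T l.succ) (fun a b => hT _ _) (fun l => x l.succ) j n,
        ← mul_assoc, ← mul_assoc]
      congr 1
      exact ((hT 0 j.succ).zpow_zpow _ _).eq

section
variable {X : Type} [MeasurableSpace X] {μ : Measure X}

lemma tp_mp {m : ℕ} (T : Fin m → Equiv.Perm X) (hT : ∀ i, MP2 μ (T i)) (x : Fin m → ℤ) :
    MP2 μ (tp T x) := by
  unfold tp
  have : ∀ L : List (Equiv.Perm X), (∀ g ∈ L, MP2 μ g) → MP2 μ L.prod := by
    intro L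
    induction L with
    | nil => intro _; rw [List.prod_nil]; exact MP2.one
    | cons g L ih =>
      intro h
      rw [List.prod_cons]
      exact (h g List.mem_cons_self).mul (ih fun k hk => h k (List.mem_cons_of_mem _ hk))
  apply this
  intro g hg
  rw [List.mem_ofFn] at hg
  obtain ⟨i, rfl⟩ := hg
  exact (hT i).zpow _

end

/-- integration over the space -/
lemma int_boundM {X : Type} [MeasurableSpace X] (μ : Measure X) [IsProbabilityMeasure μ]
    {m : ℕ} (T : Fin m → Equiv.Perm X) (hT : ∀ i, MP2 μ (T i)) (M J : ℕ) (hM : 1 ≤ M)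
    (O : ℕ → Set X) (hO : ∀ j, MeasurableSet (O j)) (B : ℝ)
    (hB : ∀ z, ∑ x ∈ box m M, ∑ j ∈ range J, ind (tp T x z ∈ O j) ≤ B * (M : ℝ) ^ m) :
    ∑ j ∈ range J, μ.real (O j) ≤ B := by
  have hind : ∀ (x : Fin m → ℤ) (j : ℕ),
      (fun z => ind (tp T x z ∈ O j)) = ((tp T x : Equiv.Perm X) ⁻¹' (O j)).indicator (fun _ => (1 : ℝ)) := by
    intro x j
    funext z
    by_cases hx : tp T x z ∈ O j
    · rw [ind_of hx, Set.indicator_of_mem]
      exact hx
    · rw [ind_not hx, Set.indicator_of_notMem]
      exact hx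
  have hmeas : ∀ (x : Fin m → ℤ) (j : ℕ), MeasurableSet ((tp T x : Equiv.Perm X) ⁻¹' (O j)) := fun x j =>
    (tp_mp T hT x).1.measurable (hO j)
  have hint : ∀ (x : Fin m → ℤ) (j : ℕ), Integrable (fun z => ind (tp T x z ∈ O j)) μ := by
    intro x j
    rw [hind]
    exact (integrable_const (1 : ℝ)).indicator (hmeas x j)
  have hval : ∀ (x : Fin m → ℤ) (j : ℕ), ∫ z, ind (tp T x z ∈ O j) ∂μ = μ.real (O j) := by
    intro x j
    rw [hind, integral_indicator (hmeas x j)]
    simp only [integral_const, smul_eq_mul, mul_one, measureReal_restrict_apply_univ]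
    exact (tp_mp T hT x).1.measureReal_preimage (hO j).nullMeasurableSet
  have h1 : ∫ z, (∑ x ∈ box m M, ∑ j ∈ range J, ind (tp T x z ∈ O j)) ∂μ =
      (M : ℝ) ^ m * ∑ j ∈ range J, μ.real (O j) := by
    rw [integral_finsetSum _ fun x _ => integrable_finsetSum _ fun j _ => hint x j]
    have h2 : ∀ x ∈ box m M, ∫ z, (∑ j ∈ range J, ind (tp T x z ∈ O j)) ∂μ =
        ∑ j ∈ range J, μ.real (O j) := by
      intro x _
      rw [integral_finsetSum _ fun j _ => hint x j]
      exact Finset.sum_congr rfl fun j _ => hval x j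
    rw [Finset.sum_congr rfl h2, Finset.sum_const, box_card, nsmul_eq_mul]
    push_cast
    ring
  have h4 : ∫ z, (∑ x ∈ box m M, ∑ j ∈ range J, ind (tp T x z ∈ O j)) ∂μ ≤
      ∫ _z, B * (M : ℝ) ^ m ∂μ := by
    refine integral_mono ?_ (integrable_const _) hB
    exact integrable_finsetSum _ fun x _ => integrable_finsetSum _ fun j _ => hint x j
  rw [h1] at h4
  rw [integral_const, probReal_univ, one_smul, mul_comm B] at h4
  have hM' : (0 : ℝ) < (M : ℝ) ^ m := by
    have : (0 : ℝ) < M := by exact_mod_cast hM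
    positivity
  exact le_of_mul_le_mul_left h4 hM'

lemma abs_prod_le_one {m : ℕ} (a : Fin m → ℝ) (h : ∀ i, |a i| ≤ 1) : |∏ i, a i| ≤ 1 := by
  rw [Finset.abs_prod]
  exact Finset.prod_le_one (fun i _ => abs_nonneg _) fun i _ => h i

/-- TRANSFERENCE -/
theorem corePW_of_finTh (m : ℕ) (hfin : FinTh m) : CorePW m := by
  intro X _ μ _ T hTs hT hTT f hf hf1
  have hMP : ∀ i, MP2 μ (T i) := fun i => MP2.of (hTs i) (hT i)
  refine ae_tendsto_of_WOB μ (fun x n => ∏ i, f i ((T i ^ n) x)) ?_ ?_
  · intro x n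
    exact abs_prod_le_one _ fun i => hf1 i _
  intro c hc
  obtain ⟨R, hR1, hR⟩ := hfin c hc
  refine ⟨R, hR1, fun δ hδ => ?_⟩
  obtain ⟨J, hJ1, hJ⟩ := hR δ hδ
  refine ⟨J, hJ1, fun N hN p hp hp0 => ?_⟩
  obtain ⟨M, hM1, hM⟩ := hJ N hN p hp hp0
  have hmeas : ∀ k, Measurable (fun x => av (fun n => ∏ i, f i ((T i ^ n) x)) (N k)) := by
    intro k
    refine measurable_av (φ := fun x n => ∏ i, f i ((T i ^ n) x)) (fun n => ?_) (N k)
    exact Finset.measurable_prod _ fun i _ => (hf i).comp ((hMP i).zpow n).1.measurable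
  refine int_boundM μ T hMP M J hM1 (fun j => oscSet
    (fun k x => av (fun n => ∏ i, f i ((T i ^ n) x)) (N k)) c (p j) (p (j + 1)))
    (fun j => measurableSet_oscSet hmeas c _ _) _ ?_
  intro z
  have h1 := hM (fun i y => f i (tp T y z)) (fun i y => hf1 i _)
  refine le_trans (le_of_eq ?_) h1
  refine Finset.sum_congr rfl fun x _ => Finset.sum_congr rfl fun j _ => ?_
  congr 1
  rw [mem_oscSet]
  have h2 : ∀ k, av (fun n => ∏ i, f i ((T i ^ n) (tp T x z))) (N k) =
      zav (fun i y => f i (tp T y z)) x (N k) := by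
    intro k
    unfold zav
    congr 1
    funext n
    refine Finset.prod_congr rfl fun i _ => ?_
    show f i ((T i ^ n) ((tp T x) z)) = f i ((tp T (Function.update x i (x i + n))) z)
    rw [tp_update T hTT]
    rfl
  simp only [h2]

end Pool.PWM
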