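/-
PWM (MP_4d8f14_an), transfer part, module TrFinal (helper53).
From the core theorem (real bounded functions, `m` commuting maps) to the final statement in the
shape of the frozen statement S04625 (`m` functions, commuting `T_1, …, T_d`, `P_ij` linear).
-/
import Mathlib
import Pool.Agent.PWM.TrInt

set_option autoImplicit false

open MeasureTheory Filter Topology Pool.PWZ
open scoped ENNReal

namespace Pool.PWM

/-- the final statement for `m` functions and commuting maps, linear polynomials -/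
def FinalM (m : ℕ) : Prop :=
  ∀ (X : Type) [MeasurableSpace X] (μ : Measure X) [IsProbabilityMeasure μ]
    (d : ℕ) (T : Fin d → Equiv.Perm X),
    (∀ i, Measurable ⇑(T i).symm) →
    (∀ i, MeasurePreserving (⇑(T i)) μ μ) →
    (∀ i j, Commute (T i) (T j)) →
    ∀ (P : Fin d → Fin m → Polynomial ℤ), (∀ i j, (P i j).eval 0 = 0) →
    (∀ i j, (P i j).natDegree ≤ 1) →
    ∀ (f : Fin m → X → ℂ), (∀ j, MemLp (f j) ∞ μ) →
    ∀ᵐ x ∂μ, ∃ L : ℂ, Filter.Tendsto
      (fun N : ℕ => ((2 * N + 1 : ℕ) : ℂ)⁻¹ *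
        ∑ n ∈ Finset.Icc (-(N : ℤ)) (N : ℤ),
          ∏ j : Fin m, f j ((List.ofFn fun i : Fin d => T i ^ (P i j).eval n).prod x))
      Filter.atTop (nhds L)

lemma tp_zpow {G : Type} [Group G] : ∀ (d : ℕ) (T : Fin d → G),
    (∀ i j, Commute (T i) (T j)) → ∀ (a : Fin d → ℤ) (n : ℤ),
    (List.ofFn fun i => T i ^ (a i * n)).prod = (List.ofFn fun i => T i ^ a i).prod ^ n := by
  intro d
  induction d with
  | zero => intro T _ a n; simp
  | succ d ih =>
    intro T hT a n
    rw [List.ofFn_succ, List.prod_cons, List.ofFn_succ, List.prod_cons,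
      ih (fun i => T i.succ) (fun i j => hT _ _) (fun i => a i.succ) n, zpow_mul]
    refine (Commute.mul_zpow ?_ n).symm
    refine Commute.list_prod_right _ _ ?_
    intro x hx
    rw [List.mem_ofFn] at hx
    obtain ⟨i, rfl⟩ := hx
    exact ((hT _ _).zpow_left _).zpow_right _

lemma clamp_eq' {r M : ℝ} (hM : 0 < M) (h : |r| ≤ M) :
    M * max (-1) (min 1 (r / M)) = r := by
  obtain ⟨h1, h2⟩ := abs_le.1 h
  have h3 : r / M ≤ 1 := (div_le_one hM).2 h2
  have h4 : -1 ≤ r / M := by rw [le_div_iff₀ hM]; linarith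
  rw [min_eq_right h3, max_eq_right h4]
  field_simp

lemma clamp_abs' (r : ℝ) : |max (-1) (min 1 r)| ≤ 1 := by
  rw [abs_le]
  exact ⟨le_max_left _ _, max_le (by norm_num) (min_le_left _ _)⟩

theorem finalM_of_corePW (m : ℕ) (core : CorePW m) : FinalM m := by
  intro X _ μ _ d T hTs hT hc P hP0 hP1 f hf
  -- the linear polynomials
  have heval : ∀ i j (n : ℤ), (P i j).eval n = (P i j).coeff 1 * n := by
    intro i j n
    have h := Polynomial.eq_X_add_C_of_natDegree_le_one (hP1 i j)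
    have h0 : (P i j).coeff 0 = 0 := by
      rw [Polynomial.coeff_zero_eq_eval_zero]; exact hP0 i j
    conv_lhs => rw [h]
    simp [h0]
  -- the commuting maps
  obtain ⟨U, hUdef⟩ : ∃ U : Fin m → Equiv.Perm X,
      ∀ j, U j = (List.ofFn fun i => T i ^ (P i j).coeff 1).prod := ⟨_, fun j => rfl⟩
  have hprod : ∀ j (n : ℤ), (List.ofFn fun i : Fin d => T i ^ (P i j).eval n).prod = U j ^ n := by
    intro j n
    rw [hUdef, ← tp_zpow d T hc (fun i => (P i j).coeff 1) n]
    simp only [heval]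
  have hU : ∀ j, MP2 μ (U j) := by
    intro j
    rw [hUdef]
    exact tp_mp T (fun i => MP2.of (hTs i) (hT i)) (fun i => (P i j).coeff 1)
  have hcomm : ∀ j j', Commute (U j) (U j') := by
    intro j j'
    rw [hUdef, hUdef]
    refine tp_commute T (fun i => (P i j').coeff 1) _ fun i => ?_
    exact (tp_commute T (fun i => (P i j).coeff 1) (T i) fun i' => hc _ _).symm
  -- bounded representatives
  have hrep : ∀ j, ∃ (f' : X → ℂ) (M : ℝ), Measurable f' ∧ 0 < M ∧
      ∀ᵐ x ∂μ, f j x = f' x ∧ ‖f j x‖ ≤ M := by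
    intro j
    refine ⟨(hf j).1.mk (f j), (eLpNorm (f j) ∞ μ).toReal + 1,
      (hf j).1.stronglyMeasurable_mk.measurable, by positivity, ?_⟩
    have h1 := (hf j).1.ae_eq_mk
    have h2 : ∀ᵐ x ∂μ, ‖f j x‖ₑ ≤ eLpNorm (f j) ∞ μ := by
      rw [eLpNorm_exponent_top]
      exact ae_le_eLpNormEssSup
    filter_upwards [h1, h2] with x hx1 hx2
    refine ⟨hx1, ?_⟩
    have h3 : (‖f j x‖ₑ).toReal ≤ (eLpNorm (f j) ∞ μ).toReal :=
      ENNReal.toReal_mono (hf j).2.ne hx2
    rw [toReal_enorm] at h3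
    linarith
  choose f' M hf'm hM hae using hrep
  let w : Fin m → Fin 2 → X → ℝ := fun j e x =>
    max (-1) (min 1 ((if e = 0 then (f' j x).re else (f' j x).im) / M j))
  have hwm : ∀ j e, Measurable (w j e) := by
    intro j e
    refine measurable_const.max (measurable_const.min (Measurable.div_const ?_ _))
    by_cases he : e = 0
    · simp only [he, if_true]; exact Complex.measurable_re.comp (hf'm j)
    · simp only [he, if_false]; exact Complex.measurable_im.comp (hf'm j)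
  have hw1 : ∀ j e x, |w j e x| ≤ 1 := fun j e x => clamp_abs' _
  let κ : Fin 2 → ℂ := fun e => if e = 0 then 1 else Complex.I
  have hval : ∀ j, ∀ᵐ x ∂μ, f j x = ∑ e : Fin 2, (M j : ℂ) * κ e * (w j e x : ℂ) := by
    intro j
    filter_upwards [hae j] with x hx
    obtain ⟨hx1, hx2⟩ := hx
    rw [hx1] at hx2 ⊢
    have e1 : M j * w j 0 x = (f' j x).re := by
      have := clamp_eq' (hM j) ((Complex.abs_re_le_norm _).trans hx2)
      simpa [w] using this
    have e2 : M j * w j 1 x = (f' j x).im := by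
      have := clamp_eq' (hM j) ((Complex.abs_im_le_norm _).trans hx2)
      simpa [w] using this
    rw [Fin.sum_univ_two]
    have e3 : (M j : ℂ) * κ 0 * (w j 0 x : ℂ) + (M j : ℂ) * κ 1 * (w j 1 x : ℂ) =
        ((M j * w j 0 x : ℝ) : ℂ) + ((M j * w j 1 x : ℝ) : ℂ) * Complex.I := by
      have k0 : κ 0 = 1 := rfl
      have k1 : κ 1 = Complex.I := rfl
      rw [k0, k1]
      push_cast; ring
    rw [e3, e1, e2, Complex.re_add_im]
  have hall : ∀ᵐ x ∂μ, ∀ j, ∀ n : ℤ, f j ((U j ^ n) x) =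
      ∑ e : Fin 2, (M j : ℂ) * κ e * (w j e ((U j ^ n) x) : ℂ) := by
    rw [ae_all_iff]
    intro j
    rw [ae_all_iff]
    intro n
    exact ((hU j).zpow n).1.quasiMeasurePreserving.ae (hval j)
  have hcore : ∀ᵐ x ∂μ, ∀ ε : Fin m → Fin 2, ∃ L : ℝ,
      Tendsto (fun N : ℕ => av (fun n => ∏ i, w i (ε i) ((U i ^ n) x)) N) atTop (𝓝 L) := by
    rw [ae_all_iff]
    intro ε
    exact core X μ U (fun i => (hU i).2.measurable) (fun i => (hU i).1) hcomm
      (fun i => w i (ε i)) (fun i => hwm _ _) (fun i => hw1 _ _)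
  filter_upwards [hall, hcore] with x hx hL
  choose L hL using hL
  refine ⟨∑ ε : Fin m → Fin 2, (∏ j, (M j : ℂ) * κ (ε j)) * (L ε : ℂ), ?_⟩
  have k : Tendsto (fun N : ℕ => ∑ ε : Fin m → Fin 2, (∏ j, (M j : ℂ) * κ (ε j)) *
      ((av (fun n => ∏ i, w i (ε i) ((U i ^ n) x)) N : ℝ) : ℂ)) atTop
      (𝓝 (∑ ε : Fin m → Fin 2, (∏ j, (M j : ℂ) * κ (ε j)) * (L ε : ℂ))) := by
    refine tendsto_finsetSum _ fun ε _ => ?_
    exact ((Complex.continuous_ofReal.tendsto (L ε)).comp (hL ε)).const_mul _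
  refine k.congr ?_
  intro N
  simp only [hprod]
  have e : ∀ n : ℤ, ∏ j : Fin m, f j ((U j ^ n) x) = ∑ ε : Fin m → Fin 2,
      (∏ j, (M j : ℂ) * κ (ε j)) * ((∏ j, w j (ε j) ((U j ^ n) x) : ℝ) : ℂ) := by
    intro n
    rw [Finset.prod_congr rfl fun j _ => hx j n, Finset.prod_univ_sum, Fintype.piFinset_univ]
    refine Finset.sum_congr rfl fun ε _ => ?_
    rw [Finset.prod_mul_distrib, Complex.ofReal_prod]
  rw [Finset.sum_congr rfl fun n _ => e n, Finset.sum_comm, Finset.mul_sum]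
  refine Finset.sum_congr rfl fun ε _ => ?_
  unfold av
  rw [← Finset.mul_sum]
  push_cast
  ring

/-- the finite theorem implies the final statement -/
theorem finalM_of_finTh (m : ℕ) (h : FinTh m) : FinalM m :=
  finalM_of_corePW m (corePW_of_finTh m h)

end Pool.PWM
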