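/-
PWM (MP_4d8f14_an), transfer part, module TrGood (helper53).
GOOD LEVELS: if for every base point and every two levels both levels are good with probability at
least `p0` (over an additional randomness), then it is enough to count oscillations between good
levels, for any approximants which are close to the sharp averages at good levels.
-/
import Mathlib
import Pool.Agent.PWM.TrTor

set_option autoImplicit false

open Finset Pool.Agent.PWZ Pool.PWZ

namespace Pool.PWM

/-- oscillation between good levels -/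
def OscG (a : ℕ → ℝ) (good : ℕ → Prop) (c : ℝ) (p q : ℕ) : Prop :=
  ∃ k k', p ≤ k ∧ k < k' ∧ k' < q ∧ good k ∧ good k' ∧ c ≤ |a k - a k'|

theorem good_levels {Y Ω : Type*} [Fintype Y] [Fintype Ω] [DecidableEq Y] (w : Ω → ℝ)
    (hw : ∀ ω, 0 ≤ w ω) (X : Ω → Y) (A : ℕ → Y → ℝ) (T : ℕ → Ω → ℝ) (good : ℕ → Ω → Prop)
    (c e p0 u B : ℝ) (hc : 0 < c) (hp0 : 0 < p0) (hu : 0 < u) (J : ℕ) (p : ℕ → ℕ)
    (hgood : ∀ y : Y, ∀ j < J, ∀ k k', p j ≤ k → k < k' → k' < p (j + 1) →
      p0 * u ≤ ∑ ω, w ω * ind (X ω = y ∧ good k ω ∧ good k' ω))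
    (hT : ∀ ω, ∀ j < J, ∀ k, p j ≤ k → k < p (j + 1) → good k ω → |T k ω - A k (X ω)| ≤ e)
    (hB : ∑ ω, w ω * ∑ j ∈ range J,
      ind (OscG (fun k => T k ω) (fun k => good k ω) (c - 2 * e) (p j) (p (j + 1))) ≤ p0 * u * B) :
    ∑ y, ∑ j ∈ range J, ind (OscP (fun k => A k y) c (p j) (p (j + 1))) ≤ B := by
  have hkey : ∀ y, ∀ j ∈ range J, p0 * u * ind (OscP (fun k => A k y) c (p j) (p (j + 1))) ≤
      ∑ ω, w ω * (ind (X ω = y) *
        ind (OscG (fun k => T k ω) (fun k => good k ω) (c - 2 * e) (p j) (p (j + 1)))) := by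
    intro y j hj
    rw [Finset.mem_range] at hj
    by_cases hosc : OscP (fun k => A k y) c (p j) (p (j + 1))
    · obtain ⟨k, k', hk1, hk2, hk3, hk4⟩ := hosc.exists_lt hc
      rw [ind_of hosc, mul_one]
      refine (hgood y j hj k k' hk1 hk2 hk3).trans ?_
      refine Finset.sum_le_sum fun ω _ => mul_le_mul_of_nonneg_left ?_ (hw ω)
      rw [← ind_and]
      apply ind_mono
      rintro ⟨h1, h2, h3⟩
      refine ⟨h1, k, k', hk1, hk2, hk3, h2, h3, ?_⟩
      have e1 := hT ω j hj k hk1 (hk2.trans hk3) h2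
      have e2 := hT ω j hj k' (hk1.trans hk2.le) hk3 h3
      rw [h1] at e1 e2
      rw [abs_le] at e1 e2
      rcases le_abs.mp hk4 with h5 | h5
      · refine le_trans ?_ (le_abs_self _)
        linarith [e1.1, e1.2, e2.1, e2.2]
      · refine le_trans ?_ (neg_le_abs _)
        linarith [e1.1, e1.2, e2.1, e2.2]
    · rw [ind_not hosc, mul_zero]
      exact Finset.sum_nonneg fun ω _ => mul_nonneg (hw ω) (mul_nonneg (ind_nonneg _) (ind_nonneg _))
  have h1 : p0 * u * ∑ y, ∑ j ∈ range J, ind (OscP (fun k => A k y) c (p j) (p (j + 1))) ≤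
      ∑ y, ∑ j ∈ range J, ∑ ω, w ω * (ind (X ω = y) *
        ind (OscG (fun k => T k ω) (fun k => good k ω) (c - 2 * e) (p j) (p (j + 1)))) := by
    rw [Finset.mul_sum]
    refine Finset.sum_le_sum fun y _ => ?_
    rw [Finset.mul_sum]
    exact Finset.sum_le_sum fun j hj => hkey y j hj
  have h2 : ∑ y, ∑ j ∈ range J, ∑ ω, w ω * (ind (X ω = y) *
        ind (OscG (fun k => T k ω) (fun k => good k ω) (c - 2 * e) (p j) (p (j + 1)))) =
      ∑ ω, w ω * ∑ j ∈ range J,
        ind (OscG (fun k => T k ω) (fun k => good k ω) (c - 2 * e) (p j) (p (j + 1))) := by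
    rw [Finset.sum_congr rfl fun y _ => Finset.sum_comm, Finset.sum_comm]
    refine Finset.sum_congr rfl fun ω _ => ?_
    rw [Finset.sum_comm, Finset.mul_sum]
    refine Finset.sum_congr rfl fun j _ => ?_
    rw [Finset.sum_eq_single (X ω)]
    · rw [ind_of rfl, one_mul]
    · intro y _ hy
      rw [ind_not fun h => hy h.symm, zero_mul, mul_zero]
    · intro h; exact absurd (Finset.mem_univ _) h
  rw [h2] at h1
  have h3 := h1.trans hB
  exact le_of_mul_le_mul_left h3 (mul_pos hp0 hu)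

end Pool.PWM
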