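/-
PWM (MP_4d8f14_an), transfer part, module TrNoise (helper53).
The NOISE form of the finite theorem (path `y_t = ∑ x_i + noise`, as in PWZ, with an exceptional
set of small probability) implies the finite theorem with faces on the torus.
-/
import Mathlib
import Pool.Agent.PWM.TrTor

set_option autoImplicit false

open Finset Pool.Agent.PWZ Pool.PWZ

namespace Pool.PWM

section
variable {V : Type} [AddCommGroup V] [Fintype V] [DecidableEq V]

/-- expectation of a function of `(x, [y_t, ..., y_0])`, `m` vertices: `y_t = ∑ x_i + noise` -/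
noncomputable def EEm (m : ℕ) (C : Chain V) (t : ℕ) (q : (Fin m → V) → List V → ℝ) : ℝ :=
  EP C t (fun l => ((Fintype.card V : ℝ) ^ (m - 1))⁻¹ *
    ∑ x : Fin m → V, C.rho t (l.headD 0 - ∑ i, x i) * q x l)

/-- the average of the product of the `F i x` seen from the path `l` -/
noncomputable def XXm {m : ℕ} (C : Chain V) (F : Fin m → (Fin m → V) → V → ℝ) (l : List V)
    (x : Fin m → V) : ℝ :=
  ∑ d, C.rho (l.length - 1) (l.headD 0 - d) * ∏ i, F i x d

theorem XXm_eq {m : ℕ} (C : Chain V) (F : Fin m → (Fin m → V) → V → ℝ) (l : List V)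
    (x : Fin m → V) (a b : V) :
    XXm C F l x = XX C (fun _ d => ∏ i, F i x d) (fun _ _ => 1) l a b := by
  unfold XXm XX ip
  exact Finset.sum_congr rfl fun d _ => by ring

theorem EEm_tail (m : ℕ) (C : Chain V) (t : ℕ) (q : (Fin m → V) → List V → ℝ) :
    EEm m C (t + 1) (fun x l => q x l.tail) = EEm m C t q := by
  unfold EEm
  rw [EP]
  congr 1
  funext l
  simp only [List.headD_cons, List.tail_cons]
  have h1 : ∀ s : V, C.mu t s * (((Fintype.card V : ℝ) ^ (m - 1))⁻¹ *
      ∑ x : Fin m → V, C.rho (t + 1) (l.headD 0 - s - ∑ i, x i) * q x l) =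
      ((Fintype.card V : ℝ) ^ (m - 1))⁻¹ *
      ∑ x : Fin m → V, C.mu t s * C.rho (t + 1) (l.headD 0 - ∑ i, x i - s) * q x l := by
    intro s
    rw [mul_left_comm, Finset.mul_sum]
    congr 1
    apply Finset.sum_congr rfl
    intro x _
    rw [show l.headD 0 - s - ∑ i, x i = l.headD 0 - ∑ i, x i - s by abel]
    ring
  rw [Finset.sum_congr rfl fun s _ => h1 s, ← Finset.mul_sum, Finset.sum_comm]
  congr 1
  apply Finset.sum_congr rfl
  intro x _
  rw [rho_step' C t, Finset.sum_mul]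

theorem EEm_up_to (m : ℕ) (C : Chain V) (t d : ℕ) (q : (Fin m → V) → List V → ℝ) :
    EEm m C (t + d) (fun x l => q x (l.drop d)) = EEm m C t q := by
  induction d with
  | zero => rfl
  | succ d ih =>
    rw [← ih, ← EEm_tail m C (t + d)]
    have : (fun (x : Fin m → V) (l : List V) => q x (l.drop (d + 1))) =
        (fun (x : Fin m → V) (l : List V) => q x (l.tail.drop d)) := by
      funext x l
      cases l <;> simp
    rw [this]
    rfl

/-- at a time with no noise -/
theorem EEm_top (m : ℕ) (hm : 1 ≤ m) (C : Chain V) (T : ℕ)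
    (hT : ∀ z, C.rho T z = if z = 0 then 1 else 0) (q : (Fin m → V) → List V → ℝ) :
    ((Fintype.card V : ℝ)) ^ m * EEm m C T q = ∑ x : Fin m → V, up C T (∑ i, x i) (q x) := by
  have hV : (0 : ℝ) < (Fintype.card V : ℝ) := by
    have : 0 < Fintype.card V := Fintype.card_pos_iff.mpr ⟨0⟩
    exact_mod_cast this
  unfold EEm
  rw [EP_eq_up]
  have h2 : ∀ y, up C T y (fun l => ((Fintype.card V : ℝ) ^ (m - 1))⁻¹ * ∑ x : Fin m → V,
      C.rho T (l.headD 0 - ∑ i, x i) * q x l) =
      ((Fintype.card V : ℝ) ^ (m - 1))⁻¹ *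
        ∑ x : Fin m → V, C.rho T (y - ∑ i, x i) * up C T y (q x) := by
    intro y
    rw [up_congr C T y _ (fun l => ((Fintype.card V : ℝ) ^ (m - 1))⁻¹ * ∑ x : Fin m → V,
      C.rho T (y - ∑ i, x i) * q x l) (fun l hl _ => by rw [hl])]
    rw [up_smul, up_sum]
    congr 1
    exact Finset.sum_congr rfl fun x _ => up_smul C T y _ _
  rw [Finset.sum_congr rfl fun y _ => h2 y, ← Finset.mul_sum, ← mul_assoc, ← mul_assoc]
  have h3 : (Fintype.card V : ℝ) ^ m * (Fintype.card V : ℝ)⁻¹ *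
      ((Fintype.card V : ℝ) ^ (m - 1))⁻¹ = 1 := by
    obtain ⟨k, rfl⟩ : ∃ k, m = k + 1 := ⟨m - 1, by omega⟩
    rw [Nat.add_sub_cancel, pow_succ]
    field_simp
  rw [h3, one_mul, Finset.sum_comm]
  refine Finset.sum_congr rfl fun x _ => ?_
  rw [Finset.sum_eq_single (∑ i, x i)]
  · rw [hT, if_pos (by abel), one_mul]
  · intro y _ hy
    rw [hT, if_neg, zero_mul]
    intro h
    exact hy (sub_eq_zero.mp h)
  · intro h; exact absurd (Finset.mem_univ _) h

theorem up_mono' (C : Chain V) (t : ℕ) (y : V)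
    (f g : List V → ℝ) (h : ∀ l, f l ≤ g l) : up C t y f ≤ up C t y g := by
  have h1 := up_nonneg C t y (fun l => g l + (-1) * f l) (fun l => by linarith [h l])
  have h2 : up C t y (fun l => g l + (-1) * f l) = up C t y g + (-1) * up C t y f := by
    have h3 := up_sum C t y (univ : Finset Bool)
      (fun b l => if b then g l else (-1) * f l)
    simp only [Fintype.sum_bool, if_true, Bool.false_eq_true, if_false] at h3
    have h4 := up_smul C t y (-1) f
    rw [h4] at h3
    exact h3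
  linarith

end

/-- THE FINITE THEOREM IN THE NOISE MODEL, with an exceptional set of small probability -/
def NoiseTh (m : ℕ) : Prop :=
  ∀ c0 Lam δ : ℝ, 0 < c0 → 1 ≤ Lam → 0 < δ → ∃ K : ℝ,
    ∀ (V : Type) [AddCommGroup V] [Fintype V] [DecidableEq V] (C : Chain V) (n : ℕ),
      C.DB n Lam → ∀ F : Fin m → (Fin m → V) → V → ℝ, Face F → (∀ i x d, |F i x d| ≤ 1) →
      ∃ mark exc : (Fin m → V) → List V → Prop,
        ∑ t ∈ range n, EEm m C (t + 1) (fun x l => ind (mark x l)) ≤ K ∧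
        EEm m C n (fun x l => ind (exc x l)) ≤ δ ∧
        ∀ x (l : List V), l.length = n + 1 → ¬ exc x l → ∀ i i', i ≤ i' → i' < l.length →
          (∀ j, i ≤ j → j < i' → ¬ mark x (l.drop j)) →
          |XXm C F (l.drop i) x - XXm C F (l.drop i') x| ≤ c0

/-- if the sharp averages differ, then with probability at least `(1/(2d))^2` the smoothed averages
along the path differ -/
theorem pair_lower (N : ℕ → ℕ) (T M : ℕ) [NeZero M] (h : ∀ k < T, 2 * N k + 1 ≤ M) (R d : ℕ)
    (hR : 1 ≤ R) (hd : 1 ≤ d) (hN : ∀ k, 0 < N k) (hlow : ∀ k, 2 ^ R * N k ≤ N (k + 1))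
    (φ : ℤ → ℝ) (hφ : ∀ n, |φ n| ≤ 1) (F G : ZMod M → ZMod M → ℝ) (a b : ZMod M)
    (hFG : ∀ w : ℤ, |w| ≤ 2 * ∑ i ∈ range T, (N i : ℤ) →
      F b (a + b + (w : ZMod M)) * G a (a + b + (w : ZMod M)) = φ w)
    (c0 c : ℝ) (hc : c0 + 2 * (1 / d + 4 / 2 ^ R) < c)
    (k k' : ℕ) (hkk : k < k') (hk' : k' < T)
    (hosc : c ≤ |av φ (N k) - av φ (N k')|) (q : List (ZMod M) → ℝ) (hq0 : ∀ l, 0 ≤ q l)
    (hq : ∀ l : List (ZMod M), l.length = T + 1 →
      c0 < |XX (zch N T M h) F G (l.drop (k + 1)) a b -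
        XX (zch N T M h) F G (l.drop (k' + 1)) a b| → 1 ≤ q l) :
    (1 / (2 * (d : ℝ))) ^ 2 ≤ up (zch N T M h) T (a + b) q := by
  have ht1 : T - 1 - k < T := by omega
  have ht2 : T - 1 - k' < T := by omega
  refine (zS_prod N T M d (T - 1 - k) (T - 1 - k') h hd ht1 ht2 (by omega)).trans ?_
  refine up_lower (zch N T M h) (zS N T M d (T - 1 - k) (T - 1 - k'))
    (fun t => zS_sub N T M d _ _ ht1 ht2 t) T (a + b) _ hq0 ?_
  intro l hl
  have e1 := XX_close N T M h R d hR hd hN hlow φ hφ F G a b hFG (T - 1 - k) (T - 1 - k')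
    (T - 1 - k) ht1 (Or.inl rfl) l hl
  have e2 := XX_close N T M h R d hR hd hN hlow φ hφ F G a b hFG (T - 1 - k) (T - 1 - k')
    (T - 1 - k') ht2 (Or.inr rfl) l hl
  rw [show T - 1 - (T - 1 - k) = k by omega, show T - (T - 1 - k) = k + 1 by omega] at e1
  rw [show T - 1 - (T - 1 - k') = k' by omega, show T - (T - 1 - k') = k' + 1 by omega] at e2
  obtain ⟨hlen, -⟩ := IsP_pos (zS N T M d (T - 1 - k) (T - 1 - k'))
    (zB N T d (T - 1 - k) (T - 1 - k'))
    (fun t s hs => zS_bound N T M d _ _ t s hs) T (a + b) l hl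
  refine hq l hlen ?_
  rw [abs_le] at e1 e2
  rcases le_abs.mp hosc with h2 | h2
  · refine lt_of_lt_of_le ?_ (le_abs_self _)
    linarith [e1.1, e1.2, e2.1, e2.2]
  · refine lt_of_lt_of_le ?_ (neg_le_abs _)
    linarith [e1.1, e1.2, e2.1, e2.2]

/-- one base point -/
theorem point_boundM {m : ℕ} (N : ℕ → ℕ) (T M : ℕ) [NeZero M] (h : ∀ k < T, 2 * N k + 1 ≤ M)
    (R d : ℕ) (hR : 1 ≤ R) (hd : 1 ≤ d) (hN : ∀ k, 0 < N k)
    (hlow : ∀ k, 2 ^ R * N k ≤ N (k + 1)) (F : Fin m → (Fin m → ZMod M) → ZMod M → ℝ)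
    (hF : ∀ i x d, |F i x d| ≤ 1) (x : Fin m → ZMod M) (mark exc : List (ZMod M) → Prop)
    (c0 c : ℝ) (hcpos : 0 < c)
    (hmark : ∀ (l : List (ZMod M)), l.length = (T - 2) + 1 → ¬ exc l → ∀ i i', i ≤ i' →
      i' < l.length → (∀ j, i ≤ j → j < i' → ¬ mark (l.drop j)) →
      |XXm (zch N T M h) F (l.drop i) x - XXm (zch N T M h) F (l.drop i') x| ≤ c0)
    (hc : c0 + 2 * (1 / d + 4 / 2 ^ R) < c)
    (J : ℕ) (p : ℕ → ℕ) (hp : StrictMono p) (hp0 : 1 ≤ p 0) (hT : p J = T) (hT2 : 2 ≤ T) :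
    (1 / (2 * (d : ℝ))) ^ 2 *
        ∑ j ∈ range J, ind (OscP (fun k => fav F x (N k)) c (p j) (p (j + 1))) ≤
      up (zch N T M h) T (∑ i, x i)
        (fun l => ∑ t ∈ range (T - 2), ind (mark (l.drop (T - (t + 1)))) +
          J * ind (exc (l.drop 2))) := by
  set φ : ℤ → ℝ := fun n => ∏ i, F i x (∑ j, x j + (n : ZMod M)) with hφ
  have hφ1 : ∀ n, |φ n| ≤ 1 := by
    intro n
    rw [hφ, Finset.abs_prod]
    exact Finset.prod_le_one (fun i _ => abs_nonneg _) fun i _ => hF i _ _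
  have hfav : ∀ k, fav F x (N k) = av φ (N k) := fun k => rfl
  rw [Finset.mul_sum]
  have hj : ∀ j ∈ range J, (1 / (2 * (d : ℝ))) ^ 2 *
      ind (OscP (fun k => fav F x (N k)) c (p j) (p (j + 1))) ≤
      up (zch N T M h) T (∑ i, x i)
        (fun l => ∑ t ∈ Finset.Ico (T - p (j + 1) + 1) (T - p j), ind (mark (l.drop (T - t))) +
          ind (exc (l.drop 2))) := by
    intro j hj
    rw [Finset.mem_range] at hj
    by_cases hosc : OscP (fun k => fav F x (N k)) c (p j) (p (j + 1))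
    · rw [ind_of hosc, mul_one]
      obtain ⟨k, k', hk1, hk2, hk3, hk4⟩ := hosc.exists_lt hcpos
      have hpj : p (j + 1) ≤ p J := hp.monotone hj
      have hp0j : p 0 ≤ p j := hp.monotone (Nat.zero_le j)
      have h5 := pair_lower N T M h R d hR hd hN hlow φ hφ1 (fun _ d => ∏ i, F i x d)
        (fun _ _ => 1) (∑ i, x i) 0 (fun w _ => by simp [hφ]) c0 c hc k k' hk2 (by omega) hk4
        (fun l => ∑ t ∈ Finset.Ico (T - p (j + 1) + 1) (T - p j), ind (mark (l.drop (T - t))) +
          ind (exc (l.drop 2)))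
        (fun l => add_nonneg (Finset.sum_nonneg fun t _ => ind_nonneg _) (ind_nonneg _)) (by
          intro l hl hlt
          by_cases hexc : exc (l.drop 2)
          · rw [ind_of hexc]
            have : 0 ≤ ∑ t ∈ Finset.Ico (T - p (j + 1) + 1) (T - p j),
              ind (mark (l.drop (T - t))) := Finset.sum_nonneg fun t _ => ind_nonneg _
            linarith
          -- there is a mark
          have hex : ∃ t ∈ Finset.Ico (T - p (j + 1) + 1) (T - p j), mark (l.drop (T - t)) := by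
            by_contra hcon
            push Not at hcon
            have h1 := hmark (l.drop 2) (by rw [List.length_drop, hl]; omega) hexc
              (k - 1) (k' - 1) (by omega) (by rw [List.length_drop, hl]; omega) (by
                intro i hi1 hi2
                rw [List.drop_drop]
                have := hcon (T - (2 + i)) (by rw [Finset.mem_Ico]; omega)
                rwa [show T - (T - (2 + i)) = 2 + i by omega] at this)
            rw [List.drop_drop, List.drop_drop, show 2 + (k - 1) = k + 1 by omega,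
              show 2 + (k' - 1) = k' + 1 by omega] at h1
            rw [XXm_eq _ _ _ _ (∑ i, x i) 0, XXm_eq _ _ _ _ (∑ i, x i) 0] at h1
            linarith
          obtain ⟨t, ht, hmt⟩ := hex
          have h7 : (1 : ℝ) ≤ ∑ t ∈ Finset.Ico (T - p (j + 1) + 1) (T - p j),
              ind (mark (l.drop (T - t))) := by
            calc (1 : ℝ) = ind (mark (l.drop (T - t))) := (ind_of hmt).symm
              _ ≤ _ := Finset.single_le_sum (f := fun t => ind (mark (l.drop (T - t))))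
                (fun t _ => ind_nonneg _) ht
          linarith [ind_nonneg (exc (l.drop 2))])
      rwa [add_zero] at h5
    · rw [ind_not hosc, mul_zero]
      exact up_nonneg _ _ _ _ fun l =>
        add_nonneg (Finset.sum_nonneg fun t _ => ind_nonneg _) (ind_nonneg _)
  refine (Finset.sum_le_sum hj).trans ?_
  rw [← up_sum]
  apply up_mono'
  intro l
  rw [Finset.sum_add_distrib]
  have h8 := blocks_sum T J p hp hp0 hT (fun t => ind (mark (l.drop (T - t))))
    fun t => ind_nonneg _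
  have h9 : ∑ _j ∈ range J, ind (exc (l.drop 2)) = J * ind (exc (l.drop 2)) := by simp
  rw [h9]
  linarith

/-- NOISE FORM implies the finite theorem with faces -/
theorem finFace_of_noise (m : ℕ) (hm : 1 ≤ m) (hfin : NoiseTh m) : FinFace m := by
  intro c hc
  obtain ⟨d, hd⟩ := exists_nat_gt (16 / c)
  have hd0 : 0 < d := by
    have : (0 : ℝ) < d := lt_trans (by positivity) hd
    exact_mod_cast this
  have hd0' : (0 : ℝ) < d := by exact_mod_cast hd0
  obtain ⟨R0, hR0⟩ := exists_nat_gt (64 / c)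
  refine ⟨R0 + 1, by omega, fun δ hδ => ?_⟩
  set R := R0 + 1 with hR
  set D : ℝ := (2 * (d : ℝ)) ^ 2 with hD
  have hDpos : 0 < D := by positivity
  obtain ⟨K, hK⟩ := hfin (c / 4) (1 + 2 ^ (4 * R + 1)) (δ / (2 * D)) (by positivity)
    (by linarith [pow_pos (show (0 : ℝ) < 2 by norm_num) (4 * R + 1)]) (by positivity)
  obtain ⟨J, hJ⟩ := exists_nat_gt (2 * D * |K| / δ)
  refine ⟨J + 1, by omega, ?_⟩
  intro N hN p hp hp0 M0
  obtain ⟨hN0, hlow, hup⟩ := hN
  have hd1 : 1 / (d : ℝ) < c / 16 := by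
    rw [div_lt_iff₀ hc] at hd
    rw [div_lt_div_iff₀ hd0' (by norm_num)]
    linarith
  have h2R : (R : ℝ) ≤ 2 ^ R := by
    have : R ≤ 2 ^ R := Nat.lt_two_pow_self.le
    exact_mod_cast this
  have hR1 : (R : ℝ) = R0 + 1 := by rw [hR]; push_cast; ring
  have h4R : 4 / (2 : ℝ) ^ R < c / 16 := by
    rw [div_lt_iff₀ hc] at hR0
    rw [div_lt_div_iff₀ (by positivity) (by norm_num)]
    nlinarith
  obtain ⟨L, hL⟩ : ∃ L, p (J + 1) = L := ⟨_, rfl⟩
  have hL2 : 2 ≤ L := by
    have h1 : p 0 < p 1 := hp (by norm_num)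
    have h2 : p 1 ≤ p (J + 1) := hp.monotone (by omega)
    omega
  set M := M0 + 2 * ∑ i ∈ range L, N i + 1 with hM
  have hMz : NeZero M := ⟨by omega⟩
  have h : ∀ k < L, 2 * N k + 1 ≤ M := by
    intro k hk
    have h1 : N k ≤ ∑ i ∈ range L, N i :=
      Finset.single_le_sum (f := N) (fun i _ => Nat.zero_le _) (Finset.mem_range.mpr hk)
    omega
  refine ⟨M, by omega, hMz, ?_⟩
  intro F hF hF1
  have hDB : (zch N L M h).DB (L - 2) (1 + 2 ^ (4 * R + 1)) :=
    zch_DB N L M R h (by omega) hN0 hlow hup hL2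
  obtain ⟨mark, exc, hm1, hm2, hm3⟩ := hK (ZMod M) (zch N L M h) (L - 2) hDB F hF hF1
  have hMpos : (0 : ℝ) < (M : ℝ) := by
    have : 0 < M := by omega
    exact_mod_cast this
  have hpt : ∀ x : Fin m → ZMod M, (1 / (2 * (d : ℝ))) ^ 2 *
      ∑ j ∈ range (J + 1), ind (OscP (fun k => fav F x (N k)) c (p j) (p (j + 1))) ≤
      up (zch N L M h) L (∑ i, x i)
        (fun l => ∑ t ∈ range (L - 2), ind (mark x (l.drop (L - (t + 1)))) +
          ((J + 1 : ℕ) : ℝ) * ind (exc x (l.drop 2))) := fun x =>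
    point_boundM N L M h R d (by omega) hd0 hN0 hlow F hF1 x (mark x) (exc x) (c / 4) c hc
      (fun l hl he i i' hii hi' hno => hm3 x l hl he i i' hii hi' hno) (by linarith) (J + 1) p hp
      hp0 hL hL2
  have hsum := Finset.sum_le_sum fun x (_ : x ∈ (univ : Finset (Fin m → ZMod M))) => hpt x
  rw [← Finset.mul_sum, ← EEm_top m hm (zch N L M h) L (fun z => zch_top N L M h z)] at hsum
  have hE : EEm m (zch N L M h) L
      (fun x l => ∑ t ∈ range (L - 2), ind (mark x (l.drop (L - (t + 1)))) +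
          ((J + 1 : ℕ) : ℝ) * ind (exc x (l.drop 2))) =
      ∑ t ∈ range (L - 2), EEm m (zch N L M h) (t + 1) (fun x l => ind (mark x l)) +
        ((J + 1 : ℕ) : ℝ) * EEm m (zch N L M h) (L - 2) (fun x l => ind (exc x l)) := by
    have hlin : ∀ (A : ℕ) (g : ℕ → (Fin m → ZMod M) → List (ZMod M) → ℝ)
        (g' : (Fin m → ZMod M) → List (ZMod M) → ℝ) (y : ℝ),
        EEm m (zch N L M h) L (fun x l => ∑ t ∈ range A, g t x l + y * g' x l) =
        ∑ t ∈ range A, EEm m (zch N L M h) L (g t) + y * EEm m (zch N L M h) L g' := by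
      intro A g g' y
      have hMm : ((Fintype.card (ZMod M) : ℝ)) ^ m ≠ 0 := by
        rw [ZMod.card]; positivity
      apply mul_left_cancel₀ hMm
      rw [mul_add, Finset.mul_sum, ← mul_assoc, mul_comm _ y, mul_assoc]
      rw [EEm_top m hm (zch N L M h) L (fun z => zch_top N L M h z),
        EEm_top m hm (zch N L M h) L (fun z => zch_top N L M h z),
        Finset.sum_congr rfl fun t _ => EEm_top m hm (zch N L M h) L
          (fun z => zch_top N L M h z) (g t)]
      rw [Finset.sum_comm, Finset.mul_sum, ← Finset.sum_add_distrib]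
      refine Finset.sum_congr rfl fun x _ => ?_
      have h10 := up_sum (zch N L M h) L (∑ i, x i) (univ : Finset Bool)
        (fun b l => if b then ∑ t ∈ range A, g t x l else y * g' x l)
      simp only [Fintype.sum_bool, if_true, Bool.false_eq_true, if_false] at h10
      rw [h10, up_smul, up_sum]
    rw [hlin]
    congr 1
    · refine Finset.sum_congr rfl fun t ht => ?_
      rw [Finset.mem_range] at ht
      have h2 := EEm_up_to m (zch N L M h) (t + 1) (L - (t + 1)) (fun x l => ind (mark x l))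
      rwa [show t + 1 + (L - (t + 1)) = L by omega] at h2
    · congr 1
      have h2 := EEm_up_to m (zch N L M h) (L - 2) 2 (fun x l => ind (exc x l))
      rwa [show L - 2 + 2 = L by omega] at h2
  rw [hE, ZMod.card] at hsum
  have hJ' : 2 * D * |K| ≤ δ * ((J + 1 : ℕ) : ℝ) := by
    rw [div_lt_iff₀ hδ] at hJ
    push_cast
    nlinarith
  have hK' := hm1.trans (le_abs_self K)
  have hMm : (0 : ℝ) < (M : ℝ) ^ m := by positivity
  have hJ0 : (0 : ℝ) ≤ ((J + 1 : ℕ) : ℝ) := by positivity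
  have hfinal : (1 / (2 * (d : ℝ))) ^ 2 * ∑ x : Fin m → ZMod M, ∑ j ∈ range (J + 1),
      ind (OscP (fun k => fav F x (N k)) c (p j) (p (j + 1))) ≤
      (M : ℝ) ^ m * (|K| + ((J + 1 : ℕ) : ℝ) * (δ / (2 * D))) := by
    refine hsum.trans (mul_le_mul_of_nonneg_left ?_ hMm.le)
    exact add_le_add hK' (mul_le_mul_of_nonneg_left hm2 hJ0)
  have hDinv : (1 / (2 * (d : ℝ))) ^ 2 = D⁻¹ := by
    rw [hD]; field_simp
  rw [hDinv, inv_mul_le_iff₀ hDpos] at hfinal
  refine hfinal.trans ?_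
  have h11 : D * ((M : ℝ) ^ m * (|K| + ((J + 1 : ℕ) : ℝ) * (δ / (2 * D)))) =
      (M : ℝ) ^ m * (D * |K| + ((J + 1 : ℕ) : ℝ) * δ / 2) := by
    field_simp
  rw [h11]
  have h12 : D * |K| + ((J + 1 : ℕ) : ℝ) * δ / 2 ≤ δ * ((J + 1 : ℕ) : ℝ) := by linarith
  calc (M : ℝ) ^ m * (D * |K| + ((J + 1 : ℕ) : ℝ) * δ / 2) ≤
      (M : ℝ) ^ m * (δ * ((J + 1 : ℕ) : ℝ)) := mul_le_mul_of_nonneg_left h12 hMm.le
    _ = _ := by ring

end Pool.PWM
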