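/-
PWM (MP_4d8f14_an), transfer part (helper53): the finite theorem (in any of its forms) implies the
final statement.
-/
import Mathlib
import Pool.Agent.PWM.TrFinal
import Pool.Agent.PWM.TrTor
import Pool.Agent.PWM.TrNoise
import Pool.Agent.PWM.TrGood

set_option autoImplicit false

namespace Pool.PWM

theorem final3_of_fin3 (h : Fin3) : FinalM 3 := finalM_of_finTh 3 (finTh_of_fin3 h)

theorem finalM_of_finTor (m : ℕ) (h : FinTor m) : FinalM m :=
  finalM_of_finTh m (finTh_of_finTor m h)

theorem finalM_of_finFace (m : ℕ) (h : FinFace m) : FinalM m :=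
  finalM_of_finTor m (finTor_of_finFace m h)

theorem finalM_of_noise (m : ℕ) (hm : 1 ≤ m) (h : NoiseTh m) : FinalM m :=
  finalM_of_finFace m (finFace_of_noise m hm h)

end Pool.PWM
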