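/-
PWM (MP_4d8f14_an), transfer part (helper11): the finite theorem in the binary model (`BinTh m`,
section 0 of the table m3) implies the final statement.
-/
import Mathlib
import Pool.Agent.PWM.TrFin3
import Pool.Agent.PWM.TrBin

set_option autoImplicit false

namespace Pool.PWM

theorem finalM_of_bin (m : ℕ) (h : BinTh m) : FinalM m :=
  finalM_of_finFace m (finFace_of_bin m h)

end Pool.PWM
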