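/-
PWM (MP_4d8f14_an), transfer part, module NilTr (helper53).
General transference: `γ a`, `a ∈ ℤ^m`, is a family of measure preserving maps, and along the
points `γ a x` the function `φ` is the real part of a factor depending on `a` times a product of
functions of the points `a + n e_i`.
-/
import Mathlib
import Pool.Agent.PWM.TrInt

set_option autoImplicit false

open Finset MeasureTheory Filter Topology Pool.Agent.PWZ Pool.PWZ

namespace Pool.PWM

/-- integration over the space, general family of maps -/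
lemma int_boundG {X : Type} [MeasurableSpace X] (μ : Measure X) [IsProbabilityMeasure μ]
    {m : ℕ} (γ : (Fin m → ℤ) → Equiv.Perm X) (hγ : ∀ a, MP2 μ (γ a)) (M J : ℕ) (hM : 1 ≤ M)
    (O : ℕ → Set X) (hO : ∀ j, MeasurableSet (O j)) (B : ℝ)
    (hB : ∀ z, ∑ x ∈ box m M, ∑ j ∈ range J, ind (γ x z ∈ O j) ≤ B * (M : ℝ) ^ m) :
    ∑ j ∈ range J, μ.real (O j) ≤ B := by
  have hind : ∀ (x : Fin m → ℤ) (j : ℕ),
      (fun z => ind (γ x z ∈ O j)) = ((γ x) ⁻¹' (O j)).indicator (fun _ => (1 : ℝ)) := by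
    intro x j
    funext z
    by_cases hx : γ x z ∈ O j
    · rw [ind_of hx, Set.indicator_of_mem]
      exact hx
    · rw [ind_not hx, Set.indicator_of_notMem]
      exact hx
  have hmeas : ∀ (x : Fin m → ℤ) (j : ℕ), MeasurableSet ((γ x) ⁻¹' (O j)) := fun x j =>
    (hγ x).1.measurable (hO j)
  have hint : ∀ (x : Fin m → ℤ) (j : ℕ), Integrable (fun z => ind (γ x z ∈ O j)) μ := by
    intro x j
    rw [hind]
    exact (integrable_const (1 : ℝ)).indicator (hmeas x j)
  have hval : ∀ (x : Fin m → ℤ) (j : ℕ), ∫ z, ind (γ x z ∈ O j) ∂μ = μ.real (O j) := by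
    intro x j
    rw [hind, integral_indicator (hmeas x j)]
    simp only [integral_const, smul_eq_mul, mul_one, measureReal_restrict_apply_univ]
    exact (hγ x).1.measureReal_preimage (hO j).nullMeasurableSet
  have h1 : ∫ z, (∑ x ∈ box m M, ∑ j ∈ range J, ind (γ x z ∈ O j)) ∂μ =
      (M : ℝ) ^ m * ∑ j ∈ range J, μ.real (O j) := by
    rw [integral_finsetSum _ fun x _ => integrable_finsetSum _ fun j _ => hint x j]
    have h2 : ∀ x ∈ box m M, ∫ z, (∑ j ∈ range J, ind (γ x z ∈ O j)) ∂μ =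
        ∑ j ∈ range J, μ.real (O j) := by
      intro x _
      rw [integral_finsetSum _ fun j _ => hint x j]
      exact Finset.sum_congr rfl fun j _ => hval x j
    rw [Finset.sum_congr rfl h2, Finset.sum_const, box_card, nsmul_eq_mul]
    push_cast
    ring
  have h4 : ∫ z, (∑ x ∈ box m M, ∑ j ∈ range J, ind (γ x z ∈ O j)) ∂μ ≤
      ∫ _z, B * (M : ℝ) ^ m ∂μ := by
    refine integral_mono ?_ (integrable_const _) hB
    exact integrable_finsetSum _ fun x _ => integrable_finsetSum _ fun j _ => hint x j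
  rw [h1] at h4
  rw [integral_const, probReal_univ, one_smul, mul_comm B] at h4
  have hM' : (0 : ℝ) < (M : ℝ) ^ m := by
    have : (0 : ℝ) < M := by exact_mod_cast hM
    positivity
  exact le_of_mul_le_mul_left h4 hM'

/-- the units `1`, `i` -/
noncomputable def kap (e : Fin 2) : ℂ := if e = 0 then 1 else Complex.I

/-- real and imaginary part -/
noncomputable def prt (e : Fin 2) (z : ℂ) : ℝ := if e = 0 then z.re else z.im

lemma abs_prt_le (e : Fin 2) {z : ℂ} (hz : ‖z‖ ≤ 1) : |prt e z| ≤ 1 := by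
  unfold prt
  split_ifs
  · exact (Complex.abs_re_le_norm _).trans hz
  · exact (Complex.abs_im_le_norm _).trans hz

lemma norm_kap (e : Fin 2) : ‖kap e‖ = 1 := by
  unfold kap
  split_ifs <;> simp

lemma sum_kap_prt (z : ℂ) : z = ∑ e : Fin 2, kap e * (prt e z : ℂ) := by
  rw [Fin.sum_univ_two]
  unfold kap prt
  simp only [if_true, one_mul, Fin.one_eq_zero_iff, OfNat.ofNat_ne_one, if_false]
  rw [mul_comm]
  exact (Complex.re_add_im z).symm

/-- expansion of the real part of a product -/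
lemma re_mul_prod {m : ℕ} (θ : ℂ) (z : Fin m → ℂ) :
    (θ * ∏ i, z i).re =
      ∑ ε : Fin m → Fin 2, (θ * ∏ i, kap (ε i)).re * ∏ i, prt (ε i) (z i) := by
  have h1 : ∏ i, z i = ∑ ε : Fin m → Fin 2, (∏ i, kap (ε i)) * ((∏ i, prt (ε i) (z i) : ℝ) : ℂ) := by
    rw [Finset.prod_congr rfl fun i _ => sum_kap_prt (z i), Finset.prod_univ_sum,
      Fintype.piFinset_univ]
    refine Finset.sum_congr rfl fun ε _ => ?_
    rw [Finset.prod_mul_distrib, Complex.ofReal_prod]
  rw [h1, Finset.mul_sum, Complex.re_sum]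
  refine Finset.sum_congr rfl fun ε _ => ?_
  rw [← mul_assoc, Complex.re_mul_ofReal]

lemma abs_re_coef {m : ℕ} {θ : ℂ} (hθ : ‖θ‖ ≤ 1) (ε : Fin m → Fin 2) :
    |(θ * ∏ i, kap (ε i)).re| ≤ 1 := by
  refine (Complex.abs_re_le_norm _).trans ?_
  rw [norm_mul, norm_prod]
  simp only [norm_kap, Finset.prod_const_one, mul_one]
  exact hθ

/-- oscillation of a linear combination -/
lemma OscP_comb {ι : Type*} [Fintype ι] [Nonempty ι] (κ : ι → ℝ) (hκ : ∀ e, |κ e| ≤ 1)
    (u : ι → ℕ → ℝ) {c : ℝ} {p q : ℕ} (h : OscP (fun k => ∑ e, κ e * u e k) c p q) :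
    ∃ e, OscP (u e) (c / Fintype.card ι) p q := by
  obtain ⟨k, hk, k', hk', hc⟩ := h
  by_contra hno
  push Not at hno
  have hpos : (0 : ℝ) < Fintype.card ι := by exact_mod_cast Fintype.card_pos
  have h1 : ∀ e, |u e k - u e k'| < c / Fintype.card ι := by
    intro e
    by_contra hlt
    exact hno e ⟨k, hk, k', hk', not_lt.1 hlt⟩
  have h2 : |∑ e, κ e * u e k - ∑ e, κ e * u e k'| < c := by
    rw [← Finset.sum_sub_distrib]
    calc |∑ e, (κ e * u e k - κ e * u e k')| ≤ ∑ e, |κ e * u e k - κ e * u e k'| :=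
          Finset.abs_sum_le_sum_abs _ _
      _ ≤ ∑ e, |u e k - u e k'| := by
          refine Finset.sum_le_sum fun e _ => ?_
          rw [← mul_sub, abs_mul]
          exact mul_le_of_le_one_left (abs_nonneg _) (hκ e)
      _ < ∑ _e : ι, c / Fintype.card ι := Finset.sum_lt_sum_of_nonempty
          Finset.univ_nonempty fun e _ => h1 e
      _ = c := by
          rw [Finset.sum_const, Finset.card_univ, nsmul_eq_mul]
          field_simp
  exact absurd hc (not_le.2 h2)

lemma ind_exists_le {ι : Type*} [Fintype ι] (A : Prop) (B : ι → Prop) (h : A → ∃ e, B e) :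
    ind A ≤ ∑ e, ind (B e) := by
  by_cases hA : A
  · obtain ⟨e, he⟩ := h hA
    rw [ind_of hA]
    calc (1 : ℝ) = ind (B e) := (ind_of he).symm
      _ ≤ ∑ e, ind (B e) :=
          Finset.single_le_sum (f := fun e => ind (B e)) (fun e _ => ind_nonneg _)
            (Finset.mem_univ e)
  · rw [ind_not hA]
    exact Finset.sum_nonneg fun e _ => ind_nonneg _

lemma av_sum_mul {ι : Type*} [Fintype ι] (κ : ι → ℝ) (φ : ι → ℤ → ℝ) (N : ℕ) :
    av (fun n => ∑ e, κ e * φ e n) N = ∑ e, κ e * av (φ e) N := by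
  unfold av
  rw [Finset.sum_comm, Finset.mul_sum]
  refine Finset.sum_congr rfl fun e _ => ?_
  rw [← Finset.mul_sum]
  ring

/-- GENERAL TRANSFERENCE, real part -/
theorem wob_of_split (m : ℕ) (hfin : FinTh m) {X : Type} [MeasurableSpace X] (μ : Measure X)
    [IsProbabilityMeasure μ] (γ : (Fin m → ℤ) → Equiv.Perm X) (hγ : ∀ a, MP2 μ (γ a))
    (φ : X → ℤ → ℝ) (hφm : ∀ n, Measurable fun x => φ x n)
    (hsplit : ∀ x, ∃ (θ : (Fin m → ℤ) → ℂ) (F : Fin m → (Fin m → ℤ) → ℂ),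
      (∀ a, ‖θ a‖ ≤ 1) ∧ (∀ i a, ‖F i a‖ ≤ 1) ∧
      ∀ a n, φ (γ a x) n = (θ a * ∏ i, F i (Function.update a i (a i + n))).re) :
    WOB μ φ := by
  intro c hc
  set D : ℝ := (Fintype.card (Fin m → Fin 2) : ℝ) with hD
  have hDpos : 0 < D := by rw [hD]; exact_mod_cast Fintype.card_pos
  obtain ⟨R, hR1, hR⟩ := hfin (c / D) (by positivity)
  refine ⟨R, hR1, fun δ hδ => ?_⟩
  obtain ⟨J, hJ1, hJ⟩ := hR (δ / D) (by positivity)
  refine ⟨J, hJ1, fun N hN p hp hp0 => ?_⟩
  obtain ⟨M, hM1, hM⟩ := hJ N hN p hp hp0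
  have hmeas : ∀ k, Measurable (fun x => av (φ x) (N k)) := fun k => measurable_av hφm (N k)
  refine int_boundG μ γ hγ M J hM1 (fun j => oscSet
    (fun k x => av (φ x) (N k)) c (p j) (p (j + 1)))
    (fun j => measurableSet_oscSet hmeas c _ _) _ ?_
  intro z
  obtain ⟨θ, F, hθ, hF, hs⟩ := hsplit z
  have h1 := fun ε : Fin m → Fin 2 => hM (fun i y => prt (ε i) (F i y))
    (fun i y => abs_prt_le _ (hF i y))
  have h2 : ∀ (x : Fin m → ℤ) (j : ℕ),
      ind (γ x z ∈ oscSet (fun k x => av (φ x) (N k)) c (p j) (p (j + 1))) ≤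
      ∑ ε : Fin m → Fin 2, ind (OscP (fun k => zav (fun i y => prt (ε i) (F i y)) x (N k))
        (c / D) (p j) (p (j + 1))) := by
    intro x j
    refine ind_exists_le _ _ fun hx => ?_
    rw [mem_oscSet] at hx
    refine OscP_comb (fun ε => (θ x * ∏ i, kap (ε i)).re) (fun ε => abs_re_coef (hθ x) ε)
      (fun ε k => zav (fun i y => prt (ε i) (F i y)) x (N k)) ?_
    have h3 : (fun k => av (φ (γ x z)) (N k)) = fun k => ∑ ε : Fin m → Fin 2,
        (θ x * ∏ i, kap (ε i)).re * zav (fun i y => prt (ε i) (F i y)) x (N k) := by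
      funext k
      unfold zav
      rw [← av_sum_mul]
      congr 1
      funext n
      rw [hs x n, re_mul_prod]
    rw [← h3]
    exact hx
  calc ∑ x ∈ box m M, ∑ j ∈ range J,
        ind (γ x z ∈ oscSet (fun k x => av (φ x) (N k)) c (p j) (p (j + 1)))
      ≤ ∑ x ∈ box m M, ∑ j ∈ range J, ∑ ε : Fin m → Fin 2,
          ind (OscP (fun k => zav (fun i y => prt (ε i) (F i y)) x (N k))
            (c / D) (p j) (p (j + 1))) :=
        Finset.sum_le_sum fun x _ => Finset.sum_le_sum fun j _ => h2 x j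
    _ = ∑ ε : Fin m → Fin 2, ∑ x ∈ box m M, ∑ j ∈ range J,
          ind (OscP (fun k => zav (fun i y => prt (ε i) (F i y)) x (N k))
            (c / D) (p j) (p (j + 1))) := by
        rw [Finset.sum_comm]
        simp only [Finset.sum_comm (s := range J)]
        rw [Finset.sum_comm]
    _ ≤ ∑ _ε : Fin m → Fin 2, δ / D * J * (M : ℝ) ^ m := Finset.sum_le_sum fun ε _ => h1 ε
    _ = δ * J * (M : ℝ) ^ m := by
        rw [Finset.sum_const, Finset.card_univ, nsmul_eq_mul, ← hD]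
        field_simp

/-- GENERAL TRANSFERENCE, complex form -/
theorem ae_of_split (m : ℕ) (hfin : FinTh m) {X : Type} [MeasurableSpace X] (μ : Measure X)
    [IsProbabilityMeasure μ] (γ : (Fin m → ℤ) → Equiv.Perm X) (hγ : ∀ a, MP2 μ (γ a))
    (φ : X → ℤ → ℂ) (hφm : ∀ n, Measurable fun x => φ x n) (hφ : ∀ x n, ‖φ x n‖ ≤ 1)
    (hsplit : ∀ x, ∃ (θ : (Fin m → ℤ) → ℂ) (F : Fin m → (Fin m → ℤ) → ℂ),
      (∀ a, ‖θ a‖ ≤ 1) ∧ (∀ i a, ‖F i a‖ ≤ 1) ∧
      ∀ a n, φ (γ a x) n = θ a * ∏ i, F i (Function.update a i (a i + n))) :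
    ∀ᵐ x ∂μ, ∃ L : ℂ, Tendsto (fun N : ℕ => ((2 * N + 1 : ℕ) : ℂ)⁻¹ *
      ∑ n ∈ Finset.Icc (-(N : ℤ)) (N : ℤ), φ x n) atTop (𝓝 L) := by
  have hre := ae_tendsto_of_WOB μ (fun x n => (φ x n).re)
    (fun x n => (Complex.abs_re_le_norm _).trans (hφ x n))
    (wob_of_split m hfin μ γ hγ (fun x n => (φ x n).re)
      (fun n => Complex.measurable_re.comp (hφm n)) (fun x => by
        obtain ⟨θ, F, h1, h2, h3⟩ := hsplit x
        exact ⟨θ, F, h1, h2, fun a n => by rw [h3]⟩))
  have him := ae_tendsto_of_WOB μ (fun x n => (φ x n).im)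
    (fun x n => (Complex.abs_im_le_norm _).trans (hφ x n))
    (wob_of_split m hfin μ γ hγ (fun x n => (φ x n).im)
      (fun n => Complex.measurable_im.comp (hφm n)) (fun x => by
        obtain ⟨θ, F, h1, h2, h3⟩ := hsplit x
        refine ⟨fun a => -Complex.I * θ a, F, fun a => ?_, h2, fun a n => ?_⟩
        · rw [norm_mul, norm_neg, Complex.norm_I, one_mul]; exact h1 a
        · rw [h3, mul_assoc]
          generalize θ a * ∏ i, F i (Function.update a i (a i + n)) = w
          simp [Complex.mul_re]))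
  filter_upwards [hre, him] with x h1 h2
  obtain ⟨L1, h1⟩ := h1
  obtain ⟨L2, h2⟩ := h2
  refine ⟨(L1 : ℂ) + (L2 : ℂ) * Complex.I, ?_⟩
  have h1' : Tendsto (fun N : ℕ => ((av (fun n => (φ x n).re) N : ℝ) : ℂ)) atTop (𝓝 (L1 : ℂ)) :=
    (Complex.continuous_ofReal.tendsto _).comp h1
  have h2' : Tendsto (fun N : ℕ => ((av (fun n => (φ x n).im) N : ℝ) : ℂ)) atTop (𝓝 (L2 : ℂ)) :=
    (Complex.continuous_ofReal.tendsto _).comp h2
  refine (h1'.add (h2'.mul_const Complex.I)).congr fun N => ?_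
  unfold av
  push_cast
  rw [mul_assoc, ← mul_add, Finset.sum_mul, ← Finset.sum_add_distrib]
  congr 1
  refine Finset.sum_congr rfl fun n _ => ?_
  exact Complex.re_add_im _

end Pool.PWM
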