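/-
PWM (MP_4d8f14_an), transfer part, module NilPh (helper53).
`m` functions on which the commutator subgroup acts by an invariant character: along linear
sequences their product splits in the sense of NilTr.
-/
import Mathlib
import Pool.Agent.PWM.NilTr
import Pool.Agent.PWZ.NilPhase

set_option autoImplicit false

open Finset MeasureTheory Filter Topology Pool.Agent.PWZ Pool.PWZ
open scoped commutatorElement

namespace Pool.PWM

variable {X : Type}

/-- along the sequence `s` the function `f` is a phase, of the kind allowed in NilTr, times `f`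
along the powers of `U` -/
def LinSeqM (m : ℕ) (s : ℤ → Equiv.Perm X) (f : X → ℂ) (U : Equiv.Perm X) : Prop :=
  ∃ (C : (Fin m → ℤ) → ℂ) (A : Fin m → (Fin m → ℤ) → ℂ),
    (∀ a, ‖C a‖ ≤ 1) ∧ (∀ i a, ‖A i a‖ ≤ 1) ∧
    ∀ (a : Fin m → ℤ) (n : ℤ) (y : X),
      f (s n y) = C a * (∏ i, A i (Function.update a i (a i + n))) * f ((U ^ n) y)

lemma LinSeqM.pow (m : ℕ) (f : X → ℂ) (U : Equiv.Perm X) : LinSeqM m (fun n => U ^ n) f U :=
  ⟨fun _ => 1, fun _ _ => 1, by simp, by simp, fun a n y => by simp⟩

/-- sums of exponents -/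
lemma eig_sum {G : Subgroup (Equiv.Perm X)} {h : X → ℂ} {χ : G → ℂ} (H : EigG G h χ)
    {c : G} (hc : c ∈ commutator G) {ι : Type*} (s : Finset ι) (e : ι → ℤ) (γ : G) (y : X) :
    h (((γ * c ^ (∑ k ∈ s, e k) : G) : Equiv.Perm X) y) =
      (∏ k ∈ s, χ (c ^ e k)) * h ((γ : Equiv.Perm X) y) := by
  classical
  induction s using Finset.induction_on with
  | empty => simp
  | insert k s hk ih =>
    have hp : c ^ e k ∈ commutator G := Subgroup.zpow_mem _ hc _
    rw [Finset.sum_insert hk, Finset.prod_insert hk, add_comm, zpow_add, ← mul_assoc,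
      H.eig _ _ hp, ih, mul_assoc]

/-- sum of the coordinates -/
def sg {m : ℕ} (a : Fin m → ℤ) : ℤ := ∑ j, a j

lemma sg_update {m : ℕ} (a : Fin m → ℤ) (i : Fin m) (n : ℤ) :
    sg (Function.update a i (a i + n)) = sg a + n := by
  unfold sg
  rw [Finset.sum_update_of_mem (Finset.mem_univ i)]
  have h := Finset.sum_sdiff (f := a) (Finset.singleton_subset_iff.2 (Finset.mem_univ i))
  rw [Finset.sum_singleton] at h
  rw [← h]
  ring

lemma norm_prod_le_one {ι : Type*} (s : Finset ι) (u : ι → ℂ) (h : ∀ k ∈ s, ‖u k‖ ≤ 1) :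
    ‖∏ k ∈ s, u k‖ ≤ 1 := by
  rw [norm_prod]
  exact Finset.prod_le_one (fun k _ => norm_nonneg _) h

lemma norm_mul_le_one' {a b : ℂ} (ha : ‖a‖ ≤ 1) (hb : ‖b‖ ≤ 1) : ‖a * b‖ ≤ 1 := by
  rw [norm_mul]
  exact mul_le_one₀ ha (norm_nonneg _) hb

/-- products of powers -/
lemma LinSeqM.of_eig {m : ℕ} (hm : 2 ≤ m) {G : Subgroup (Equiv.Perm X)} {h : X → ℂ} {χ : G → ℂ}
    (H : EigG G h χ) (L : List G) :
    LinSeqM m (fun n => (((L.map fun A => A ^ n).prod : G) : Equiv.Perm X)) h
      ((L.prod : G) : Equiv.Perm X) := by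
  classical
  obtain ⟨c, hc, hcn⟩ := list_zpow L
  have hp : ∀ k : ℤ, c ^ k ∈ commutator G := fun k => Subgroup.zpow_mem _ hc k
  have hne : ∀ k : Fin m, ∃ l : Fin m, l ≠ k := by
    intro k
    have : Nontrivial (Fin m) := Fin.nontrivial_iff_two_le.2 hm
    exact exists_ne k
  choose nb hnb using hne
  let i0 : Fin m := ⟨0, by omega⟩
  refine ⟨fun a => χ (c ^ tri (sg a + 1)),
    fun i w => (if i = i0 then χ (c ^ tri (sg w)) else 1) *
      ∏ k, (if nb k = i then χ (c ^ (-(sg w * w k))) else 1), fun a => H.norm _ (hp _), ?_, ?_⟩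
  · intro i a
    refine norm_mul_le_one' ?_ (norm_prod_le_one _ _ fun k _ => ?_)
    · split_ifs
      · exact H.norm _ (hp _)
      · simp
    · split_ifs
      · exact H.norm _ (hp _)
      · simp
  · intro a n y
    obtain ⟨κ, hκ, hn⟩ := hcn n
    have e0 : tri n = tri (sg a + n) + (∑ k, -((sg a + n) * a k)) + tri (sg a + 1) := by
      have h1 := tri_split 0 (sg a) (sg a + n)
      rw [Finset.sum_neg_distrib, ← Finset.mul_sum]
      have h2 : ∑ k, a k = sg a := rfl
      rw [h2]
      rw [show sg a + n - 0 - sg a = n by ring, show sg a + n - 0 = sg a + n by ring] at h1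
      rw [h1]
      ring
    have e1 : ∏ i : Fin m, ((if i = i0 then χ (c ^ tri (sg (Function.update a i (a i + n)))) else 1) *
        ∏ k, (if nb k = i then χ (c ^ (-(sg (Function.update a i (a i + n)) *
          Function.update a i (a i + n) k))) else 1)) =
        χ (c ^ tri (sg a + n)) * ∏ k, χ (c ^ (-((sg a + n) * a k))) := by
      rw [Finset.prod_mul_distrib]
      congr 1
      · rw [Finset.prod_ite_eq' Finset.univ i0
          (fun i => χ (c ^ tri (sg (Function.update a i (a i + n))))), if_pos (Finset.mem_univ _),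
          sg_update]
      · rw [Finset.prod_comm]
        refine Finset.prod_congr rfl fun k _ => ?_
        have h3 : ∀ i : Fin m, (if nb k = i then χ (c ^ (-(sg (Function.update a i (a i + n)) *
            Function.update a i (a i + n) k))) else 1) =
            if nb k = i then χ (c ^ (-((sg a + n) * a k))) else 1 := by
          intro i
          by_cases hi : nb k = i
          · subst hi
            rw [if_pos rfl, if_pos rfl, sg_update, Function.update_of_ne (hnb k).symm]
          · rw [if_neg hi, if_neg hi]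
        rw [Finset.prod_congr rfl fun i _ => h3 i, Finset.prod_ite_eq, if_pos (Finset.mem_univ _)]
    show h ((((L.map fun A => A ^ n).prod : G) : Equiv.Perm X) y) = _
    rw [e1, hn, H.inv3 κ hκ, e0, zpow_add, zpow_add, ← mul_assoc, ← mul_assoc, H.eig _ _ (hp _),
      eig_sum H hc, H.eig _ _ (hp _), Subgroup.coe_zpow]
    ring

section
variable {G : Type*} [Group G]

/-- the product of the `T_j ^ a_j` with `j ≠ i` -/
def Wo {m : ℕ} (T : Fin m → G) (i : Fin m) (a : Fin m → ℤ) : G :=
  (List.ofFn fun j => if j = i then 1 else T j ^ a j).prod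

lemma Wo_update {m : ℕ} (T : Fin m → G) (i : Fin m) (a : Fin m → ℤ) (v : ℤ) :
    Wo T i (Function.update a i v) = Wo T i a := by
  unfold Wo
  congr 2
  funext j
  by_cases hj : j = i
  · rw [if_pos hj, if_pos hj]
  · rw [if_neg hj, if_neg hj, Function.update_of_ne hj]

/-- the point maps: `T_{i0}` first -/
def Gm {m : ℕ} (T : Fin m → G) (i0 : Fin m) (a : Fin m → ℤ) : G := T i0 ^ a i0 * Wo T i0 a

/-- the commutator part -/
def Nu {m : ℕ} (T : Fin m → G) (i0 i : Fin m) (a : Fin m → ℤ) : G :=
  (T i ^ a i)⁻¹ * Gm T i0 a * (Wo T i a)⁻¹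

lemma Gm_eq {m : ℕ} (T : Fin m → G) (i0 i : Fin m) (a : Fin m → ℤ) :
    Gm T i0 a = T i ^ a i * Nu T i0 i a * Wo T i a := by
  unfold Nu
  simp only [mul_assoc, inv_mul_cancel, mul_one, mul_inv_cancel_left]

lemma of_Wo {m : ℕ} (T : Fin m → G) (i : Fin m) (a : Fin m → ℤ) :
    Abelianization.of (T i ^ a i) * Abelianization.of (Wo T i a) =
      ∏ j, Abelianization.of (T j ^ a j) := by
  unfold Wo
  rw [map_list_prod, List.map_ofFn, List.prod_ofFn]
  have h1 : Abelianization.of (T i ^ a i) =
      ∏ j, (if j = i then Abelianization.of (T j ^ a j) else 1) := by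
    rw [Finset.prod_ite_eq' Finset.univ i (fun j => Abelianization.of (T j ^ a j)),
      if_pos (Finset.mem_univ _)]
  rw [h1, ← Finset.prod_mul_distrib]
  refine Finset.prod_congr rfl fun j _ => ?_
  simp only [Function.comp_apply]
  by_cases hj : j = i
  · rw [if_pos hj, if_pos hj, map_one, mul_one]
  · rw [if_neg hj, if_neg hj, one_mul]

lemma Nu_mem {m : ℕ} (T : Fin m → G) (i0 i : Fin m) (a : Fin m → ℤ) :
    Nu T i0 i a ∈ commutator G := by
  rw [← Abelianization.ker_of, MonoidHom.mem_ker]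
  unfold Nu Gm
  rw [map_mul, map_mul, map_mul, map_inv, map_inv, of_Wo T i0 a, ← of_Wo T i a,
    inv_mul_cancel_left, mul_inv_cancel]

end

/-- the main splitting lemma, for all functions -/
theorem split_of_eigM {m : ℕ} {G : Subgroup (Equiv.Perm X)} (i0 : Fin m) (T : Fin m → G)
    (f : Fin m → X → ℂ) (χ : Fin m → G → ℂ) (H : ∀ i, i ≠ i0 → EigG G (f i) (χ i))
    (s : Fin m → ℤ → Equiv.Perm X)
    (h : ∀ i, LinSeqM m (s i) (f i) ((T i : G) : Equiv.Perm X)) (hf : ∀ i x, ‖f i x‖ ≤ 1)
    (x : X) :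
    ∃ (θ : (Fin m → ℤ) → ℂ) (F : Fin m → (Fin m → ℤ) → ℂ),
      (∀ a, ‖θ a‖ ≤ 1) ∧ (∀ i a, ‖F i a‖ ≤ 1) ∧
      ∀ a n, ∏ i, f i (s i n (((Gm T i0 a : G) : Equiv.Perm X) x)) =
        θ a * ∏ i, F i (Function.update a i (a i + n)) := by
  classical
  choose C A hC hA e using h
  refine ⟨fun a => ∏ i, (C i a * (if i = i0 then 1 else χ i (Nu T i0 i a))),
    fun i w => (∏ j, A j i w) * f i (((T i ^ w i * Wo T i w : G) : Equiv.Perm X) x), ?_, ?_, ?_⟩
  · intro a
    refine norm_prod_le_one _ _ fun i _ => norm_mul_le_one' (hC _ _) ?_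
    by_cases hi : i = i0
    · rw [if_pos hi]; simp
    · rw [if_neg hi]; exact (H i hi).norm _ (Nu_mem T i0 i a)
  · intro i a
    exact norm_mul_le_one' (norm_prod_le_one _ _ fun j _ => hA _ _ _) (hf _ _)
  · intro a n
    have h1 : ∀ i, f i (s i n (((Gm T i0 a : G) : Equiv.Perm X) x)) =
        (C i a * (if i = i0 then 1 else χ i (Nu T i0 i a))) *
        (∏ k, A i k (Function.update a k (a k + n))) *
        f i (((T i ^ (Function.update a i (a i + n) i) *
          Wo T i (Function.update a i (a i + n)) : G) : Equiv.Perm X) x) := by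
      intro i
      rw [e i a n]
      have h2 : f i (((((T i : G) : Equiv.Perm X)) ^ n)
          (((Gm T i0 a : G) : Equiv.Perm X) x)) =
          (if i = i0 then 1 else χ i (Nu T i0 i a)) *
          f i (((T i ^ (Function.update a i (a i + n) i) *
            Wo T i (Function.update a i (a i + n)) : G) : Equiv.Perm X) x) := by
        rw [Function.update_self, Wo_update]
        by_cases hi : i = i0
        · subst hi
          rw [if_pos rfl, one_mul, ← Equiv.Perm.mul_apply, ← Subgroup.coe_zpow,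
            ← Subgroup.coe_mul]
          congr 3
          unfold Gm
          rw [← mul_assoc, ← zpow_add, add_comm]
        · rw [if_neg hi]
          have h3 := (H i hi).eig (T i ^ (a i + n)) (Nu T i0 i a) (Nu_mem T i0 i a)
            (((Wo T i a : G) : Equiv.Perm X) x)
          rw [← Equiv.Perm.mul_apply, ← Equiv.Perm.mul_apply, ← Subgroup.coe_mul,
            ← Subgroup.coe_mul] at h3
          rw [← h3, ← Equiv.Perm.mul_apply, ← Subgroup.coe_zpow, ← Subgroup.coe_mul]
          congr 3
          rw [Gm_eq T i0 i a, ← mul_assoc, ← mul_assoc, ← zpow_add, add_comm]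
      rw [h2]
      ring
    rw [Finset.prod_congr rfl fun i _ => h1 i, Finset.prod_mul_distrib, Finset.prod_mul_distrib,
      Finset.prod_mul_distrib (f := fun i => ∏ j, A j i (Function.update a i (a i + n)))]
    rw [Finset.prod_comm, mul_assoc]

end Pool.PWM
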