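/-
PWM (MP_4d8f14_an), transfer part, module NilCl (helper53).
Almost everywhere convergence for `m` functions: the set of admissible functions in one slot is
closed in the mean; passing from eigenfunctions to their closed span slot by slot.
(Adaptation of PWZ/NilClo, PWZ/NilFinal of helper9 to `m` slots.)
-/
import Mathlib
import Pool.Agent.PWZ.NilClo
import Pool.Agent.PWZ.NilFinal
import Pool.Agent.PWM.NilPh

set_option autoImplicit false

open Finset MeasureTheory Filter Topology Pool.Agent.PWZ Pool.PWZ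
open scoped ENNReal commutatorElement

namespace Pool.PWM

variable {X : Type}

/-- almost everywhere convergence of the averages of `f (s n x) ψ x n` -/
def Cv1 [MeasurableSpace X] (μ : Measure X) (s : ℤ → Equiv.Perm X) (ψ : X → ℤ → ℂ)
    (f : X → ℂ) : Prop :=
  ∀ᵐ x ∂μ, ∃ L : ℂ, Tendsto (fun N : ℕ => cav (fun n => f (s n x) * ψ x n) N) atTop (𝓝 L)

lemma Cv1.congr [MeasurableSpace X] {μ : Measure X} {s : ℤ → Equiv.Perm X} {ψ : X → ℤ → ℂ}
    (hs : ∀ n, MeasurePreserving ⇑(s n) μ μ) {f f' : X → ℂ} (h : Cv1 μ s ψ f)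
    (hf : ∀ᵐ x ∂μ, f' x = f x) : Cv1 μ s ψ f' := by
  have h1 : ∀ᵐ x ∂μ, ∀ n, f' (s n x) = f (s n x) := by
    rw [ae_all_iff]; exact fun n => (hs n).quasiMeasurePreserving.ae hf
  unfold Cv1 at h ⊢
  filter_upwards [h, h1] with x hx e1
  simp only [e1]
  exact hx

lemma Cv1.const_mul [MeasurableSpace X] {μ : Measure X} {s : ℤ → Equiv.Perm X}
    {ψ : X → ℤ → ℂ} {f : X → ℂ} (a : ℂ) (h : Cv1 μ s ψ f) :
    Cv1 μ s ψ (fun x => a * f x) := by
  unfold Cv1 at h ⊢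
  filter_upwards [h] with x hx
  obtain ⟨L, hL⟩ := hx
  refine ⟨a * L, (hL.const_mul a).congr fun N => ?_⟩
  unfold cav
  rw [← mul_assoc, mul_comm a, mul_assoc, Finset.mul_sum]
  congr 1
  refine Finset.sum_congr rfl fun n _ => ?_
  ring

lemma Cv1.sum [MeasurableSpace X] {μ : Measure X} {s : ℤ → Equiv.Perm X} {ψ : X → ℤ → ℂ}
    {k : ℕ} (f : Fin k → X → ℂ) (h : ∀ i, Cv1 μ s ψ (f i)) :
    Cv1 μ s ψ (fun x => ∑ i, f i x) := by
  unfold Cv1 at h ⊢
  have h' : ∀ᵐ x ∂μ, ∀ i, ∃ L : ℂ,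
      Tendsto (fun N : ℕ => cav (fun n => f i (s n x) * ψ x n) N) atTop (𝓝 L) := by
    rw [ae_all_iff]; exact fun i => h i
  filter_upwards [h'] with x hx
  choose L hL using hx
  refine ⟨∑ i, L i, ?_⟩
  have h2 : Tendsto (fun N : ℕ => ∑ i, cav (fun n => f i (s n x) * ψ x n) N) atTop
      (𝓝 (∑ i, L i)) := tendsto_finsetSum _ fun i _ => hL i
  refine h2.congr fun N => ?_
  unfold cav
  simp only [← Finset.mul_sum]
  congr 1
  rw [Finset.sum_comm]
  refine Finset.sum_congr rfl fun n _ => ?_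
  rw [Finset.sum_mul]

/-- **closure in the mean** -/
theorem Cv1.closure [MeasurableSpace X] {μ : Measure X} {s : ℤ → Equiv.Perm X}
    {ψ : X → ℤ → ℂ} (hs : ∀ n, MeasurePreserving ⇑(s n) μ μ) (hS : Sg μ s)
    {f : X → ℂ} (hf : Measurable f) (hfb : ∃ M : ℝ, ∀ x, ‖f x‖ ≤ M)
    (hψ : ∃ M : ℝ, ∀ᵐ x ∂μ, ∀ n, ‖ψ x n‖ ≤ M)
    (hcl : ∀ ε : ℝ≥0∞, ε ≠ 0 → ∃ f' : X → ℂ, Measurable f' ∧ (∃ M : ℝ, ∀ x, ‖f' x‖ ≤ M) ∧
      ∫⁻ x, ‖f x - f' x‖ₑ ∂μ ≤ ε ∧ Cv1 μ s ψ f') :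
    Cv1 μ s ψ f := by
  obtain ⟨Mf, hMf⟩ := hfb
  obtain ⟨Mg', hMg'⟩ := hψ
  obtain ⟨Mg, hMgpos, hMg⟩ : ∃ M : ℝ, 0 < M ∧ ∀ᵐ x ∂μ, ∀ n, ‖ψ x n‖ ≤ M := by
    refine ⟨max Mg' 1, lt_of_lt_of_le one_pos (le_max_right _ _), ?_⟩
    filter_upwards [hMg'] with x hx n
    exact (hx n).trans (le_max_left _ _)
  choose F hFm hFb hFi hFc using fun k : ℕ =>
    hcl (((k + 1 : ℕ) : ℝ≥0∞)⁻¹) (ENNReal.inv_ne_zero.2 (ENNReal.natCast_ne_top _))
  -- convergence of the averages of `|f - F k|`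
  have hSk : ∀ᵐ x ∂μ, ∀ k : ℕ, ∃ L : ℂ, Tendsto (fun N : ℕ =>
      cav (fun n => ((‖f (s n x) - F k (s n x)‖ : ℝ) : ℂ)) N) atTop (𝓝 L) := by
    rw [ae_all_iff]
    intro k
    refine hS (fun x => ((‖f x - F k x‖ : ℝ) : ℂ)) ?_ ?_
    · exact Complex.measurable_ofReal.comp (hf.sub (hFm k)).norm
    · obtain ⟨M, hM⟩ := hFb k
      refine ⟨Mf + M, fun x => ?_⟩
      rw [Complex.norm_real, norm_norm]
      exact (norm_sub_le _ _).trans (add_le_add (hMf x) (hM x))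
  set u : ℕ → X → ℝ≥0∞ := fun k x => ‖f x - F k x‖ₑ with hu
  have hum : ∀ k, Measurable (u k) := fun k => (hf.sub (hFm k)).enorm
  set v : ℕ → X → ℝ≥0∞ := fun k x => liminf (fun N => eav (fun n => u k (s n x)) N) atTop with hv
  have hem : ∀ k N, Measurable fun x => eav (fun n => u k (s n x)) N := fun k N =>
    measurable_eav s (fun n => (hs n).measurable) (u k) (hum k) N
  have hvm : ∀ k, Measurable (v k) := fun k => Measurable.liminf fun N => hem k N
  have hvi : ∀ k, ∫⁻ x, v k x ∂μ ≤ ((k + 1 : ℕ) : ℝ≥0∞)⁻¹ := by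
    intro k
    calc ∫⁻ x, v k x ∂μ ≤ liminf (fun N => ∫⁻ x, eav (fun n => u k (s n x)) N ∂μ) atTop :=
          lintegral_liminf_le fun N => hem k N
      _ = liminf (fun _N : ℕ => ∫⁻ x, u k x ∂μ) atTop := by
          congr 1
          funext N
          exact lintegral_eav s hs (u k) (hum k) N
      _ = ∫⁻ x, u k x ∂μ := by rw [liminf_const]
      _ ≤ _ := hFi k
  have hv0 : ∀ᵐ x ∂μ, liminf (fun k => v k x) atTop = 0 := by
    have h1 : ∫⁻ x, liminf (fun k => v k x) atTop ∂μ = 0 := by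
      refine le_antisymm ?_ bot_le
      calc ∫⁻ x, liminf (fun k => v k x) atTop ∂μ ≤ liminf (fun k => ∫⁻ x, v k x ∂μ) atTop :=
            lintegral_liminf_le hvm
        _ ≤ liminf (fun k : ℕ => ((k + 1 : ℕ) : ℝ≥0∞)⁻¹) atTop :=
            liminf_le_liminf (Eventually.of_forall hvi)
        _ = 0 := by
            have h2 : Tendsto (fun k : ℕ => ((k + 1 : ℕ) : ℝ≥0∞)⁻¹) atTop (𝓝 0) :=
              ENNReal.tendsto_inv_nat_nhds_zero.comp (tendsto_add_atTop_nat 1)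
            exact h2.liminf_eq
    exact (lintegral_eq_zero_iff (Measurable.liminf hvm)).1 h1
  have hFc' : ∀ᵐ x ∂μ, ∀ k : ℕ, ∃ L : ℂ,
      Tendsto (fun N : ℕ => cav (fun n => F k (s n x) * ψ x n) N) atTop (𝓝 L) := by
    rw [ae_all_iff]; exact hFc
  unfold Cv1
  filter_upwards [hSk, hv0, hFc', hMg] with x h1 h2 h3 hMgx
  apply cauchySeq_tendsto_of_complete
  rw [Metric.cauchySeq_iff]
  intro ε hε
  have hε' : (0 : ℝ≥0∞) < ENNReal.ofReal (ε / (3 * Mg)) := by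
    rw [ENNReal.ofReal_pos]; positivity
  have h4 : liminf (fun k => v k x) atTop < ENNReal.ofReal (ε / (3 * Mg)) := by rwa [h2]
  obtain ⟨k, hk⟩ := (frequently_lt_of_liminf_lt (by isBoundedDefault) h4).exists
  obtain ⟨L, hL⟩ := h1 k
  have hr : Tendsto (fun N : ℕ => rav (fun n => ‖f (s n x) - F k (s n x)‖) N) atTop
      (𝓝 L.re) := by
    have h5 : Tendsto (fun N : ℕ =>
        (cav (fun n => ((‖f (s n x) - F k (s n x)‖ : ℝ) : ℂ)) N).re) atTop (𝓝 L.re) :=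
      (Complex.continuous_re.tendsto _).comp hL
    refine h5.congr fun N => ?_
    rw [cav_ofReal, Complex.ofReal_re]
  have hvL : v k x = ENNReal.ofReal L.re := by
    have h6 : Tendsto (fun N : ℕ => eav (fun n => u k (s n x)) N) atTop
        (𝓝 (ENNReal.ofReal L.re)) := by
      refine (ENNReal.tendsto_ofReal hr).congr fun N => ?_
      rw [← eav_ofReal _ fun n => norm_nonneg _]
      congr 1
      funext n
      exact ofReal_norm _
    exact h6.liminf_eq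
  rw [hvL, ENNReal.ofReal_lt_ofReal_iff (by positivity)] at hk
  have h7 : ∀ᶠ N in atTop, rav (fun n => ‖f (s n x) - F k (s n x)‖) N < ε / (3 * Mg) :=
    hr.eventually_lt_const hk
  obtain ⟨N1, hN1⟩ := eventually_atTop.1 h7
  obtain ⟨L', hL'⟩ := h3 k
  obtain ⟨N2, hN2⟩ := Metric.cauchySeq_iff.1 hL'.cauchySeq (ε / 3) (by positivity)
  have h8 : ∀ N ≥ N1, dist (cav (fun n => f (s n x) * ψ x n) N)
      (cav (fun n => F k (s n x) * ψ x n) N) < ε / 3 := by
    intro N hN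
    rw [dist_eq_norm, cav_sub]
    refine (norm_cav_le _ (fun n => ‖f (s n x) - F k (s n x)‖) Mg (fun n => ?_) N).trans_lt ?_
    · rw [← sub_mul, norm_mul, mul_comm]
      exact mul_le_mul_of_nonneg_right (hMgx n) (norm_nonneg _)
    · have := hN1 N hN
      rw [lt_div_iff₀ (by positivity)] at this
      rw [lt_div_iff₀ (by norm_num)]
      linarith
  refine ⟨max N1 N2, fun m hm n hn => ?_⟩
  have a1 := h8 m ((le_max_left _ _).trans hm)
  have a2 := h8 n ((le_max_left _ _).trans hn)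
  have a3 := hN2 m ((le_max_right _ _).trans hm) n ((le_max_right _ _).trans hn)
  rw [dist_comm] at a2
  calc dist _ _ ≤ _ := dist_triangle4 _ _ _ _
    _ < ε / 3 + ε / 3 + ε / 3 := add_lt_add (add_lt_add a1 a3) a2
    _ = ε := by ring

/-- passing to the closed span, one slot -/
theorem Cv1_of_InE [MeasurableSpace X] {μ : Measure X} [IsProbabilityMeasure μ]
    {G : Subgroup (Equiv.Perm X)} [Countable G] (hG : ∀ γ ∈ G, MP2 μ γ)
    {s : ℤ → Equiv.Perm X} (hs : ∀ n, MeasurePreserving ⇑(s n) μ μ) (hS : Sg μ s)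
    {ψ : X → ℤ → ℂ} (hψ : ∃ M : ℝ, ∀ᵐ x ∂μ, ∀ n, ‖ψ x n‖ ≤ M) {f : X → ℂ}
    (hf : MemLp f ∞ μ) (hE : InE μ G f)
    (H : ∀ h, EigFun μ G h → Cv1 μ s ψ h) : Cv1 μ s ψ f := by
  obtain ⟨M, f', hM, fm, fb, fe⟩ := exists_bdd' μ f hf
  have fe' : ∀ᵐ x ∂μ, f x = (fun x => (M : ℂ) * f' x) x := fe
  refine Cv1.congr hs (f := fun x => (M : ℂ) * f' x) ?_ fe'
  refine Cv1.closure hs hS (measurable_const.mul fm) ⟨M, fun x => ?_⟩ hψ ?_
  · rw [norm_mul, Complex.norm_real, Real.norm_eq_abs, abs_of_pos hM]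
    exact mul_le_of_le_one_right hM.le (fb x)
  intro ε hε
  obtain ⟨δ, hδ, hδε⟩ : ∃ δ : ℝ, 0 < δ ∧ ENNReal.ofReal δ ≤ ε := by
    rcases eq_or_ne ε ⊤ with rfl | htop
    · exact ⟨1, one_pos, le_top⟩
    · exact ⟨ε.toReal, ENNReal.toReal_pos hε htop, ENNReal.ofReal_toReal_le⟩
  obtain ⟨k, h, hh, hn⟩ := hE δ hδ
  choose M' h' χ' hM' hm' hb' _ he' using fun i => (hh i).exists_everywhere hG
  refine ⟨fun x => ∑ i, (M' i : ℂ) * h' i x, ?_, ⟨∑ i, M' i, fun x => ?_⟩, ?_, ?_⟩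
  · exact Finset.measurable_fun_sum _ fun i _ => measurable_const.mul (hm' i)
  · refine (norm_sum_le _ _).trans (Finset.sum_le_sum fun i _ => ?_)
    rw [norm_mul, Complex.norm_real, Real.norm_eq_abs, abs_of_pos (hM' i)]
    exact mul_le_of_le_one_right (hM' i).le (hb' i x)
  · have he'' : ∀ᵐ x ∂μ, ∀ i, h i x = (M' i : ℂ) * h' i x := by
      rw [ae_all_iff]; exact he'
    have h1 : ∫⁻ x, ‖(M : ℂ) * f' x - ∑ i, (M' i : ℂ) * h' i x‖ₑ ∂μ =
        ∫⁻ x, ‖f x - ∑ i, h i x‖ₑ ∂μ := by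
      apply lintegral_congr_ae
      filter_upwards [fe, he''] with x e1 e2
      simp only [e1, e2]
    rw [h1, ← eLpNorm_one_eq_lintegral_enorm]
    have hmeas : AEStronglyMeasurable (fun x => f x - ∑ i, h i x) μ :=
      hf.aestronglyMeasurable.sub
        (Finset.aestronglyMeasurable_fun_sum _ fun i _ => (hh i).1.aestronglyMeasurable)
    exact (eLpNorm_le_eLpNorm_of_exponent_le (by norm_num) hmeas).trans (hn.trans hδε)
  · refine Cv1.sum (fun i x => (M' i : ℂ) * h' i x) fun i => ?_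
    refine (H (h i) (hh i)).congr hs ?_
    filter_upwards [he' i] with x hx
    exact hx.symm

/-- almost everywhere convergence for `m` functions -/
def CvM [MeasurableSpace X] {m : ℕ} (μ : Measure X) (s : Fin m → ℤ → Equiv.Perm X)
    (f : Fin m → X → ℂ) : Prop :=
  ∀ᵐ x ∂μ, ∃ L : ℂ, Tendsto (fun N : ℕ => cav (fun n => ∏ j, f j (s j n x)) N) atTop (𝓝 L)

lemma CvM_iff_Cv1 [MeasurableSpace X] {m : ℕ} {μ : Measure X} (s : Fin m → ℤ → Equiv.Perm X)
    (f : Fin m → X → ℂ) (j : Fin m) :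
    CvM μ s f ↔ Cv1 μ (s j) (fun x n => ∏ k ∈ univ.erase j, f k (s k n x)) (f j) := by
  unfold CvM Cv1
  have h1 : ∀ x : X, (fun n => ∏ j, f j (s j n x)) =
      fun n => f j (s j n x) * ∏ k ∈ univ.erase j, f k (s k n x) := by
    intro x
    funext n
    exact (Finset.mul_prod_erase univ (fun k => f k (s k n x)) (Finset.mem_univ j)).symm
  simp only [h1]

lemma CvM_update [MeasurableSpace X] {m : ℕ} {μ : Measure X} (s : Fin m → ℤ → Equiv.Perm X)
    (f : Fin m → X → ℂ) (j : Fin m) (h : X → ℂ) :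
    CvM μ s (Function.update f j h) ↔
      Cv1 μ (s j) (fun x n => ∏ k ∈ univ.erase j, f k (s k n x)) h := by
  rw [CvM_iff_Cv1 s _ j, Function.update_self]
  have h1 : (fun (x : X) (n : ℤ) => ∏ k ∈ univ.erase j, (Function.update f j h) k (s k n x)) =
      fun x n => ∏ k ∈ univ.erase j, f k (s k n x) := by
    funext x n
    refine Finset.prod_congr rfl fun k hk => ?_
    rw [Function.update_of_ne (Finset.ne_of_mem_erase hk)]
  rw [h1]

/-- essential boundedness of products along the sequences -/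
lemma ess_bdd_prod [MeasurableSpace X] {m : ℕ} {μ : Measure X} (s : Fin m → ℤ → Equiv.Perm X)
    (hs : ∀ j n, MeasurePreserving ⇑(s j n) μ μ) (f : Fin m → X → ℂ)
    (hf : ∀ j, MemLp (f j) ∞ μ) (S : Finset (Fin m)) :
    ∃ M : ℝ, ∀ᵐ x ∂μ, ∀ n, ‖∏ k ∈ S, f k (s k n x)‖ ≤ M := by
  choose M f' hM _ fb fe using fun j => exists_bdd' μ (f j) (hf j)
  refine ⟨∏ k ∈ S, M k, ?_⟩
  have h1 : ∀ᵐ x ∂μ, ∀ j n, f j (s j n x) = (M j : ℂ) * f' j (s j n x) := by
    rw [ae_all_iff]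
    intro j
    rw [ae_all_iff]
    exact fun n => (hs j n).quasiMeasurePreserving.ae (fe j)
  filter_upwards [h1] with x hx n
  rw [norm_prod]
  refine Finset.prod_le_prod (fun k _ => norm_nonneg _) fun k _ => ?_
  rw [hx, norm_mul, Complex.norm_real, Real.norm_eq_abs, abs_of_pos (hM k)]
  exact mul_le_of_le_one_right (hM k).le (fb k _)

/-- a function which is admissible in the basic case -/
def Gd [MeasurableSpace X] (m : ℕ) (μ : Measure X) (G : Subgroup (Equiv.Perm X))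
    (s : ℤ → Equiv.Perm X) (p : Prop) (h : X → ℂ) : Prop :=
  MemLp h ∞ μ ∧ ∃ (M : ℝ) (h' : X → ℂ) (T : G), Measurable h' ∧ (∀ x, ‖h' x‖ ≤ 1) ∧
    LinSeqM m s h' (T : Equiv.Perm X) ∧ (p → ∃ χ : G → ℂ, EigG G h' χ) ∧
    ∀ᵐ x ∂μ, h x = M * h' x

lemma Gd.of_eig [MeasurableSpace X] {m : ℕ} (hm : 2 ≤ m) {μ : Measure X}
    {G : Subgroup (Equiv.Perm X)} [Countable G] (hG : ∀ γ ∈ G, MP2 μ γ) (L : List G)
    {s : ℤ → Equiv.Perm X} (hs : s = fun n => (((L.map fun A => A ^ n).prod : G) : Equiv.Perm X))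
    (p : Prop) {h : X → ℂ} (H : EigFun μ G h) : Gd m μ G s p h := by
  obtain ⟨M, h', χ, _, h1, h2, h3, h4⟩ := H.exists_everywhere hG
  refine ⟨H.1, M, h', L.prod, h1, h2, ?_, fun _ => ⟨χ, h3⟩, h4⟩
  rw [hs]
  exact LinSeqM.of_eig hm h3 L

lemma Gd.of_pow [MeasurableSpace X] (m : ℕ) {μ : Measure X}
    {G : Subgroup (Equiv.Perm X)} (V : G)
    {s : ℤ → Equiv.Perm X} (hs : s = fun n => (V : Equiv.Perm X) ^ n)
    {p : Prop} (hp : ¬ p) {h : X → ℂ} (H : MemLp h ∞ μ) : Gd m μ G s p h := by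
  obtain ⟨M, h', _, h1, h2, h3⟩ := exists_bdd' μ h H
  refine ⟨H, M, h', V, h1, h2, ?_, fun h => absurd h hp, h3⟩
  rw [hs]
  exact LinSeqM.pow m h' _

/-- the basic case -/
theorem CvM_of_Gd [MeasurableSpace X] {m : ℕ} (hfin : FinTh m) {μ : Measure X}
    [IsProbabilityMeasure μ] {G : Subgroup (Equiv.Perm X)} (hG : ∀ γ ∈ G, MP2 μ γ)
    (s : Fin m → ℤ → Equiv.Perm X) (hs : ∀ j n, MeasurePreserving ⇑(s j n) μ μ) (i0 : Fin m)
    (f : Fin m → X → ℂ) (hf : ∀ j, Gd m μ G (s j) (j ≠ i0) (f j)) : CvM μ s f := by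
  choose hf1 M f' T hm hb hl he hae using hf
  choose χ' hχ' using he
  have key := ae_of_split m hfin μ (fun a => ((Gm T i0 a : G) : Equiv.Perm X))
    (fun a => hG _ (Gm T i0 a).2) (fun x n => ∏ j, f' j (s j n x))
    (fun n => Finset.measurable_prod _ fun j _ => (hm j).comp (hs j n).measurable)
    (fun x n => norm_prod_le_one _ _ fun j _ => hb j _) (fun x => by
      classical
      exact split_of_eigM i0 T f' (fun j => if h : j ≠ i0 then χ' j h else fun _ => 0)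
        (fun j hj => by
          rw [dif_pos hj]
          exact hχ' j hj) s hl hb x)
  have hall : ∀ᵐ x ∂μ, ∀ j n, f j (s j n x) = (M j : ℂ) * f' j (s j n x) := by
    rw [ae_all_iff]
    intro j
    rw [ae_all_iff]
    exact fun n => (hs j n).quasiMeasurePreserving.ae (hae j)
  unfold CvM
  filter_upwards [key, hall] with x hx h1
  obtain ⟨L, hL⟩ := hx
  refine ⟨(∏ j, (M j : ℂ)) * L, (hL.const_mul (∏ j, (M j : ℂ))).congr fun N => ?_⟩
  unfold cav
  rw [← mul_assoc, mul_comm (∏ j, (M j : ℂ)), mul_assoc, Finset.mul_sum]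
  congr 1
  refine Finset.sum_congr rfl fun n _ => ?_
  rw [← Finset.prod_mul_distrib]
  exact Finset.prod_congr rfl fun j _ => (h1 j n).symm

/-- from the basic case to the closed span, slot by slot -/
theorem CvM_of_InE [MeasurableSpace X] {m : ℕ} (hfin : FinTh m) {μ : Measure X}
    [IsProbabilityMeasure μ] {G : Subgroup (Equiv.Perm X)} [Countable G]
    (hG : ∀ γ ∈ G, MP2 μ γ) (s : Fin m → ℤ → Equiv.Perm X)
    (hs : ∀ j n, MeasurePreserving ⇑(s j n) μ μ) (hS : ∀ j, Sg μ (s j)) (i0 : Fin m)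
    (hgd : ∀ j h, EigFun μ G h → Gd m μ G (s j) (j ≠ i0) h) (S : Finset (Fin m)) :
    ∀ f : Fin m → X → ℂ, (∀ j ∈ S, MemLp (f j) ∞ μ ∧ InE μ G (f j)) →
      (∀ j, j ∉ S → Gd m μ G (s j) (j ≠ i0) (f j)) → CvM μ s f := by
  classical
  induction S using Finset.induction_on with
  | empty =>
    intro f _ h2
    exact CvM_of_Gd hfin hG s hs i0 f fun j => h2 j (Finset.notMem_empty j)
  | insert j S hjS ih =>
    intro f h1 h2
    have hfm : ∀ k, MemLp (f k) ∞ μ := by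
      intro k
      by_cases hk : k ∈ insert j S
      · exact (h1 k hk).1
      · exact (h2 k hk).1
    obtain ⟨hjm, hjE⟩ := h1 j (Finset.mem_insert_self j S)
    rw [CvM_iff_Cv1 s f j]
    refine Cv1_of_InE hG (hs j) (hS j) (ess_bdd_prod s hs f hfm _) hjm hjE fun h hh => ?_
    rw [← CvM_update]
    refine ih _ (fun k hk => ?_) fun k hk => ?_
    · have hkj : k ≠ j := fun e => hjS (e ▸ hk)
      rw [Function.update_of_ne hkj]
      exact h1 k (Finset.mem_insert_of_mem hk)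
    · by_cases hkj : k = j
      · subst hkj
        rw [Function.update_self]
        exact hgd k h hh
      · rw [Function.update_of_ne hkj]
        exact h2 k fun e => (Finset.mem_insert.1 e).elim hkj hk

end Pool.PWM
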