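/-
PWM (MP_4d8f14_an), transfer part, module NilEnd (helper53).
The final statement for `m` functions along linear sequences in a nilpotent group, conditional on
the finite theorem: all functions, with one possible exception whose sequence consists of powers,
lie in the closed span of the eigenfunctions of the commutator subgroup.
-/
import Mathlib
import Pool.Agent.PWM.NilCl
import Pool.Agent.PWM.TrBinEnd
import Pool.Agent.NP2.Fin3

set_option autoImplicit false

open Finset MeasureTheory Filter Topology Pool.Agent.PWZ Pool.PWZ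
open scoped ENNReal commutatorElement

namespace Pool.PWM

theorem nil_finalM (m : ℕ) (hm : 2 ≤ m) (hfin : FinTh m) (X : Type) [MeasurableSpace X]
    (μ : Measure X) [IsProbabilityMeasure μ]
    (d : ℕ) (T : Fin d → Equiv.Perm X) (hT' : ∀ i, Measurable ⇑(T i).symm)
    (hT : ∀ i, MeasurePreserving (⇑(T i)) μ μ)
    (hnil : Group.IsNilpotent (Subgroup.closure (Set.range T)))
    (P : Fin d → Fin m → Polynomial ℤ) (hP0 : ∀ i j, (P i j).eval 0 = 0)
    (hP1 : ∀ i j, (P i j).natDegree ≤ 1) (f : Fin m → X → ℂ) (hf : ∀ j, MemLp (f j) ∞ μ)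
    (i0 : Fin m)
    (hE : ∀ j, InE μ (Subgroup.closure (Set.range T)) (f j) ∨
      (j = i0 ∧ ∃ V : Equiv.Perm X, ∀ n : ℤ,
        (List.ofFn fun l => T l ^ (P l j).eval n).prod = V ^ n)) :
    ∀ᵐ x ∂μ, ∃ L : ℂ, Filter.Tendsto
      (fun N : ℕ => ((2 * N + 1 : ℕ) : ℂ)⁻¹ *
        ∑ n ∈ Finset.Icc (-(N : ℤ)) (N : ℤ),
          ∏ j : Fin m, f j ((List.ofFn fun i : Fin d => T i ^ (P i j).eval n).prod x))
      Filter.atTop (nhds L) := by
  classical
  set G := Subgroup.closure (Set.range T) with hGdef
  have hTG : ∀ i, T i ∈ G := fun i => Subgroup.subset_closure ⟨i, rfl⟩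
  have hG : ∀ γ ∈ G, MP2 μ γ := by
    intro γ hγ
    induction hγ using Subgroup.closure_induction with
    | mem γ h =>
      obtain ⟨i, rfl⟩ := h
      exact MP2.of (hT' i) (hT i)
    | one => exact MP2.one
    | mul a b _ _ ha hb => exact ha.mul hb
    | inv a _ ha => exact ha.inv
  have hcount : Countable G := by
    have h1 : Function.Surjective (FreeGroup.lift T).rangeRestrict :=
      MonoidHom.rangeRestrict_surjective _
    have h2 : (FreeGroup.lift T).range = Subgroup.closure (Set.range T) := by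
      rw [FreeGroup.range_lift_eq_closure]
    rw [hGdef, ← h2]
    have : Countable (FreeGroup (Fin d)) := by
      unfold FreeGroup
      infer_instance
    exact h1.countable
  -- the sequences
  have heval : ∀ i j (n : ℤ), (P i j).eval n = (P i j).coeff 1 * n := by
    intro i j n
    have h := Polynomial.eq_X_add_C_of_natDegree_le_one (hP1 i j)
    have h0 : (P i j).coeff 0 = 0 := by
      rw [Polynomial.coeff_zero_eq_eval_zero]; exact hP0 i j
    conv_lhs => rw [h]
    simp [h0]
  let s : Fin m → ℤ → Equiv.Perm X := fun j n => (List.ofFn fun i => T i ^ (P i j).eval n).prod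
  let Ls : Fin m → List G := fun j =>
    List.ofFn fun i => (⟨T i, hTG i⟩ : G) ^ (P i j).coeff 1
  have hsL : ∀ j, s j = fun n => ((((Ls j).map fun A => A ^ n).prod : G) : Equiv.Perm X) := by
    intro j
    funext n
    show (List.ofFn fun i => T i ^ (P i j).eval n).prod =
      G.subtype ((((Ls j).map fun A => A ^ n).prod : G))
    rw [map_list_prod, List.map_map, List.map_ofFn]
    congr 2
    funext i
    simp only [Function.comp_apply, map_zpow, Subgroup.subtype_apply]
    rw [heval, zpow_mul]
  have hsG : ∀ j n, s j n ∈ G := by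
    intro j n
    rw [hsL]
    exact Subtype.coe_prop _
  have hsmp : ∀ j n, MeasurePreserving ⇑(s j n) μ μ := fun j n => (hG _ (hsG j n)).1
  have hSg : ∀ j, Sg μ (s j) := by
    intro j u hu hub
    have hTsym : ∀ i, MeasurePreserving (T i).symm μ μ := fun i => (MP2.of (hT' i) (hT i)).2
    have hu2 : MemLp u 2 μ := by
      obtain ⟨M, hM⟩ := hub
      exact MemLp.of_bound hu.aestronglyMeasurable M (Eventually.of_forall hM)
    have h := Pool.Nil.orb_conv T hT hTsym hnil (fun i => P i j) u hu2
    filter_upwards [h] with x hx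
    obtain ⟨L, hL⟩ := hx
    refine ⟨L, hL.congr fun N => ?_⟩
    unfold cav
    push_cast
    rfl
  have hgd : ∀ j h, EigFun μ G h → Gd m μ G (s j) (j ≠ i0) h := fun j h hh =>
    Gd.of_eig hm hG (Ls j) (hsL j) _ hh
  have hfin : CvM μ s f := by
    by_cases h0 : InE μ G (f i0)
    · refine CvM_of_InE hfin hG s hsmp hSg i0 hgd Finset.univ f (fun j _ => ⟨hf j, ?_⟩)
        fun j hj => absurd (Finset.mem_univ j) hj
      rcases hE j with h | ⟨h, _⟩
      · exact h
      · rw [h]; exact h0
    · obtain ⟨V, hV⟩ : ∃ V : Equiv.Perm X, ∀ n : ℤ,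
          (List.ofFn fun l => T l ^ (P l i0).eval n).prod = V ^ n := by
        rcases hE i0 with h | ⟨_, h⟩
        · exact absurd h h0
        · exact h
      have hVG : V ∈ G := by
        have h1 := hsG i0 1
        have h2 : s i0 1 = V := by
          show (List.ofFn fun l => T l ^ (P l i0).eval 1).prod = V
          rw [hV 1, zpow_one]
        rwa [h2] at h1
      have hsi : s i0 = fun n => ((⟨V, hVG⟩ : G) : Equiv.Perm X) ^ n := by
        funext n
        exact hV n
      refine CvM_of_InE hfin hG s hsmp hSg i0 hgd (Finset.univ.erase i0) f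
        (fun j hj => ⟨hf j, ?_⟩) fun j hj => ?_
      · rcases hE j with h | ⟨h, _⟩
        · exact h
        · exact absurd h (Finset.ne_of_mem_erase hj)
      · have hj' : j = i0 := by
          by_contra hne
          exact hj (Finset.mem_erase.2 ⟨hne, Finset.mem_univ j⟩)
        rw [hj']
        exact Gd.of_pow m ⟨V, hVG⟩ hsi (by simp) (hf i0)
  unfold CvM at hfin
  filter_upwards [hfin] with x hx
  obtain ⟨L, hL⟩ := hx
  exact ⟨L, hL⟩

/-- the finite theorem of the binary model gives the finite theorem -/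
theorem finTh_of_bin (m : ℕ) (h : BinTh m) : FinTh m :=
  finTh_of_finTor m (finTor_of_finFace m (finFace_of_bin m h))

/-- the statement which is handed in, for `m` functions -/
theorem nil_finalK (m : ℕ) (hm : 2 ≤ m) (hbin : BinTh m) (X : Type) [MeasurableSpace X]
    (μ : Measure X) [IsProbabilityMeasure μ]
    (d : ℕ) (T : Fin d → Equiv.Perm X) (hT' : ∀ i, Measurable ⇑(T i).symm)
    (hT : ∀ i, MeasurePreserving (⇑(T i)) μ μ)
    (hnil : Group.IsNilpotent (Subgroup.closure (Set.range T)))
    (P : Fin d → Fin m → Polynomial ℤ) (hP0 : ∀ i j, (P i j).eval 0 = 0)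
    (hP1 : ∀ i j, (P i j).natDegree ≤ 1) (f : Fin m → X → ℂ) (hf : ∀ j, MemLp (f j) ∞ μ)
    (hE : ∃ i0 : Fin m, ∀ j, NP2.InEK μ (Subgroup.closure (Set.range T)) 1 (f j) ∨
      (j = i0 ∧ ∃ V : Equiv.Perm X, ∀ n : ℤ,
        (List.ofFn fun l => T l ^ (P l j).eval n).prod = V ^ n)) :
    ∀ᵐ x ∂μ, ∃ L : ℂ, Filter.Tendsto
      (fun N : ℕ => ((2 * N + 1 : ℕ) : ℂ)⁻¹ *
        ∑ n ∈ Finset.Icc (-(N : ℤ)) (N : ℤ),
          ∏ j : Fin m, f j ((List.ofFn fun i : Fin d => T i ^ (P i j).eval n).prod x))
      Filter.atTop (nhds L) := by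
  obtain ⟨i0, hE⟩ := hE
  exact nil_finalM m hm (finTh_of_bin m hbin) X μ d T hT' hT hnil P hP0 hP1 f hf i0
    fun j => (hE j).imp (fun h => h.inE) id

end Pool.PWM
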