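/-
PWM (MP_4d8f14_an), module Struct (helper96).
Any number of functions: `m` functions as in `nil_finalK` and `r` structured ones.  A structured
function is, on some extension of the system, in the closed span of the products of a function
which is constant along its sequence and of functions which have the same values along its
sequence as along the sequence of one of the first `m` functions.
-/
import Mathlib
import Pool.Agent.PWM.NilEnd
import Pool.Agent.NP2.Fin4

set_option autoImplicit false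

open Finset MeasureTheory Filter Topology Pool.Agent.PWZ Pool.PWZ
open scoped ENNReal commutatorElement

namespace Pool.PWM

variable {X : Type}

lemma memLp_top_mul [MeasurableSpace X] {μ : Measure X} {f g : X → ℂ} (hf : MemLp f ∞ μ)
    (hg : MemLp g ∞ μ) : MemLp (fun x => f x * g x) ∞ μ :=
  MemLp.mul' hg hf

lemma memLp_top_prod [MeasurableSpace X] {μ : Measure X} [IsProbabilityMeasure μ] {ι : Type}
    (S : Finset ι) (f : ι → X → ℂ) (hf : ∀ i, MemLp (f i) ∞ μ) :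
    MemLp (fun x => ∏ i ∈ S, f i x) ∞ μ := by
  classical
  induction S using Finset.induction_on with
  | empty => simpa using memLp_const (1 : ℂ)
  | insert i S hi ih =>
    simp only [Finset.prod_insert hi]
    exact memLp_top_mul (hf i) ih

lemma memLp_top_sum [MeasurableSpace X] {μ : Measure X} {ι : Type}
    (S : Finset ι) (f : ι → X → ℂ) (hf : ∀ i, MemLp (f i) ∞ μ) :
    MemLp (fun x => ∑ i ∈ S, f i x) ∞ μ :=
  memLp_finsetSum S fun i _ => hf i

/-- an essentially bounded function is bounded almost everywhere -/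
lemma ess_bdd [MeasurableSpace X] {μ : Measure X} {f : X → ℂ} (hf : MemLp f ∞ μ) :
    ∃ M : ℝ, 0 < M ∧ ∀ᵐ x ∂μ, ‖f x‖ ≤ M := by
  obtain ⟨M, f', hM, _, fb, fe⟩ := exists_bdd' μ f hf
  refine ⟨M, hM, ?_⟩
  filter_upwards [fe] with x hx
  rw [hx, norm_mul, Complex.norm_real, Real.norm_eq_abs, abs_of_pos hM]
  exact mul_le_of_le_one_right hM.le (fb x)

/-- closure in the mean for essentially bounded functions -/
theorem Cv1.closure2 [MeasurableSpace X] {μ : Measure X} [IsProbabilityMeasure μ]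
    {s : ℤ → Equiv.Perm X} (hs : ∀ n, MeasurePreserving ⇑(s n) μ μ) (hS : Sg μ s)
    {ψ : X → ℤ → ℂ} (hψ : ∃ M : ℝ, ∀ᵐ x ∂μ, ∀ n, ‖ψ x n‖ ≤ M) {f : X → ℂ}
    (hf : MemLp f ∞ μ)
    (H : ∀ ε : ℝ, 0 < ε → ∃ f' : X → ℂ, MemLp f' ∞ μ ∧
      eLpNorm (fun x => f x - f' x) 2 μ ≤ ENNReal.ofReal ε ∧ Cv1 μ s ψ f') : Cv1 μ s ψ f := by
  obtain ⟨M, f', hM, fm, fb, fe⟩ := exists_bdd' μ f hf
  have fe' : ∀ᵐ x ∂μ, f x = (fun x => (M : ℂ) * f' x) x := fe
  refine Cv1.congr hs (f := fun x => (M : ℂ) * f' x) ?_ fe'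
  refine Cv1.closure hs hS (measurable_const.mul fm) ⟨M, fun x => ?_⟩ hψ ?_
  · rw [norm_mul, Complex.norm_real, Real.norm_eq_abs, abs_of_pos hM]
    exact mul_le_of_le_one_right hM.le (fb x)
  intro ε hε
  obtain ⟨δ, hδ, hδε⟩ : ∃ δ : ℝ, 0 < δ ∧ ENNReal.ofReal δ ≤ ε := by
    rcases eq_or_ne ε ⊤ with rfl | htop
    · exact ⟨1, one_pos, le_top⟩
    · exact ⟨ε.toReal, ENNReal.toReal_pos hε htop, ENNReal.ofReal_toReal_le⟩
  obtain ⟨h, hh, hn, hc⟩ := H δ hδ
  obtain ⟨M', h', hM', hm', hb', he'⟩ := exists_bdd' μ h hh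
  refine ⟨fun x => (M' : ℂ) * h' x, measurable_const.mul hm', ⟨M', fun x => ?_⟩, ?_, ?_⟩
  · rw [norm_mul, Complex.norm_real, Real.norm_eq_abs, abs_of_pos hM']
    exact mul_le_of_le_one_right hM'.le (hb' x)
  · have h1 : ∫⁻ x, ‖(M : ℂ) * f' x - (M' : ℂ) * h' x‖ₑ ∂μ = ∫⁻ x, ‖f x - h x‖ₑ ∂μ := by
      apply lintegral_congr_ae
      filter_upwards [fe, he'] with x e1 e2
      simp only [e1, e2]
    rw [h1, ← eLpNorm_one_eq_lintegral_enorm]
    have hmeas : AEStronglyMeasurable (fun x => f x - h x) μ :=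
      hf.aestronglyMeasurable.sub hh.aestronglyMeasurable
    exact (eLpNorm_le_eLpNorm_of_exponent_le (by norm_num) hmeas).trans (hn.trans hδε)
  · refine hc.congr hs ?_
    filter_upwards [he'] with x hx
    exact hx.symm

/-- structured functions along the sequence `s`, relative to the sequences `σ`, the class `W` of
weights and the classes `A` of functions: the closed span of the products of bounded functions
`h₀`, constant along `s` up to a weight, and `h j` of class `A j`, with the same values along `s`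
as along `σ j` up to a weight -/
def Struc [MeasurableSpace X] {m : ℕ} (μ : Measure X) (W : (X → ℤ → ℂ) → Prop)
    (A : Fin m → (X → ℂ) → Prop)
    (σ : Fin m → ℤ → Equiv.Perm X) (s : ℤ → Equiv.Perm X) (f : X → ℂ) : Prop :=
  ∀ ε : ℝ, 0 < ε → ∃ (l : ℕ) (h₀ : Fin l → X → ℂ) (h : Fin l → Fin m → X → ℂ),
    (∀ i, MemLp (h₀ i) ∞ μ ∧ ∃ u, W u ∧ ∀ n, ∀ᵐ x ∂μ, h₀ i (s n x) = u x n * h₀ i x) ∧
    (∀ i j, MemLp (h i j) ∞ μ ∧ A j (h i j) ∧
      ∃ u, W u ∧ ∀ n, ∀ᵐ x ∂μ, h i j (s n x) = u x n * h i j (σ j n x)) ∧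
    eLpNorm (fun x => f x - ∑ i, h₀ i x * ∏ j, h i j x) 2 μ ≤ ENNReal.ofReal ε

/-- almost everywhere convergence for `m + r` functions, with the weight `w` -/
def CvS [MeasurableSpace X] {m r : ℕ} (μ : Measure X) (w : X → ℤ → ℂ)
    (σ : Fin m → ℤ → Equiv.Perm X)
    (τ : Fin r → ℤ → Equiv.Perm X) (f : Fin m → X → ℂ) (g : Fin r → X → ℂ) : Prop :=
  ∀ᵐ x ∂μ, ∃ L : ℂ, Tendsto (fun N : ℕ =>
    cav (fun n => w x n * ((∏ j, f j (σ j n x)) * ∏ j, g j (τ j n x))) N) atTop (𝓝 L)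

/-- a class of weights -/
structure WCl [MeasurableSpace X] (μ : Measure X) (W : (X → ℤ → ℂ) → Prop) : Prop where
  bdd : ∀ w, W w → ∀ᵐ x ∂μ, ∀ n, ‖w x n‖ ≤ 1
  mul : ∀ w w', W w → W w' → W fun x n => w x n * w' x n
  one : W fun _ _ => 1

lemma WCl.prod [MeasurableSpace X] {μ : Measure X} {W : (X → ℤ → ℂ) → Prop} (hW : WCl μ W)
    {ι : Type} (S : Finset ι) (w : ι → X → ℤ → ℂ) (h : ∀ i, W (w i)) :
    W fun x n => ∏ i ∈ S, w i x n := by
  classical
  induction S using Finset.induction_on with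
  | empty => simpa using hW.one
  | insert i S hi ih =>
    simp only [Finset.prod_insert hi]
    exact hW.mul _ _ (h i) ih

/-- adding structured functions one by one -/
theorem CvS_of_struc [MeasurableSpace X] {m : ℕ} {μ : Measure X} [IsProbabilityMeasure μ]
    {W : (X → ℤ → ℂ) → Prop} (hW : WCl μ W)
    (σ : Fin m → ℤ → Equiv.Perm X) (hσ : ∀ j n, MeasurePreserving ⇑(σ j n) μ μ)
    (A : Fin m → (X → ℂ) → Prop)
    (hA : ∀ j f h, MemLp f ∞ μ → MemLp h ∞ μ → A j f → A j h → A j (fun x => f x * h x))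
    (base : ∀ w, W w → ∀ f : Fin m → X → ℂ, (∀ j, MemLp (f j) ∞ μ ∧ A j (f j)) →
      ∀ᵐ x ∂μ, ∃ L : ℂ, Tendsto (fun N : ℕ =>
        cav (fun n => w x n * ∏ j, f j (σ j n x)) N) atTop (𝓝 L)) :
    ∀ (r : ℕ) (τ : Fin r → ℤ → Equiv.Perm X), (∀ j n, MeasurePreserving ⇑(τ j n) μ μ) →
      (∀ j, Sg μ (τ j)) → ∀ w, W w → ∀ (f : Fin m → X → ℂ) (g : Fin r → X → ℂ),
      (∀ j, MemLp (f j) ∞ μ ∧ A j (f j)) →
      (∀ j, MemLp (g j) ∞ μ ∧ Struc μ W A σ (τ j) (g j)) →
      CvS μ w σ τ f g := by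
  intro r
  induction r with
  | zero =>
    intro τ _ _ w hw f g hf _
    have h := base w hw f hf
    unfold CvS
    simpa using h
  | succ r ih =>
    intro τ hτ hS w hw f g hf hg
    obtain ⟨ψ, hψ⟩ : ∃ ψ : X → ℤ → ℂ, ψ = fun x n =>
      w x n * ((∏ j, f j (σ j n x)) * ∏ j : Fin r, g j.castSucc (τ j.castSucc n x)) := ⟨_, rfl⟩
    have hψb : ∃ M : ℝ, ∀ᵐ x ∂μ, ∀ n, ‖ψ x n‖ ≤ M := by
      obtain ⟨M1, h1⟩ := ess_bdd_prod σ hσ f (fun j => (hf j).1) Finset.univ
      obtain ⟨M2, h2⟩ := ess_bdd_prod (fun j : Fin r => τ j.castSucc)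
        (fun j n => hτ j.castSucc n) (fun j : Fin r => g j.castSucc)
        (fun j => (hg j.castSucc).1) Finset.univ
      refine ⟨1 * (M1 * M2), ?_⟩
      filter_upwards [h1, h2, hW.bdd w hw] with x e1 e2 e3 n
      rw [hψ]
      simp only [norm_mul]
      have a1 : 0 ≤ M1 := (norm_nonneg _).trans (e1 n)
      refine mul_le_mul (e3 n) (mul_le_mul (e1 n) (e2 n) (norm_nonneg _) a1) (by positivity)
        zero_le_one
    have key : Cv1 μ (τ (Fin.last r)) ψ (g (Fin.last r)) := by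
      obtain ⟨hgm, hgS⟩ := hg (Fin.last r)
      refine Cv1.closure2 (hτ _) (hS _) hψb hgm fun ε hε => ?_
      obtain ⟨l, h₀, h, H0, H1, H2⟩ := hgS ε hε
      refine ⟨fun x => ∑ i, h₀ i x * ∏ j, h i j x, ?_, H2, ?_⟩
      · exact memLp_top_sum _ _ fun i =>
          memLp_top_mul (H0 i).1 (memLp_top_prod _ _ fun j => (H1 i j).1)
      · refine Cv1.sum (fun i x => h₀ i x * ∏ j, h i j x) fun i => ?_
        obtain ⟨_, u₀, hu₀, H0'⟩ := H0 i
        choose hm1 hA1 u hu H1' using H1 i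
        have hw' : W fun x n => w x n * (u₀ x n * ∏ j, u j x n) :=
          hW.mul _ _ hw (hW.mul _ _ hu₀ (hW.prod _ _ hu))
        have h1 := ih (fun j => τ j.castSucc) (fun j n => hτ j.castSucc n)
          (fun j => hS j.castSucc) _ hw' (fun j x => f j x * h i j x) (fun j => g j.castSucc)
          (fun j => ⟨memLp_top_mul (hf j).1 (hm1 j),
            hA j _ _ (hf j).1 (hm1 j) (hf j).2 (hA1 j)⟩) fun j => hg j.castSucc
        have e0 : ∀ᵐ x ∂μ, ∀ n, h₀ i (τ (Fin.last r) n x) = u₀ x n * h₀ i x := by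
          rw [ae_all_iff]; exact H0'
        have e1 : ∀ᵐ x ∂μ, ∀ j n, h i j (τ (Fin.last r) n x) = u j x n * h i j (σ j n x) := by
          rw [ae_all_iff]; intro j; rw [ae_all_iff]; exact H1' j
        unfold CvS at h1
        unfold Cv1
        filter_upwards [h1, e0, e1] with x hx a0 a1
        obtain ⟨L, hL⟩ := hx
        refine ⟨h₀ i x * L, (hL.const_mul (h₀ i x)).congr fun N => ?_⟩
        unfold cav
        rw [← mul_assoc, mul_comm (h₀ i x), mul_assoc, Finset.mul_sum]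
        congr 1
        refine Finset.sum_congr rfl fun n _ => ?_
        rw [hψ]
        simp only [a0, a1, Finset.prod_mul_distrib]
        ring
    unfold Cv1 at key
    unfold CvS
    filter_upwards [key] with x hx
    obtain ⟨L, hL⟩ := hx
    refine ⟨L, hL.congr fun N => ?_⟩
    congr 1
    funext n
    rw [Fin.prod_univ_castSucc, hψ]
    ring

/-! ### products of eigenfunctions -/

lemma EigK_mul [MeasurableSpace X] {μ : Measure X} {G : Subgroup (Equiv.Perm X)} {k : ℕ}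
    {f g : X → ℂ} (hf : NP2.EigK μ G k f) (hg : NP2.EigK μ G k g) :
    NP2.EigK μ G k (fun x => f x * g x) := by
  obtain ⟨hf0, χ, hf1, hf2, hf3⟩ := hf
  obtain ⟨hg0, ξ, hg1, hg2, hg3⟩ := hg
  refine ⟨memLp_top_mul hf0 hg0, fun ν => χ ν * ξ ν, fun ν hν => ?_, fun γ hγ ν hν => ?_,
    fun ν hν => ?_⟩
  · rw [norm_mul, hf1 ν hν, hg1 ν hν, one_mul]
  · simp only [hf2 γ hγ ν hν, hg2 γ hγ ν hν]
  · filter_upwards [hf3 ν hν, hg3 ν hν] with x e1 e2
    rw [e1, e2]
    ring

lemma eLpNorm_mul_le_of_bdd [MeasurableSpace X] {μ : Measure X} {f g : X → ℂ} {C : ℝ}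
    (hg : ∀ᵐ x ∂μ, ‖g x‖ ≤ C) :
    eLpNorm (fun x => f x * g x) 2 μ ≤ ENNReal.ofReal C * eLpNorm f 2 μ := by
  refine eLpNorm_le_mul_eLpNorm_of_ae_le_mul ?_ 2
  filter_upwards [hg] with x hx
  rw [norm_mul, mul_comm]
  exact mul_le_mul_of_nonneg_right hx (norm_nonneg _)

lemma InEK_mul [MeasurableSpace X] {μ : Measure X} [IsProbabilityMeasure μ]
    {G : Subgroup (Equiv.Perm X)} {k : ℕ}
    {f g : X → ℂ} (hfm : MemLp f ∞ μ) (hgm : MemLp g ∞ μ) (hf : NP2.InEK μ G k f)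
    (hg : NP2.InEK μ G k g) : NP2.InEK μ G k (fun x => f x * g x) := by
  intro ε hε
  obtain ⟨Cg, hCg, hgb⟩ := ess_bdd hgm
  obtain ⟨a, u, hu, hun⟩ := hf (ε / (2 * Cg)) (by positivity)
  have hsm : MemLp (fun x => ∑ i, u i x) ∞ μ := memLp_top_sum _ _ fun i => (hu i).1
  obtain ⟨C, hC, hb⟩ := ess_bdd hsm
  obtain ⟨b, v, hv, hvn⟩ := hg (ε / (2 * C)) (by positivity)
  refine ⟨a * b, fun i x => u (finProdFinEquiv.symm i).1 x * v (finProdFinEquiv.symm i).2 x,
    fun i => EigK_mul (hu _) (hv _), ?_⟩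
  have h1 : (fun x => f x * g x -
      ∑ i, u (finProdFinEquiv.symm i).1 x * v (finProdFinEquiv.symm i).2 x) =
      (fun x => (f x - ∑ i, u i x) * g x) + fun x => (g x - ∑ j, v j x) * ∑ i, u i x := by
    funext x
    have h2 : ∑ i : Fin (a * b),
        u (finProdFinEquiv.symm i).1 x * v (finProdFinEquiv.symm i).2 x =
        (∑ i, u i x) * ∑ j, v j x := by
      rw [Finset.sum_mul_sum, ← Fintype.sum_prod_type' (f := fun i j => u i x * v j x)]
      exact Equiv.sum_comp finProdFinEquiv.symm (fun p : Fin a × Fin b => u p.1 x * v p.2 x)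
    rw [h2]
    simp only [Pi.add_apply]
    ring
  have hum : MemLp (fun x => f x - ∑ i, u i x) ∞ μ := hfm.sub hsm
  have hvm : MemLp (fun x => g x - ∑ j, v j x) ∞ μ :=
    hgm.sub (memLp_top_sum _ _ fun i => (hv i).1)
  rw [h1]
  refine (eLpNorm_add_le (memLp_top_mul hum hgm).aestronglyMeasurable
    (memLp_top_mul hvm hsm).aestronglyMeasurable (by norm_num)).trans ?_
  have e1 : eLpNorm (fun x => (f x - ∑ i, u i x) * g x) 2 μ ≤ ENNReal.ofReal (ε / 2) := by
    refine (eLpNorm_mul_le_of_bdd hgb).trans ((mul_le_mul_right hun _).trans ?_)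
    rw [← ENNReal.ofReal_mul hCg.le]
    refine ENNReal.ofReal_le_ofReal (le_of_eq ?_)
    field_simp
  have e2 : eLpNorm (fun x => (g x - ∑ j, v j x) * ∑ i, u i x) 2 μ ≤ ENNReal.ofReal (ε / 2) := by
    refine (eLpNorm_mul_le_of_bdd hb).trans ((mul_le_mul_right hvn _).trans ?_)
    rw [← ENNReal.ofReal_mul hC.le]
    refine ENNReal.ofReal_le_ofReal (le_of_eq ?_)
    field_simp
  refine (add_le_add e1 e2).trans ?_
  rw [← ENNReal.ofReal_add (by positivity) (by positivity)]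
  exact ENNReal.ofReal_le_ofReal (le_of_eq (by ring))

/-! ### phases -/

/-- `u x n = e(Φ_x(n))`, the degree of `Φ_x` is at most `m`, and `u` is `G`-invariant -/
def IsPh [MeasurableSpace X] (m : ℕ) (μ : Measure X) (G : Subgroup (Equiv.Perm X))
    (u : X → ℤ → ℂ) : Prop :=
  (∀ n, AEStronglyMeasurable (fun x => u x n) μ) ∧
    (∀ γ ∈ G, ∀ n, ∀ᵐ x ∂μ, u (γ x) n = u x n) ∧
    ∀ᵐ x ∂μ, ∃ Φ : Polynomial ℝ, Φ.natDegree ≤ m ∧
      ∀ n : ℤ, u x n = Complex.exp (2 * Real.pi * Complex.I * (Φ.eval (n : ℝ) : ℝ))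

lemma wcl_isPh [MeasurableSpace X] (m : ℕ) (μ : Measure X) (G : Subgroup (Equiv.Perm X)) :
    WCl μ (IsPh m μ G) where
  bdd := by
    intro w hw
    filter_upwards [hw.2.2] with x hx n
    obtain ⟨Φ, _, h⟩ := hx
    rw [h n]
    have h1 : 2 * (Real.pi : ℂ) * Complex.I * ((Φ.eval (n : ℝ) : ℝ) : ℂ) =
        ((2 * Real.pi * Φ.eval (n : ℝ) : ℝ) : ℂ) * Complex.I := by
      push_cast; ring
    rw [h1, Complex.norm_exp_ofReal_mul_I]
  mul := by
    intro w w' h h'
    refine ⟨fun n => (h.1 n).mul (h'.1 n), fun γ hγ n => ?_, ?_⟩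
    · filter_upwards [h.2.1 γ hγ n, h'.2.1 γ hγ n] with x e1 e2
      rw [e1, e2]
    · filter_upwards [h.2.2, h'.2.2] with x e1 e2
      obtain ⟨Φ, h1, h2⟩ := e1
      obtain ⟨Ψ, h3, h4⟩ := e2
      refine ⟨Φ + Ψ, (Polynomial.natDegree_add_le _ _).trans (max_le h1 h3), fun n => ?_⟩
      rw [h2, h4, ← Complex.exp_add, Polynomial.eval_add]
      congr 1
      push_cast
      ring
  one := by
    refine ⟨fun n => aestronglyMeasurable_const, fun γ _ n => Eventually.of_forall fun x => rfl,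
      Eventually.of_forall fun x => ⟨0, by simp, fun n => by simp⟩⟩

/-! ### systems -/

/-- the sequence of the products of the powers of the maps with polynomial exponents -/
def sq {d : ℕ} (T : Fin d → Equiv.Perm X) (P : Fin d → Polynomial ℤ) (n : ℤ) : Equiv.Perm X :=
  (List.ofFn fun i => T i ^ (P i).eval n).prod

/-- `f` is in the closed span of the eigenfunctions of the commutator subgroup, or `j` is the
exceptional index and the sequence consists of the powers of one map -/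
def Adm [MeasurableSpace X] {m : ℕ} (μ : Measure X) (G : Subgroup (Equiv.Perm X)) (i0 : Fin m)
    (σ : Fin m → ℤ → Equiv.Perm X) (j : Fin m) (f : X → ℂ) : Prop :=
  NP2.InEK μ G 1 f ∨ (j = i0 ∧ ∃ V : Equiv.Perm X, ∀ n : ℤ, σ j n = V ^ n)

/-- the weighted form of `nil_finalM` -/
def BaseW (m : ℕ) : Prop :=
  ∀ (X : Type) [MeasurableSpace X] (μ : Measure X) [IsProbabilityMeasure μ]
    (d : ℕ) (T : Fin d → Equiv.Perm X), (∀ i, Measurable ⇑(T i).symm) →
    (∀ i, MeasurePreserving (⇑(T i)) μ μ) →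
    Group.IsNilpotent (Subgroup.closure (Set.range T)) →
    ∀ (P : Fin d → Fin m → Polynomial ℤ), (∀ i j, (P i j).eval 0 = 0) →
    (∀ i j, (P i j).natDegree ≤ 1) → ∀ (f : Fin m → X → ℂ), (∀ j, MemLp (f j) ∞ μ) →
    ∀ i0 : Fin m, (∀ j, Adm μ (Subgroup.closure (Set.range T)) i0
      (fun j => sq T fun i => P i j) j (f j)) →
    ∀ u : X → ℤ → ℂ, IsPh m μ (Subgroup.closure (Set.range T)) u →
    ∀ᵐ x ∂μ, ∃ L : ℂ, Tendsto (fun N : ℕ =>
      cav (fun n => u x n * ∏ j, f j (sq T (fun i => P i j) n x)) N) atTop (𝓝 L)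

/-- everything which is assumed about the maps -/
structure SysM [MeasurableSpace X] (μ : Measure X) {d : ℕ} (T : Fin d → Equiv.Perm X) : Prop where
  ms : ∀ i, Measurable ⇑(T i).symm
  mp : ∀ i, MeasurePreserving (⇑(T i)) μ μ
  nil : Group.IsNilpotent (Subgroup.closure (Set.range T))

lemma SysM.mp2 [MeasurableSpace X] {μ : Measure X} {d : ℕ} {T : Fin d → Equiv.Perm X}
    (h : SysM μ T) (γ : Equiv.Perm X) (hγ : γ ∈ Subgroup.closure (Set.range T)) : MP2 μ γ := by
  induction hγ using Subgroup.closure_induction with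
  | mem γ h' =>
    obtain ⟨i, rfl⟩ := h'
    exact MP2.of (h.ms i) (h.mp i)
  | one => exact MP2.one
  | mul a b _ _ ha hb => exact ha.mul hb
  | inv a _ ha => exact ha.inv

lemma sq_mem {d : ℕ} (T : Fin d → Equiv.Perm X) (P : Fin d → Polynomial ℤ) (n : ℤ) :
    sq T P n ∈ Subgroup.closure (Set.range T) := by
  refine Subgroup.list_prod_mem _ fun g hg => ?_
  rw [List.mem_ofFn] at hg
  obtain ⟨i, rfl⟩ := hg
  have hi : T i ∈ Subgroup.closure (Set.range T) := Subgroup.subset_closure ⟨i, rfl⟩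
  exact Subgroup.zpow_mem _ hi _

lemma SysM.sg [MeasurableSpace X] {μ : Measure X} [IsProbabilityMeasure μ] {d : ℕ}
    {T : Fin d → Equiv.Perm X} (h : SysM μ T) (P : Fin d → Polynomial ℤ) : Sg μ (sq T P) := by
  intro u hu hub
  have hTsym : ∀ i, MeasurePreserving (T i).symm μ μ := fun i => (MP2.of (h.ms i) (h.mp i)).2
  have hu2 : MemLp u 2 μ := by
    obtain ⟨M, hM⟩ := hub
    exact MemLp.of_bound hu.aestronglyMeasurable M (Eventually.of_forall hM)
  have h1 := Pool.Nil.orb_conv T h.mp hTsym h.nil P u hu2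
  filter_upwards [h1] with x hx
  obtain ⟨L, hL⟩ := hx
  refine ⟨L, hL.congr fun N => ?_⟩
  unfold cav
  push_cast
  rfl

/-- **`m + r` functions on one system** -/
theorem struct_sys (m : ℕ) (hb : BaseW m) (X : Type) [MeasurableSpace X] (μ : Measure X)
    [IsProbabilityMeasure μ] (d : ℕ) (T : Fin d → Equiv.Perm X) (hT : SysM μ T) (r : ℕ)
    (P : Fin d → Fin (m + r) → Polynomial ℤ) (hP0 : ∀ i j, (P i j).eval 0 = 0)
    (hP1 : ∀ i j, (P i (Fin.castAdd r j)).natDegree ≤ 1)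
    (f : Fin (m + r) → X → ℂ) (hf : ∀ j, MemLp (f j) ∞ μ) (i0 : Fin m)
    (hA : ∀ j : Fin m, Adm μ (Subgroup.closure (Set.range T)) i0
      (fun j => sq T fun i => P i (Fin.castAdd r j)) j (f (Fin.castAdd r j)))
    (hS : ∀ j : Fin r, Struc μ (IsPh m μ (Subgroup.closure (Set.range T)))
      (Adm μ (Subgroup.closure (Set.range T)) i0
        (fun j => sq T fun i => P i (Fin.castAdd r j)))
      (fun j => sq T fun i => P i (Fin.castAdd r j))
      (sq T fun i => P i (Fin.natAdd m j)) (f (Fin.natAdd m j)))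
    (u : X → ℤ → ℂ) (hu : IsPh m μ (Subgroup.closure (Set.range T)) u) :
    ∀ᵐ x ∂μ, ∃ L : ℂ, Tendsto (fun N : ℕ =>
      cav (fun n => u x n * ∏ j, f j (sq T (fun i => P i j) n x)) N) atTop (𝓝 L) := by
  have hsm : ∀ (Q : Fin d → Polynomial ℤ) (n : ℤ), MeasurePreserving ⇑(sq T Q n) μ μ :=
    fun Q n => (hT.mp2 _ (sq_mem T Q n)).1
  have h := CvS_of_struc (wcl_isPh m μ (Subgroup.closure (Set.range T)))
    (fun j => sq T fun i => P i (Fin.castAdd r j)) (fun j n => hsm _ n)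
    (Adm μ (Subgroup.closure (Set.range T)) i0 fun j => sq T fun i => P i (Fin.castAdd r j))
    (fun j f h hf hh a b => by
      rcases a with a | a
      · rcases b with b | b
        · exact Or.inl (InEK_mul hf hh a b)
        · exact Or.inr b
      · exact Or.inr a)
    (fun w hw f hf => hb X μ d T hT.ms hT.mp hT.nil (fun i j => P i (Fin.castAdd r j))
      (fun i j => hP0 _ _) hP1 f (fun j => (hf j).1) i0 (fun j => (hf j).2) w hw)
    r (fun j => sq T fun i => P i (Fin.natAdd m j)) (fun j n => hsm _ n) (fun j => hT.sg _)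
    u hu (fun j => f (Fin.castAdd r j))
    (fun j => f (Fin.natAdd m j)) (fun j => ⟨hf _, hA j⟩) (fun j => ⟨hf _, hS j⟩)
  unfold CvS at h
  filter_upwards [h] with x hx
  obtain ⟨L, hL⟩ := hx
  refine ⟨L, hL.congr fun N => ?_⟩
  congr 1
  funext n
  rw [Fin.prod_univ_add]

/-! ### extensions -/

/-- a polynomial phase of degree at most `m` -/
lemma isPh_const [MeasurableSpace X] {m : ℕ} (μ : Measure X) (G : Subgroup (Equiv.Perm X))
    {Φ : Polynomial ℝ} (hΦ : Φ.natDegree ≤ m) :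
    IsPh m μ G fun _ n => Complex.exp (2 * Real.pi * Complex.I * (Φ.eval (n : ℝ) : ℝ)) :=
  ⟨fun n => aestronglyMeasurable_const, fun γ _ n => Eventually.of_forall fun x => rfl,
    Eventually.of_forall fun x => ⟨Φ, hΦ, fun n => rfl⟩⟩

/-- `A` on the extension and `B` are compatible -/
lemma push_sq {Y : Type} [MeasurableSpace Y] {ν : Measure Y} (π : Y → X) {d : ℕ}
    {S : Fin d → Equiv.Perm Y} {T : Fin d → Equiv.Perm X} (hS : ∀ i, MP2 ν (S i))
    (h : ∀ i, ∀ᵐ y ∂ν, π (S i y) = T i (π y)) (P : Fin d → Polynomial ℤ) (n : ℤ) :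
    ∀ᵐ y ∂ν, π (sq S P n y) = sq T P n (π y) := by
  let H : Subgroup (Equiv.Perm Y × Equiv.Perm X) :=
    { carrier := {g | MP2 ν g.1 ∧ ∀ᵐ y ∂ν, π (g.1 y) = g.2 (π y)}
      mul_mem' := by
        rintro a b ⟨ha, ha'⟩ ⟨hb, hb'⟩
        refine ⟨ha.mul hb, ?_⟩
        filter_upwards [hb.1.quasiMeasurePreserving.ae ha', hb'] with y e1 e2
        simp only [Prod.fst_mul, Prod.snd_mul, Equiv.Perm.mul_apply]
        rw [e1, e2]
      one_mem' := ⟨MP2.one, Eventually.of_forall fun y => rfl⟩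
      inv_mem' := by
        rintro a ⟨ha, ha'⟩
        refine ⟨ha.inv, ?_⟩
        filter_upwards [ha.2.quasiMeasurePreserving.ae ha'] with y e1
        have e2 : a.1 (a.1⁻¹ y) = y := a.1.apply_symm_apply y
        rw [e2] at e1
        show π (a.1⁻¹ y) = a.2⁻¹ (π y)
        rw [e1]
        exact (a.2.symm_apply_apply _).symm }
  have h1 : (List.ofFn fun i => ((S i, T i) : Equiv.Perm Y × Equiv.Perm X) ^ (P i).eval n).prod
      ∈ H := by
    refine Subgroup.list_prod_mem _ fun g hg => ?_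
    rw [List.mem_ofFn] at hg
    obtain ⟨i, rfl⟩ := hg
    have hi : ((S i, T i) : Equiv.Perm Y × Equiv.Perm X) ∈ H := ⟨hS i, h i⟩
    exact Subgroup.zpow_mem _ hi _
  have h2 : (List.ofFn fun i => ((S i, T i) : Equiv.Perm Y × Equiv.Perm X) ^ (P i).eval n).prod =
      (sq S P n, sq T P n) := by
    refine Prod.ext ?_ ?_
    · show (MonoidHom.fst _ _) _ = _
      rw [map_list_prod, List.map_ofFn]
      rfl
    · show (MonoidHom.snd _ _) _ = _
      rw [map_list_prod, List.map_ofFn]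
      rfl
  rw [h2] at h1
  exact h1.2

lemma measurable_cav [MeasurableSpace X] (φ : X → ℤ → ℂ) (h : ∀ n, Measurable fun x => φ x n)
    (N : ℕ) : Measurable fun x => cav (φ x) N := by
  unfold cav
  exact measurable_const.mul (Finset.measurable_fun_sum _ fun n _ => h n)

/-- **`m + r` functions, with an extension** -/
theorem struct_ext (m : ℕ) (hb : BaseW m) (X : Type) [MeasurableSpace X] (μ : Measure X)
    [IsProbabilityMeasure μ] (d : ℕ) (T : Fin d → Equiv.Perm X)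
    (hT' : ∀ i, Measurable ⇑(T i).symm) (hT : ∀ i, MeasurePreserving (⇑(T i)) μ μ) (r : ℕ)
    (P : Fin d → Fin (m + r) → Polynomial ℤ) (hP0 : ∀ i j, (P i j).eval 0 = 0)
    (hP1 : ∀ i j, (P i (Fin.castAdd r j)).natDegree ≤ 1)
    (f : Fin (m + r) → X → ℂ) (hf : ∀ j, MemLp (f j) ∞ μ)
    (Y : Type) [MeasurableSpace Y] (ν : Measure Y) [IsProbabilityMeasure ν]
    (S : Fin d → Equiv.Perm Y) (hS : SysM ν S) (π : Y → X) (hπ : MeasurePreserving π ν μ)
    (hπS : ∀ i, ∀ᵐ y ∂ν, π (S i y) = T i (π y)) (i0 : Fin m)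
    (hA : ∀ j : Fin m, Adm ν (Subgroup.closure (Set.range S)) i0
      (fun j => sq S fun i => P i (Fin.castAdd r j)) j (fun y => f (Fin.castAdd r j) (π y)))
    (hSt : ∀ j : Fin r, Struc ν (IsPh m ν (Subgroup.closure (Set.range S)))
      (Adm ν (Subgroup.closure (Set.range S)) i0
        (fun j => sq S fun i => P i (Fin.castAdd r j)))
      (fun j => sq S fun i => P i (Fin.castAdd r j))
      (sq S fun i => P i (Fin.natAdd m j)) (fun y => f (Fin.natAdd m j) (π y)))
    (Φ : Polynomial ℝ) (hΦ : Φ.natDegree ≤ m) :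
    ∀ᵐ x ∂μ, ∃ L : ℂ, Tendsto (fun N : ℕ =>
      cav (fun n => Complex.exp (2 * Real.pi * Complex.I * (Φ.eval (n : ℝ) : ℝ)) *
        ∏ j, f j (sq T (fun i => P i j) n x)) N) atTop (𝓝 L) := by
  have hT2 : ∀ γ ∈ Subgroup.closure (Set.range T), MP2 μ γ := by
    intro γ hγ
    induction hγ using Subgroup.closure_induction with
    | mem γ h' =>
      obtain ⟨i, rfl⟩ := h'
      exact MP2.of (hT' i) (hT i)
    | one => exact MP2.one
    | mul a b _ _ ha hb => exact ha.mul hb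
    | inv a _ ha => exact ha.inv
  have hsm : ∀ (Q : Fin d → Polynomial ℤ) (n : ℤ), MeasurePreserving ⇑(sq T Q n) μ μ :=
    fun Q n => (hT2 _ (sq_mem T Q n)).1
  -- measurable versions
  have hv : ∀ j, ∃ f' : X → ℂ, Measurable f' ∧ ∀ᵐ x ∂μ, f j x = f' x := by
    intro j
    exact ⟨(hf j).1.mk _, (hf j).1.stronglyMeasurable_mk.measurable, (hf j).1.ae_eq_mk⟩
  choose f' hf'm hf'e using hv
  have h1 : ∀ᵐ x ∂μ, ∀ j n, f j (sq T (fun i => P i j) n x) =
      f' j (sq T (fun i => P i j) n x) := by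
    rw [ae_all_iff]
    intro j
    rw [ae_all_iff]
    exact fun n => (hsm _ n).quasiMeasurePreserving.ae (hf'e j)
  set C : Set X := {x | ∃ L : ℂ, Tendsto (fun N : ℕ =>
      cav (fun n => Complex.exp (2 * Real.pi * Complex.I * (Φ.eval (n : ℝ) : ℝ)) *
        ∏ j, f' j (sq T (fun i => P i j) n x)) N) atTop (𝓝 L)} with hC
  have hCm : MeasurableSet C := by
    refine measurableSet_exists_tendsto fun N => ?_
    exact measurable_cav _ (fun n => measurable_const.mul (Finset.measurable_prod _ fun j _ =>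
      (hf'm j).comp (hsm _ n).measurable)) N
  have h2 := struct_sys m hb Y ν d S hS r P hP0 hP1 (fun j y => f j (π y))
    (fun j => (hf j).comp_measurePreserving hπ) i0 hA hSt _
    (isPh_const ν (Subgroup.closure (Set.range S)) hΦ)
  have h3 : ∀ᵐ y ∂ν, ∀ j n, π (sq S (fun i => P i j) n y) = sq T (fun i => P i j) n (π y) := by
    rw [ae_all_iff]
    intro j
    rw [ae_all_iff]
    exact fun n => push_sq π (fun i => MP2.of (hS.ms i) (hS.mp i)) hπS _ n
  have h4 : ∀ᵐ y ∂ν, π y ∈ C := by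
    filter_upwards [h2, h3, hπ.quasiMeasurePreserving.ae h1] with y e2 e3 e1
    obtain ⟨L, hL⟩ := e2
    refine ⟨L, hL.congr fun N => ?_⟩
    congr 1
    funext n
    congr 1
    refine Finset.prod_congr rfl fun j _ => ?_
    rw [e3, e1]
  have h5 : ∀ᵐ x ∂μ, x ∈ C := by
    rw [← hπ.map_eq]
    exact (ae_map_iff hπ.measurable.aemeasurable hCm).2 h4
  filter_upwards [h1, h5] with x e1 e5
  obtain ⟨L, hL⟩ := e5
  refine ⟨L, hL.congr fun N => ?_⟩
  congr 1
  funext n
  congr 1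
  exact Finset.prod_congr rfl fun j _ => (e1 j n).symm

end Pool.PWM
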