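/-
PWM (MP_4d8f14_an), transfer part, module NilW (helper35).
`m` functions along linear sequences in a nilpotent group, with a phase of degree at most `m`
which is constant along the orbits of the group.
-/
import Pool.Agent.PWM.Struct
import Pool.Agent.NPK.Fac
import Pool.Agent.NPK.Ev2

set_option autoImplicit false

open Finset MeasureTheory Filter Topology Pool.Agent.PWZ Pool.PWZ
open NPK (df dh df_dh df_iter_zero_of_le inv_set ag measurable_ag toCircle_ag)
open scoped ENNReal commutatorElement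

namespace Pool.PWM

noncomputable section

variable {X : Type}

/-- phases of degree at most `|S|` split over the faces in `S` -/
lemma phase_faces {m : ℕ} (S : Finset (Fin m)) : ∀ Φ : ℤ → UnitAddCircle,
    df^[S.card + 1] Φ = 0 →
    ∃ (C : (Fin m → ℤ) → UnitAddCircle) (A : Fin m → (Fin m → ℤ) → UnitAddCircle),
      ∀ (a : Fin m → ℤ) (n : ℤ), Φ (sg a + n - ∑ i ∈ S, a i) =
        C a + ∑ i ∈ S, A i (Function.update a i (a i + n)) := by
  classical
  induction S using Finset.induction_on with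
  | empty =>
    intro Φ hΦ
    refine ⟨fun _ => Φ 0, fun _ _ => 0, fun a n => ?_⟩
    rw [Finset.sum_empty, Finset.sum_empty, add_zero, sub_zero]
    have h1 := congrFun (df_dh (k := 0) hΦ (sg a + n)) 0
    have h2 : Φ (0 + (sg a + n)) - Φ 0 = 0 := h1
    rw [zero_add] at h2
    exact sub_eq_zero.1 h2
  | insert j S hj ih =>
    intro Φ hΦ
    rw [Finset.card_insert_of_notMem hj] at hΦ
    choose C A hCA using fun t : ℤ => ih (dh (-t) Φ) (df_dh hΦ (-t))
    refine ⟨fun a => C (a j) a, fun i w => if i = j then Φ (sg w - ∑ k ∈ S, w k) else A (w j) i w,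
      fun a n => ?_⟩
    rw [Finset.sum_insert hj, Finset.sum_insert hj]
    beta_reduce
    rw [if_pos rfl, sg_update]
    have e1 : ∑ k ∈ S, Function.update a j (a j + n) k = ∑ k ∈ S, a k :=
      Finset.sum_congr rfl fun k hk =>
        Function.update_of_ne (show k ≠ j from fun e => hj (e ▸ hk)) _ _
    have e2 : ∑ i ∈ S, (if i = j then Φ (sg (Function.update a i (a i + n)) -
          ∑ k ∈ S, Function.update a i (a i + n) k) else
          A (Function.update a i (a i + n) j) i (Function.update a i (a i + n))) =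
        ∑ i ∈ S, A (a j) i (Function.update a i (a i + n)) := by
      refine Finset.sum_congr rfl fun i hi => ?_
      have hij : i ≠ j := fun e => hj (e ▸ hi)
      rw [if_neg hij, Function.update_of_ne hij.symm]
    rw [e1, e2]
    have h1 := hCA (a j) a n
    have h2 : dh (-(a j)) Φ (sg a + n - ∑ k ∈ S, a k) =
        Φ (sg a + n - (a j + ∑ k ∈ S, a k)) - Φ (sg a + n - ∑ k ∈ S, a k) := by
      unfold dh
      congr 2
      ring
    rw [h2] at h1
    rw [eq_add_of_sub_eq h1]
    abel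

/-- multiplicative form -/
lemma phase_facesM {m : ℕ} {Φ : ℤ → UnitAddCircle} (hΦ : df^[m + 1] Φ = 0) :
    ∃ (C : (Fin m → ℤ) → ℂ) (A : Fin m → (Fin m → ℤ) → ℂ),
      (∀ a, ‖C a‖ ≤ 1) ∧ (∀ i a, ‖A i a‖ ≤ 1) ∧
      ∀ (a : Fin m → ℤ) (n : ℤ), (AddCircle.toCircle (Φ n) : ℂ) =
        C a * ∏ i, A i (Function.update a i (a i + n)) := by
  obtain ⟨C, A, h⟩ := phase_faces (Finset.univ : Finset (Fin m)) Φ (by
    rw [Finset.card_univ, Fintype.card_fin]; exact hΦ)
  refine ⟨fun a => AddCircle.toCircle (C a), fun i w => AddCircle.toCircle (A i w),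
    fun a => (Circle.norm_coe _).le, fun i a => (Circle.norm_coe _).le, fun a n => ?_⟩
  have h1 := h a n
  have h2 : sg a + n - ∑ i, a i = n := by
    unfold sg
    ring
  rw [h2] at h1
  rw [h1, AddCircle.toCircle_add, Circle.coe_mul]
  congr 1
  have h3 : ∀ s : Finset (Fin m), (AddCircle.toCircle
      (∑ i ∈ s, A i (Function.update a i (a i + n))) : ℂ) =
      ∏ i ∈ s, (AddCircle.toCircle (A i (Function.update a i (a i + n))) : ℂ) := by
    intro s
    classical
    induction s using Finset.induction_on with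
    | empty => rw [Finset.sum_empty, Finset.prod_empty, AddCircle.toCircle_zero, Circle.coe_one]
    | insert b s hb ih =>
      rw [Finset.sum_insert hb, Finset.prod_insert hb, AddCircle.toCircle_add, Circle.coe_mul, ih]
  exact h3 _

/-- almost everywhere convergence with a weight -/
def CvMw [MeasurableSpace X] {m : ℕ} (μ : Measure X) (u : X → ℤ → ℂ)
    (s : Fin m → ℤ → Equiv.Perm X) (f : Fin m → X → ℂ) : Prop :=
  ∀ᵐ x ∂μ, ∃ L : ℂ, Tendsto (fun N : ℕ => cav (fun n => u x n * ∏ j, f j (s j n x)) N) atTop (𝓝 L)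

lemma CvMw_iff_Cv1 [MeasurableSpace X] {m : ℕ} {μ : Measure X} (u : X → ℤ → ℂ)
    (s : Fin m → ℤ → Equiv.Perm X) (f : Fin m → X → ℂ) (j : Fin m) :
    CvMw μ u s f ↔
      Cv1 μ (s j) (fun x n => u x n * ∏ k ∈ univ.erase j, f k (s k n x)) (f j) := by
  unfold CvMw Cv1
  have h1 : ∀ x : X, (fun n => u x n * ∏ j, f j (s j n x)) =
      fun n => f j (s j n x) * (u x n * ∏ k ∈ univ.erase j, f k (s k n x)) := by
    intro x
    funext n
    rw [← Finset.mul_prod_erase univ (fun k => f k (s k n x)) (Finset.mem_univ j)]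
    ring
  simp only [h1]

lemma CvMw_update [MeasurableSpace X] {m : ℕ} {μ : Measure X} (u : X → ℤ → ℂ)
    (s : Fin m → ℤ → Equiv.Perm X) (f : Fin m → X → ℂ) (j : Fin m) (h : X → ℂ) :
    CvMw μ u s (Function.update f j h) ↔
      Cv1 μ (s j) (fun x n => u x n * ∏ k ∈ univ.erase j, f k (s k n x)) h := by
  rw [CvMw_iff_Cv1 u s _ j, Function.update_self]
  have h1 : (fun (x : X) (n : ℤ) => u x n *
      ∏ k ∈ univ.erase j, (Function.update f j h) k (s k n x)) =
      fun x n => u x n * ∏ k ∈ univ.erase j, f k (s k n x) := by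
    funext x n
    congr 1
    refine Finset.prod_congr rfl fun k hk => ?_
    rw [Function.update_of_ne (Finset.ne_of_mem_erase hk)]
  rw [h1]

/-- the basic case -/
theorem CvMw_of_Gd [MeasurableSpace X] {m : ℕ} (hfin : FinTh m) {μ : Measure X}
    [IsProbabilityMeasure μ] {G : Subgroup (Equiv.Perm X)} (hG : ∀ γ ∈ G, MP2 μ γ)
    (s : Fin m → ℤ → Equiv.Perm X) (hs : ∀ j n, MeasurePreserving ⇑(s j n) μ μ) (i0 : Fin m)
    (Φ : ℤ → X → UnitAddCircle) (hΦm : ∀ n, Measurable (Φ n))
    (hΦi : ∀ γ ∈ G, ∀ n x, Φ n (γ x) = Φ n x) (hΦ : ∀ x, df^[m + 1] (fun n => Φ n x) = 0)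
    (f : Fin m → X → ℂ) (hf : ∀ j, Gd m μ G (s j) (j ≠ i0) (f j)) :
    CvMw μ (fun x n => (AddCircle.toCircle (Φ n x) : ℂ)) s f := by
  choose hf1 M f' T hm hb hl he hae using hf
  choose χ' hχ' using he
  have key := ae_of_split m hfin μ (fun a => ((Gm T i0 a : G) : Equiv.Perm X))
    (fun a => hG _ (Gm T i0 a).2)
    (fun x n => (AddCircle.toCircle (Φ n x) : ℂ) * ∏ j, f' j (s j n x))
    (fun n => ((continuous_subtype_val.comp AddCircle.continuous_toCircle).measurable.comp
      (hΦm n)).mul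
      (Finset.measurable_fun_prod _ fun j _ => (hm j).comp (hs j n).measurable))
    (fun x n => norm_mul_le_one' (Circle.norm_coe _).le (norm_prod_le_one _ _ fun j _ => hb j _))
    (fun x => by
      classical
      obtain ⟨θ, F, h1, h2, h3⟩ :=
        split_of_eigM i0 T f' (fun j => if h : j ≠ i0 then χ' j h else fun _ => 0)
        (fun j hj => by
          rw [dif_pos hj]
          exact hχ' j hj) s hl hb x
      obtain ⟨C, A, hC, hA, hCA⟩ := phase_facesM (hΦ x)
      refine ⟨fun a => C a * θ a, fun i w => A i w * F i w, fun a => norm_mul_le_one' (hC a) (h1 a),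
        fun i a => norm_mul_le_one' (hA i a) (h2 i a), fun a n => ?_⟩
      rw [hΦi _ (Gm T i0 a).2, hCA a n, h3 a n, Finset.prod_mul_distrib]
      ring)
  have hall : ∀ᵐ x ∂μ, ∀ j n, f j (s j n x) = (M j : ℂ) * f' j (s j n x) := by
    rw [ae_all_iff]
    intro j
    rw [ae_all_iff]
    exact fun n => (hs j n).quasiMeasurePreserving.ae (hae j)
  unfold CvMw
  filter_upwards [key, hall] with x hx h1
  obtain ⟨L, hL⟩ := hx
  refine ⟨(∏ j, (M j : ℂ)) * L, (hL.const_mul (∏ j, (M j : ℂ))).congr fun N => ?_⟩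
  unfold cav
  rw [← mul_assoc, mul_comm (∏ j, (M j : ℂ)), mul_assoc, Finset.mul_sum]
  congr 1
  refine Finset.sum_congr rfl fun n _ => ?_
  rw [← mul_assoc, mul_comm (∏ j, (M j : ℂ)), mul_assoc, ← Finset.prod_mul_distrib]
  congr 1
  exact Finset.prod_congr rfl fun j _ => (h1 j n).symm

/-- from the basic case to the closed span, slot by slot -/
theorem CvMw_of_InE [MeasurableSpace X] {m : ℕ} (hfin : FinTh m) {μ : Measure X}
    [IsProbabilityMeasure μ] {G : Subgroup (Equiv.Perm X)} [Countable G]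
    (hG : ∀ γ ∈ G, MP2 μ γ) (s : Fin m → ℤ → Equiv.Perm X)
    (hs : ∀ j n, MeasurePreserving ⇑(s j n) μ μ) (hS : ∀ j, Sg μ (s j)) (i0 : Fin m)
    (hgd : ∀ j h, EigFun μ G h → Gd m μ G (s j) (j ≠ i0) h)
    (Φ : ℤ → X → UnitAddCircle) (hΦm : ∀ n, Measurable (Φ n))
    (hΦi : ∀ γ ∈ G, ∀ n x, Φ n (γ x) = Φ n x) (hΦ : ∀ x, df^[m + 1] (fun n => Φ n x) = 0)
    (S : Finset (Fin m)) :
    ∀ f : Fin m → X → ℂ, (∀ j ∈ S, MemLp (f j) ∞ μ ∧ InE μ G (f j)) →
      (∀ j, j ∉ S → Gd m μ G (s j) (j ≠ i0) (f j)) →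
      CvMw μ (fun x n => (AddCircle.toCircle (Φ n x) : ℂ)) s f := by
  classical
  induction S using Finset.induction_on with
  | empty =>
    intro f _ h2
    exact CvMw_of_Gd hfin hG s hs i0 Φ hΦm hΦi hΦ f fun j => h2 j (Finset.notMem_empty j)
  | insert j S hjS ih =>
    intro f h1 h2
    have hfm : ∀ k, MemLp (f k) ∞ μ := by
      intro k
      by_cases hk : k ∈ insert j S
      · exact (h1 k hk).1
      · exact (h2 k hk).1
    obtain ⟨hjm, hjE⟩ := h1 j (Finset.mem_insert_self j S)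
    rw [CvMw_iff_Cv1 _ s f j]
    have hbd : ∃ M : ℝ, ∀ᵐ x ∂μ, ∀ n, ‖(AddCircle.toCircle (Φ n x) : ℂ) *
        ∏ k ∈ univ.erase j, f k (s k n x)‖ ≤ M := by
      obtain ⟨M, hM⟩ := ess_bdd_prod s hs f hfm (univ.erase j)
      refine ⟨M, ?_⟩
      filter_upwards [hM] with x hx n
      rw [norm_mul, Circle.norm_coe, one_mul]
      exact hx n
    refine Cv1_of_InE hG (hs j) (hS j) hbd hjm hjE fun h hh => ?_
    rw [← CvMw_update]
    refine ih _ (fun k hk => ?_) fun k hk => ?_
    · have hkj : k ≠ j := fun e => hjS (e ▸ hk)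
      rw [Function.update_of_ne hkj]
      exact h1 k (Finset.mem_insert_of_mem hk)
    · by_cases hkj : k = j
      · subst hkj
        rw [Function.update_self]
        exact hgd k h hh
      · rw [Function.update_of_ne hkj]
        exact h2 k fun e => (Finset.mem_insert.1 e).elim hkj hk

/-- everywhere version of a phase -/
lemma IsPh.everywhere [MeasurableSpace X] {m : ℕ} {μ : Measure X} {G : Subgroup (Equiv.Perm X)}
    [Countable G] (hG : ∀ γ ∈ G, MP2 μ γ) {u : X → ℤ → ℂ} (hu : IsPh m μ G u) :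
    ∃ Φ : ℤ → X → UnitAddCircle, (∀ n, Measurable (Φ n)) ∧
      (∀ γ ∈ G, ∀ n x, Φ n (γ x) = Φ n x) ∧ (∀ x, df^[m + 1] (fun n => Φ n x) = 0) ∧
      ∀ᵐ x ∂μ, ∀ n, u x n = (AddCircle.toCircle (Φ n x) : ℂ) := by
  classical
  obtain ⟨h1, h2, h3⟩ := hu
  have hinj : Function.Injective (AddCircle.toCircle : UnitAddCircle → Circle) :=
    AddCircle.injective_toCircle one_ne_zero
  obtain ⟨v, hvm, hv⟩ : ∃ v : ℤ → X → ℂ, (∀ n, Measurable (v n)) ∧
      ∀ n, ∀ᵐ x ∂μ, u x n = v n x :=
    ⟨fun n => (h1 n).mk _, fun n => (h1 n).stronglyMeasurable_mk.measurable,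
      fun n => (h1 n).ae_eq_mk⟩
  have hp : ∀ᵐ x ∂μ, (∀ n, u x n = v n x) ∧ (∀ (γ : G) (n : ℤ), v n ((γ : Equiv.Perm X) x) = v n x) ∧
      ∃ Φ : Polynomial ℝ, Φ.natDegree ≤ m ∧
        ∀ n : ℤ, u x n = Complex.exp (2 * Real.pi * Complex.I * (Φ.eval (n : ℝ) : ℝ)) := by
    have a1 : ∀ᵐ x ∂μ, ∀ n, u x n = v n x := by rw [ae_all_iff]; exact hv
    have a2 : ∀ᵐ x ∂μ, ∀ (γ : G) (n : ℤ), u ((γ : Equiv.Perm X) x) n = u x n := by
      rw [ae_all_iff]
      intro γ
      rw [ae_all_iff]
      exact fun n => h2 γ γ.2 n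
    have a3 : ∀ᵐ x ∂μ, ∀ (γ : G) (n : ℤ), u ((γ : Equiv.Perm X) x) n =
        v n ((γ : Equiv.Perm X) x) := by
      rw [ae_all_iff]
      intro γ
      rw [ae_all_iff]
      exact fun n => (hG γ γ.2).1.quasiMeasurePreserving.ae (hv n)
    filter_upwards [a1, a2, a3, h3] with x e1 e2 e3 e4
    exact ⟨e1, fun γ n => by rw [← e3, e2, e1], e4⟩
  obtain ⟨E, hEm, hEae, hEinv, hEp⟩ := inv_set hG hp
  -- the phase at the points of `E`
  have key : ∀ x ∈ E, ∃ Φ : Polynomial ℝ, Φ.natDegree ≤ m ∧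
      ∀ n : ℤ, v n x = (AddCircle.toCircle ((Φ.eval (n : ℝ) : ℝ) : UnitAddCircle) : ℂ) := by
    intro x hx
    obtain ⟨e1, _, Φ, hΦ, e3⟩ := hEp x hx
    refine ⟨Φ, hΦ, fun n => ?_⟩
    rw [← e1, e3, AddCircle.toCircle_apply_mk, Circle.coe_exp]
    push_cast
    congr 1
    ring
  refine ⟨fun n x => if x ∈ E then ag (v n x) else 0,
    fun n => Measurable.ite hEm (measurable_ag.comp (hvm n)) measurable_const,
    fun γ hγ n x => ?_, fun x => ?_, ?_⟩
  · by_cases hx : x ∈ E
    · have hx2 : γ x ∈ E := (hEinv γ hγ x).2 hx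
      simp only [if_pos hx, if_pos hx2]
      rw [(hEp x hx).2.1 ⟨γ, hγ⟩ n]
    · have hx2 : γ x ∉ E := fun h => hx ((hEinv γ hγ x).1 h)
      simp only [if_neg hx, if_neg hx2]
  · by_cases hx : x ∈ E
    · simp only [if_pos hx]
      obtain ⟨Φ, hΦ, e⟩ := key x hx
      have e1 : (fun n : ℤ => ag (v n x)) = fun n : ℤ => ((Φ.eval (n : ℝ) : ℝ) : UnitAddCircle) := by
        funext n
        apply hinj
        apply Subtype.ext
        rw [toCircle_ag (by rw [e n]; exact Circle.norm_coe _), e n]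
      rw [e1]
      have h1 : ∀ (a : ℕ) (n : ℤ), df^[a] (fun n : ℤ => ((Φ.eval (n : ℝ) : ℝ) : UnitAddCircle)) n =
          (((fwdDiff (1 : ℝ))^[a] Φ.eval (n : ℝ) : ℝ) : UnitAddCircle) := by
        intro a
        induction a with
        | zero => intro n; rfl
        | succ a ih =>
          intro n
          rw [Function.iterate_succ_apply', Function.iterate_succ_apply']
          show df^[a] _ (n + 1) - df^[a] _ n = _
          rw [ih, ih]
          unfold fwdDiff
          push_cast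
          rfl
      have h2 : df^[Φ.natDegree + 1] (fun n : ℤ => ((Φ.eval (n : ℝ) : ℝ) : UnitAddCircle)) = 0 := by
        funext n
        rw [h1, Polynomial.fwdDiff_iter_degree_add_one_eq_zero]
        rfl
      exact df_iter_zero_of_le h2 (by omega)
    · simp only [if_neg hx]
      exact df_iter_zero_of_le (k := 0) rfl (Nat.zero_le _)
  · filter_upwards [hEae] with x hx n
    rw [if_pos hx]
    obtain ⟨Φ, _, e⟩ := key x hx
    rw [toCircle_ag (by rw [e n]; exact Circle.norm_coe _), (hEp x hx).1]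

/-- **the weighted base case** -/
theorem base_w (m : ℕ) (hm : 2 ≤ m) (hfin : FinTh m) : BaseW m := by
  classical
  intro X _ μ _ d T hT' hT hnil P hP0 hP1 f hf i0 hE u hu
  have hsys : SysM μ T := ⟨hT', hT, hnil⟩
  have hG : ∀ γ ∈ Subgroup.closure (Set.range T), MP2 μ γ := hsys.mp2
  have hTG : ∀ i, T i ∈ Subgroup.closure (Set.range T) := fun i => Subgroup.subset_closure ⟨i, rfl⟩
  have hcount : Countable (Subgroup.closure (Set.range T)) := NP2.countable_closure T
  obtain ⟨G, hGdef⟩ : ∃ G, G = Subgroup.closure (Set.range T) := ⟨_, rfl⟩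
  have hSg : ∀ j, Sg μ (sq T fun i => P i j) := fun j => hsys.sg _
  have hsG : ∀ j n, sq T (fun i => P i j) n ∈ Subgroup.closure (Set.range T) := fun j n =>
    sq_mem T _ n
  rw [← hGdef] at hE hu hG hTG hcount hsG
  obtain ⟨Φ, hΦm, hΦi, hΦ, hΦu⟩ := hu.everywhere hG
  -- the sequences
  have heval : ∀ i j (n : ℤ), (P i j).eval n = (P i j).coeff 1 * n := by
    intro i j n
    have h := Polynomial.eq_X_add_C_of_natDegree_le_one (hP1 i j)
    have h0 : (P i j).coeff 0 = 0 := by
      rw [Polynomial.coeff_zero_eq_eval_zero]; exact hP0 i j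
    conv_lhs => rw [h]
    simp [h0]
  obtain ⟨Ls, hLs⟩ : ∃ Ls : Fin m → List G, ∀ j, Ls j =
      List.ofFn fun i => (⟨T i, hTG i⟩ : G) ^ (P i j).coeff 1 := ⟨_, fun _ => rfl⟩
  have hsL : ∀ j, (sq T fun i => P i j) =
      fun n => ((((Ls j).map fun A => A ^ n).prod : G) : Equiv.Perm X) := by
    intro j
    funext n
    show (List.ofFn fun i => T i ^ (P i j).eval n).prod =
      G.subtype ((((Ls j).map fun A => A ^ n).prod : G))
    rw [map_list_prod, hLs, List.map_map, List.map_ofFn]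
    congr 2
    funext i
    simp only [Function.comp_apply, map_zpow, Subgroup.subtype_apply]
    rw [heval, zpow_mul]
  have hsmp : ∀ (j : Fin m) (n : ℤ), MeasurePreserving ⇑(sq T (fun i => P i j) n) μ μ :=
    fun j n => (hG _ (hsG j n)).1
  have hgd : ∀ j h, EigFun μ G h → Gd m μ G (sq T fun i => P i j) (j ≠ i0) h := fun j h hh =>
    Gd.of_eig hm hG (Ls j) (hsL j) _ hh
  have hmain : CvMw μ (fun x n => (AddCircle.toCircle (Φ n x) : ℂ))
      (fun j => sq T fun i => P i j) f := by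
    by_cases h0 : InE μ G (f i0)
    · refine CvMw_of_InE hfin hG _ hsmp hSg i0 hgd Φ hΦm hΦi hΦ Finset.univ f
        (fun j _ => ⟨hf j, ?_⟩) fun j hj => absurd (Finset.mem_univ j) hj
      rcases hE j with h | ⟨h, _⟩
      · exact h.inE
      · rw [h]; exact h0
    · obtain ⟨V, hV⟩ : ∃ V : Equiv.Perm X, ∀ n : ℤ, sq T (fun i => P i i0) n = V ^ n := by
        rcases hE i0 with h | ⟨_, h⟩
        · exact absurd h.inE h0
        · exact h
      have hVG : V ∈ G := by
        have h1 := hsG i0 1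
        rw [hV 1, zpow_one] at h1
        exact h1
      have hsi : (sq T fun i => P i i0) = fun n => ((⟨V, hVG⟩ : G) : Equiv.Perm X) ^ n := by
        funext n
        exact hV n
      refine CvMw_of_InE hfin hG _ hsmp hSg i0 hgd Φ hΦm hΦi hΦ (Finset.univ.erase i0) f
        (fun j hj => ⟨hf j, ?_⟩) fun j hj => ?_
      · rcases hE j with h | ⟨h, _⟩
        · exact h.inE
        · exact absurd h (Finset.ne_of_mem_erase hj)
      · have hj' : j = i0 := by
          by_contra hne
          exact hj (Finset.mem_erase.2 ⟨hne, Finset.mem_univ j⟩)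
        rw [hj']
        exact Gd.of_pow m ⟨V, hVG⟩ hsi (by simp) (hf i0)
  unfold CvMw at hmain
  filter_upwards [hmain, hΦu] with x hx e
  obtain ⟨L, hL⟩ := hx
  refine ⟨L, hL.congr fun N => ?_⟩
  congr 1
  funext n
  rw [e n]

/-- the base case for three functions -/
theorem base_w_bin (m : ℕ) (hm : 2 ≤ m) (hbin : BinTh m) : BaseW m :=
  base_w m hm (finTh_of_bin m hbin)

end

end Pool.PWM
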