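/-
PWM (MP_4d8f14_an), module NilWA (helper35).
Three functions along linear sequences in a nilpotent group, with a phase of degree at most three
which is constant along the orbits of the group; the commutator subgroup acts on two of the
functions by functions which are constant along the orbits of the group.
-/
import Pool.Agent.PWM.NilW
import Pool.Agent.NPK.End3F

set_option autoImplicit false

open Finset MeasureTheory Filter Topology Pool.Agent.PWZ Pool.PWZ
open NPK (df dh df_dh df_iter_zero_of_le inv_set ag measurable_ag toCircle_ag CvW Ex3 EigP InA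
  EigA split3 ex3_E approx norm_toCircle df_sum_zero)
open scoped ENNReal commutatorElement

namespace Pool.PWM

noncomputable section

variable {X : Type}

lemma CvMw_iff_update {m : ℕ} [MeasurableSpace X] {μ : Measure X} (u : X → ℤ → ℂ)
    {s : Fin m → ℤ → Equiv.Perm X} (f : Fin m → X → ℂ) (j : Fin m) (h : X → ℂ) :
    CvMw μ u s (Function.update f j h) ↔
      CvW μ (s j) (fun n x => u x n * ∏ i ∈ univ.erase j, f i (s i n x)) h := by
  have e : ∀ (n : ℤ) (x : X), u x n * ∏ i, Function.update f j h i (s i n x) =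
      h (s j n x) * (u x n * ∏ i ∈ univ.erase j, f i (s i n x)) := by
    intro n x
    rw [← Finset.mul_prod_erase univ _ (Finset.mem_univ j), Function.update_self]
    have h1 : ∏ i ∈ univ.erase j, Function.update f j h i (s i n x) =
        ∏ i ∈ univ.erase j, f i (s i n x) := by
      refine Finset.prod_congr rfl fun i hi => ?_
      rw [Function.update_of_ne (Finset.ne_of_mem_erase hi)]
    rw [h1]
    ring
  unfold CvMw CvW
  simp only [e]

/-- from a class of functions to its closed span, with a weight -/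
theorem CvMw_of_span {m : ℕ} [MeasurableSpace X] {μ : Measure X} (u : X → ℤ → ℂ)
    (hu : ∀ x n, ‖u x n‖ ≤ 1) {s : Fin m → ℤ → Equiv.Perm X}
    (hs : ∀ j n, MeasurePreserving ⇑(s j n) μ μ) (hS : ∀ j, Sg μ (s j))
    (Ex : Fin m → (X → ℂ) → Prop)
    (hEx : ∀ j h, Ex j h → Measurable h ∧ ∃ M : ℝ, ∀ x, ‖h x‖ ≤ M)
    (H : ∀ h : Fin m → X → ℂ, (∀ j, Ex j (h j)) → CvMw μ u s h) (A : Finset (Fin m)) :
    ∀ f : Fin m → X → ℂ, (∀ j, Measurable (f j)) → (∀ j, ∃ M : ℝ, ∀ x, ‖f j x‖ ≤ M) →
      (∀ j ∉ A, Ex j (f j)) →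
      (∀ j ∈ A, ∀ ε : ℝ≥0∞, ε ≠ 0 → ∃ (l : ℕ) (h : Fin l → X → ℂ), (∀ i, Ex j (h i)) ∧
        ∫⁻ x, ‖f j x - ∑ i, h i x‖ₑ ∂μ ≤ ε) → CvMw μ u s f := by
  induction A using Finset.induction_on with
  | empty =>
    intro f _ _ h1 _
    exact H f fun j => h1 j (Finset.notMem_empty j)
  | insert a A ha ih =>
    intro f hm hb h1 h2
    have e0 : Function.update f a (f a) = f := Function.update_eq_self a f
    rw [← e0, CvMw_iff_update]
    refine CvW.closure (hs a) (hS a) (hm a) (hb a) ?_ fun ε hε => ?_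
    · choose M hM using hb
      refine ⟨∏ i ∈ univ.erase a, M i, fun n x => ?_⟩
      rw [norm_mul, norm_prod]
      have h3 : ∏ i ∈ univ.erase a, ‖f i (s i n x)‖ ≤ ∏ i ∈ univ.erase a, M i :=
        Finset.prod_le_prod (fun i _ => norm_nonneg _) fun i _ => hM i _
      exact (mul_le_of_le_one_left (Finset.prod_nonneg fun i _ => norm_nonneg _) (hu x n)).trans h3
    · obtain ⟨l, h, h3, h4⟩ := h2 a (Finset.mem_insert_self a A) ε hε
      refine ⟨fun x => ∑ i, h i x, ?_, ?_, h4, ?_⟩
      · exact Finset.measurable_fun_sum _ fun i _ => (hEx a _ (h3 i)).1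
      · choose M hM using fun i => (hEx a _ (h3 i)).2
        exact ⟨∑ i, M i, fun x => (norm_sum_le _ _).trans (Finset.sum_le_sum fun i _ => hM i x)⟩
      · refine CvW.sum h fun i => ?_
        rw [← CvMw_iff_update]
        refine ih (Function.update f a (h i)) (fun j => ?_) (fun j => ?_) (fun j hj => ?_)
          (fun j hj => ?_)
        · by_cases hja : j = a
          · subst hja
            rw [Function.update_self]
            exact (hEx j _ (h3 i)).1
          · rw [Function.update_of_ne hja]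
            exact hm j
        · by_cases hja : j = a
          · subst hja
            rw [Function.update_self]
            exact (hEx j _ (h3 i)).2
          · rw [Function.update_of_ne hja]
            exact hb j
        · by_cases hja : j = a
          · subst hja
            rw [Function.update_self]
            exact h3 i
          · rw [Function.update_of_ne hja]
            exact h1 j fun h5 => (Finset.mem_insert.1 h5).elim hja hj
        · have hja : j ≠ a := fun h5 => ha (h5 ▸ hj)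
          rw [Function.update_of_ne hja]
          exact h2 j (Finset.mem_insert_of_mem hj)

/-- the exact case -/
theorem cvMw_exact3 (hfin : FinTh 3) [MeasurableSpace X] {μ : Measure X}
    [IsProbabilityMeasure μ] {G : Subgroup (Equiv.Perm X)} (hG : ∀ γ ∈ G, MP2 μ γ)
    (s : Fin 3 → ℤ → Equiv.Perm X) (i0 : Fin 3) (Θ : ℤ → X → UnitAddCircle)
    (hΘm : ∀ n, Measurable (Θ n)) (hΘi : ∀ γ ∈ G, ∀ n x, Θ n (γ x) = Θ n x)
    (hΘ : ∀ x, df^[4] (fun n => Θ n x) = 0)
    (h : Fin 3 → X → ℂ) (hh : ∀ j, Ex3 G (s j) (fun _ => True) (j ≠ i0) (h j)) :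
    CvMw μ (fun x n => (AddCircle.toCircle (Θ n x) : ℂ)) s h := by
  classical
  choose hm hb hV hχ using hh
  choose V hVG hV1 Φ hΦm hΦi hΦ he using hV
  obtain ⟨M, hMpos, hMb⟩ : ∃ M : Fin 3 → ℝ, (∀ j, 0 < M j) ∧ ∀ j x, ‖h j x‖ ≤ M j := by
    choose M hM using hb
    exact ⟨fun j => max (M j) 1, fun j => lt_of_lt_of_le one_pos (le_max_right _ _),
      fun j x => (hM j x).trans (le_max_left _ _)⟩
  set h' : Fin 3 → X → ℂ := fun j x => ((M j : ℂ))⁻¹ * h j x with hh'
  have hMc : ∀ j, (M j : ℂ) ≠ 0 := fun j => by exact_mod_cast (hMpos j).ne'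
  have hh'b : ∀ j x, ‖h' j x‖ ≤ 1 := by
    intro j x
    rw [hh', norm_mul, norm_inv, Complex.norm_real, Real.norm_eq_abs, abs_of_pos (hMpos j),
      inv_mul_le_iff₀ (hMpos j), mul_one]
    exact hMb j x
  have hh'm : ∀ j, Measurable (h' j) := fun j => measurable_const.mul (hm j)
  obtain ⟨χ, hχE⟩ : ∃ χ : Fin 3 → G → X → ℂ, ∀ i, i ≠ i0 → EigP G (h' i) (χ i) := by
    have h1 : ∀ i : Fin 3, ∃ χ : G → X → ℂ, i ≠ i0 → EigP G (h' i) χ := by
      intro i
      by_cases hi : i = i0
      · exact ⟨fun _ _ => 1, fun h2 => absurd hi h2⟩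
      · obtain ⟨χ, hχ'⟩ := hχ i hi
        exact ⟨χ, fun _ => hχ'.const_mul _⟩
    choose χ hχ' using h1
    exact ⟨χ, hχ'⟩
  obtain ⟨W, hW⟩ : ∃ W : Fin 3 → G, ∀ j, (W j : Equiv.Perm X) = V j :=
    ⟨fun j => ⟨V j, hVG j⟩, fun _ => rfl⟩
  obtain ⟨Ψ, hΨ⟩ : ∃ Ψ : ℤ → X → UnitAddCircle, ∀ n x, Ψ n x = ∑ j, Φ j n x + Θ n x :=
    ⟨fun n x => ∑ j, Φ j n x + Θ n x, fun _ _ => rfl⟩
  have hΨm : ∀ n, Measurable (Ψ n) := by
    intro n
    have e : Ψ n = fun x => ∑ j, Φ j n x + Θ n x := funext fun x => hΨ n x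
    rw [e]
    exact (Finset.measurable_fun_sum _ fun j _ => hΦm j n).add (hΘm n)
  have hΨd : ∀ x, df^[4] (fun n => Ψ n x) = 0 := by
    intro x
    have h2 := df_sum_zero (univ : Finset (Option (Fin 3)))
      (fun j n => (match j with | none => Θ n x | some j => Φ j n x)) 4
      (fun j _ => by
        cases j with
        | none => exact hΘ x
        | some j => exact hΦ j x)
    have h3 : (fun n => Ψ n x) = fun n : ℤ => ∑ j : Option (Fin 3),
        (match j with | none => Θ n x | some j => Φ j n x) := by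
      funext n
      rw [hΨ, Fintype.sum_option, add_comm]
    rw [h3]
    exact h2
  have key := ae_of_split 3 hfin μ (fun a => ((Gm W i0 a : G) : Equiv.Perm X))
    (fun a => hG _ (Gm W i0 a).2)
    (fun x n => (AddCircle.toCircle (Ψ n x) : ℂ) *
      ∏ i, h' i ((((W i : G) : Equiv.Perm X) ^ n) x))
    (fun n => ((continuous_subtype_val.comp AddCircle.continuous_toCircle).measurable.comp
      (hΨm n)).mul
      (Finset.measurable_fun_prod _ fun i _ => (hh'm i).comp
        (hG _ (Subgroup.zpow_mem _ (W i).2 n)).1.measurable))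
    (fun x n => norm_mul_le_one' (norm_toCircle _) (norm_prod_le_one _ _ fun i _ => hh'b i _))
    (fun x => split3 i0 W h' χ hχE hh'b Ψ (fun γ n x => by
        rw [hΨ, hΨ, hΘi γ γ.2 n x]
        congr 1
        exact Finset.sum_congr rfl fun j _ => hΦi j γ γ.2 n x)
      hΨd x)
  unfold CvMw
  filter_upwards [key] with x hx
  obtain ⟨L, hL⟩ := hx
  refine ⟨(∏ j, (M j : ℂ)) * L, (hL.const_mul (∏ j, (M j : ℂ))).congr fun N => ?_⟩
  unfold cav
  rw [mul_left_comm, Finset.mul_sum]
  congr 1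
  refine Finset.sum_congr rfl fun n _ => ?_
  have e1 : ∀ j, h j (s j n x) = (AddCircle.toCircle (Φ j n x) : ℂ) *
      ((M j : ℂ) * h' j ((((W j : G) : Equiv.Perm X) ^ n) x)) := by
    intro j
    rw [he j n x, hW]
    congr 1
    show _ = (M j : ℂ) * ((M j : ℂ)⁻¹ * _)
    rw [mul_inv_cancel_left₀ (hMc j)]
  simp only [e1, Finset.prod_mul_distrib]
  rw [hΨ, AddCircle.toCircle_add, Circle.coe_mul]
  have e2 : (AddCircle.toCircle (∑ j, Φ j n x) : ℂ) = ∏ j, (AddCircle.toCircle (Φ j n x) : ℂ) := by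
    rw [Fin.sum_univ_three, Fin.prod_univ_three, AddCircle.toCircle_add, AddCircle.toCircle_add,
      Circle.coe_mul, Circle.coe_mul]
  rw [e2]
  ring

/-- **the weighted base case for three functions**, fibrewise form -/
theorem base_w3A (hfin : FinTh 3) (X : Type) [MeasurableSpace X] (μ : Measure X)
    [IsProbabilityMeasure μ] (d : ℕ) (T : Fin d → Equiv.Perm X)
    (hs : ∀ i, Measurable ⇑(T i).symm) (hT : ∀ i, MeasurePreserving (⇑(T i)) μ μ)
    (hnil : Group.IsNilpotent (Subgroup.closure (Set.range T)))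
    (P : Fin d → Fin 3 → Polynomial ℤ) (hP0 : ∀ i j, (P i j).eval 0 = 0)
    (hP1 : ∀ i j, (P i j).natDegree ≤ 1) (f : Fin 3 → X → ℂ) (hf : ∀ j, MemLp (f j) ∞ μ)
    (i0 : Fin 3)
    (hE : ∀ j, InA μ (Subgroup.closure (Set.range T))
        {⁅Subgroup.closure (Set.range T), Subgroup.closure (Set.range T)⁆} (f j) ∨
        (j = i0 ∧ ∃ V : Equiv.Perm X, ∀ n : ℤ, sq T (fun i => P i j) n = V ^ n))
    (u : X → ℤ → ℂ) (hu : IsPh 3 μ (Subgroup.closure (Set.range T)) u) :
    ∀ᵐ x ∂μ, ∃ L : ℂ, Tendsto (fun N : ℕ =>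
      cav (fun n => u x n * ∏ j, f j (sq T (fun i => P i j) n x)) N) atTop (𝓝 L) := by
  classical
  have hsys : SysM μ T := ⟨hs, hT, hnil⟩
  have hT2 : ∀ i, MP2 μ (T i) := fun i => MP2.of (hs i) (hT i)
  have hG : ∀ γ ∈ Subgroup.closure (Set.range T), MP2 μ γ := hsys.mp2
  have hcount : Countable (Subgroup.closure (Set.range T)) := NP2.countable_closure T
  obtain ⟨Θ, hΘm, hΘi, hΘ, hΘu⟩ := hu.everywhere hG
  obtain ⟨s, hsd⟩ : ∃ s : Fin 3 → ℤ → Equiv.Perm X, ∀ j, s j = sq T fun i => P i j :=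
    ⟨fun j => sq T fun i => P i j, fun _ => rfl⟩
  have hsm : ∀ j n, MeasurePreserving ⇑(s j n) μ μ := by
    intro j n
    rw [hsd]
    exact (hG _ (sq_mem T _ n)).1
  have hSg : ∀ j, Sg μ (s j) := by
    intro j
    rw [hsd]
    exact hsys.sg _
  choose M f' hM' fm fb fe using fun j => exists_bdd' μ (f j) (hf j)
  have fe' : ∀ j, ∀ᵐ x ∂μ, f j x = (M j : ℂ) * f' j x := fe
  have hbd : ∀ j x, ‖(M j : ℂ) * f' j x‖ ≤ M j := by
    intro j x
    rw [norm_mul, Complex.norm_real, Real.norm_eq_abs, abs_of_pos (hM' j)]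
    exact mul_le_of_le_one_right (hM' j).le (fb j x)
  -- the class of the exceptional function
  obtain ⟨q, hq⟩ : ∃ q : Fin 3 → Prop, ∀ j, q j ↔ InA μ (Subgroup.closure (Set.range T))
        {⁅Subgroup.closure (Set.range T), Subgroup.closure (Set.range T)⁆} (f j) :=
    ⟨_, fun j => Iff.rfl⟩
  have hcore : CvMw μ (fun x n => (AddCircle.toCircle (Θ n x) : ℂ)) s
      (fun j x => (M j : ℂ) * f' j x) := by
    refine CvMw_of_span _ (fun x n => norm_toCircle _) hsm hSg
      (fun j => Ex3 (Subgroup.closure (Set.range T)) (s j) (fun _ => True) (j ≠ i0))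
      (fun j h hh => ⟨hh.1, hh.2.1⟩)
      (fun h hh => cvMw_exact3 hfin hG s i0 Θ hΘm hΘi hΘ h hh)
      Finset.univ _ (fun j => measurable_const.mul (fm j)) (fun j => ⟨M j, hbd j⟩)
      (fun j hj => absurd (Finset.mem_univ j) hj) fun j _ ε hε => ?_
    by_cases hE1 : InA μ (Subgroup.closure (Set.range T))
          {⁅Subgroup.closure (Set.range T), Subgroup.closure (Set.range T)⁆} (f j)
    · refine approx (hf j) (fe' j) _ (fun h => ∃ N ∈ ({⁅Subgroup.closure (Set.range T),
        Subgroup.closure (Set.range T)⁆} : Set (Subgroup (Equiv.Perm X))),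
        EigA μ (Subgroup.closure (Set.range T)) N h) (fun h hh => ?_)
        (fun h hh => ?_) hE1 ε hε
      · obtain ⟨N, hN, hh⟩ := hh
        rw [Set.mem_singleton_iff] at hN
        subst hN
        obtain ⟨h', e1, e2⟩ := ex3_E T hT2 (fun i => P i j) (fun i => hP0 i j)
          (fun i => hP1 i j) (j ≠ i0) hh
        have e3 : Ex3 (Subgroup.closure (Set.range T)) (sq T fun i => P i j) (fun _ => True)
          (j ≠ i0) h' := e1
        rw [← hsd] at e3
        exact ⟨h', e3, e2⟩
      · obtain ⟨N, _, hh⟩ := hh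
        exact hh.1
    · obtain ⟨hj0, V, hV⟩ := (hE j).resolve_left hE1
      have hVG : V ∈ Subgroup.closure (Set.range T) := by
        have h5 := hV 1
        rw [zpow_one] at h5
        rw [← h5]
        exact sq_mem T (fun i => P i j) 1
      refine ⟨1, fun _ x => (M j : ℂ) * f' j x, fun _ => ⟨measurable_const.mul (fm j),
        ⟨M j, hbd j⟩, ⟨V, hVG, trivial, fun _ _ => 0, fun _ => measurable_const,
        fun _ _ _ _ => rfl, fun _ => df_iter_zero_of_le (k := 0) rfl (Nat.zero_le _),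
        fun n y => ?_⟩, fun h3 => absurd hj0 h3⟩, ?_⟩
      · rw [hsd, hV n, AddCircle.toCircle_zero, Circle.coe_one, one_mul]
      · simp
  have h1 : ∀ᵐ x ∂μ, ∀ j n, f j (s j n x) = (M j : ℂ) * f' j (s j n x) := by
    rw [ae_all_iff]; intro j
    rw [ae_all_iff]; exact fun n => (hsm j n).quasiMeasurePreserving.ae (fe' j)
  unfold CvMw at hcore
  filter_upwards [hcore, hΘu, h1] with x hx e e1
  obtain ⟨L, hL⟩ := hx
  refine ⟨L, hL.congr fun N => ?_⟩
  congr 1
  funext n
  rw [e n]
  congr 1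
  refine Finset.prod_congr rfl fun j _ => ?_
  have e2 := e1 j n
  rw [hsd] at e2
  rw [e2, hsd]

/-- the constants -/
lemma inA_one [MeasurableSpace X] (μ : Measure X) [IsProbabilityMeasure μ]
    (G N : Subgroup (Equiv.Perm X)) : InA μ G {N} fun _ => (1 : ℂ) := by
  intro ε hε
  refine ⟨1, fun _ _ => 1, fun _ => ⟨N, rfl, memLp_const _, fun _ _ => 1,
    fun _ _ => measurable_const, fun _ _ => Eventually.of_forall fun _ => norm_one,
    fun _ _ _ _ => Eventually.of_forall fun _ => rfl,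
    fun _ _ _ _ => Eventually.of_forall fun _ => rfl,
    fun _ _ => Eventually.of_forall fun x => (one_mul _).symm⟩, ?_⟩
  simp

end

end Pool.PWM
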