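/-
PWM (MP_4d8f14_an), module StructA (helper96).
As `Struct`, with the larger class of eigenfunctions of helper35 (NPK/Ev3): the commutator subgroup
acts by unimodular `G`-invariant functions instead of numbers.
-/
import Mathlib
import Pool.Agent.PWM.Struct
import Pool.Agent.NPK.End3F

set_option autoImplicit false

open Finset MeasureTheory Filter Topology Pool.Agent.PWZ Pool.PWZ
open scoped ENNReal commutatorElement

namespace Pool.PWM

variable {X : Type}

/-- the closed span of the functions on which the commutator subgroup acts by unimodular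
`G`-invariant functions -/
def InAc [MeasurableSpace X] (μ : Measure X) (G : Subgroup (Equiv.Perm X)) (f : X → ℂ) : Prop :=
  ∀ ε : ℝ, 0 < ε → ∃ (l : ℕ) (h : Fin l → X → ℂ), (∀ i, NPK.EigA μ G ⁅G, G⁆ (h i)) ∧
    eLpNorm (fun x => f x - ∑ i, h i x) 2 μ ≤ ENNReal.ofReal ε

lemma InAc_iff [MeasurableSpace X] {μ : Measure X} {G : Subgroup (Equiv.Perm X)} {f : X → ℂ} :
    InAc μ G f ↔ NPK.InA μ G {⁅G, G⁆} f := by
  constructor
  · intro h ε hε
    obtain ⟨l, u, hu, hn⟩ := h ε hε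
    exact ⟨l, u, fun i => ⟨_, rfl, hu i⟩, hn⟩
  · intro h ε hε
    obtain ⟨l, u, hu, hn⟩ := h ε hε
    refine ⟨l, u, fun i => ?_, hn⟩
    obtain ⟨N, hN, h⟩ := hu i
    rw [Set.mem_singleton_iff] at hN
    subst hN
    exact h

lemma InAc_of_InEK [MeasurableSpace X] {μ : Measure X} {G : Subgroup (Equiv.Perm X)} {f : X → ℂ}
    (h : NP2.InEK μ G 1 f) : InAc μ G f := by
  intro ε hε
  obtain ⟨l, u, hu, hn⟩ := h ε hε
  refine ⟨l, u, fun i => ?_, hn⟩
  obtain ⟨h0, χ, h1, h2, h3⟩ := hu i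
  exact ⟨h0, fun ν _ => χ ν, fun _ _ => measurable_const,
    fun ν hν => Eventually.of_forall fun _ => h1 ν hν,
    fun _ _ _ _ => Eventually.of_forall fun _ => rfl,
    fun γ hγ ν hν => Eventually.of_forall fun _ => h2 γ hγ ν hν, h3⟩

lemma EigA_mul [MeasurableSpace X] {μ : Measure X} {G N : Subgroup (Equiv.Perm X)}
    {f g : X → ℂ} (hf : NPK.EigA μ G N f) (hg : NPK.EigA μ G N g) :
    NPK.EigA μ G N (fun x => f x * g x) := by
  obtain ⟨hf0, χ, hf1, hf2, hf3, hf4, hf5⟩ := hf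
  obtain ⟨hg0, ξ, hg1, hg2, hg3, hg4, hg5⟩ := hg
  refine ⟨memLp_top_mul hf0 hg0, fun ν x => χ ν x * ξ ν x, fun ν hν => (hf1 ν hν).mul (hg1 ν hν),
    fun ν hν => ?_, fun γ hγ ν hν => ?_, fun γ hγ ν hν => ?_, fun ν hν => ?_⟩
  · filter_upwards [hf2 ν hν, hg2 ν hν] with x e1 e2
    rw [norm_mul, e1, e2, one_mul]
  · filter_upwards [hf3 γ hγ ν hν, hg3 γ hγ ν hν] with x e1 e2
    rw [e1, e2]
  · filter_upwards [hf4 γ hγ ν hν, hg4 γ hγ ν hν] with x e1 e2
    rw [e1, e2]
  · filter_upwards [hf5 ν hν, hg5 ν hν] with x e1 e2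
    rw [e1, e2]
    ring

lemma InAc_mul [MeasurableSpace X] {μ : Measure X} [IsProbabilityMeasure μ]
    {G : Subgroup (Equiv.Perm X)}
    {f g : X → ℂ} (hfm : MemLp f ∞ μ) (hgm : MemLp g ∞ μ) (hf : InAc μ G f)
    (hg : InAc μ G g) : InAc μ G (fun x => f x * g x) := by
  intro ε hε
  obtain ⟨Cg, hCg, hgb⟩ := ess_bdd hgm
  obtain ⟨a, u, hu, hun⟩ := hf (ε / (2 * Cg)) (by positivity)
  have hsm : MemLp (fun x => ∑ i, u i x) ∞ μ := memLp_top_sum _ _ fun i => (hu i).1
  obtain ⟨C, hC, hb⟩ := ess_bdd hsm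
  obtain ⟨b, v, hv, hvn⟩ := hg (ε / (2 * C)) (by positivity)
  refine ⟨a * b, fun i x => u (finProdFinEquiv.symm i).1 x * v (finProdFinEquiv.symm i).2 x,
    fun i => EigA_mul (hu _) (hv _), ?_⟩
  have h1 : (fun x => f x * g x -
      ∑ i, u (finProdFinEquiv.symm i).1 x * v (finProdFinEquiv.symm i).2 x) =
      (fun x => (f x - ∑ i, u i x) * g x) + fun x => (g x - ∑ j, v j x) * ∑ i, u i x := by
    funext x
    have h2 : ∑ i : Fin (a * b),
        u (finProdFinEquiv.symm i).1 x * v (finProdFinEquiv.symm i).2 x =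
        (∑ i, u i x) * ∑ j, v j x := by
      rw [Finset.sum_mul_sum, ← Fintype.sum_prod_type' (f := fun i j => u i x * v j x)]
      exact Equiv.sum_comp finProdFinEquiv.symm (fun p : Fin a × Fin b => u p.1 x * v p.2 x)
    rw [h2]
    simp only [Pi.add_apply]
    ring
  have hum : MemLp (fun x => f x - ∑ i, u i x) ∞ μ := hfm.sub hsm
  have hvm : MemLp (fun x => g x - ∑ j, v j x) ∞ μ :=
    hgm.sub (memLp_top_sum _ _ fun i => (hv i).1)
  rw [h1]
  refine (eLpNorm_add_le (memLp_top_mul hum hgm).aestronglyMeasurable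
    (memLp_top_mul hvm hsm).aestronglyMeasurable (by norm_num)).trans ?_
  have e1 : eLpNorm (fun x => (f x - ∑ i, u i x) * g x) 2 μ ≤ ENNReal.ofReal (ε / 2) := by
    refine (eLpNorm_mul_le_of_bdd hgb).trans ((mul_le_mul_right hun _).trans ?_)
    rw [← ENNReal.ofReal_mul hCg.le]
    refine ENNReal.ofReal_le_ofReal (le_of_eq ?_)
    field_simp
  have e2 : eLpNorm (fun x => (g x - ∑ j, v j x) * ∑ i, u i x) 2 μ ≤ ENNReal.ofReal (ε / 2) := by
    refine (eLpNorm_mul_le_of_bdd hb).trans ((mul_le_mul_right hvn _).trans ?_)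
    rw [← ENNReal.ofReal_mul hC.le]
    refine ENNReal.ofReal_le_ofReal (le_of_eq ?_)
    field_simp
  refine (add_le_add e1 e2).trans ?_
  rw [← ENNReal.ofReal_add (by positivity) (by positivity)]
  exact ENNReal.ofReal_le_ofReal (le_of_eq (by ring))

/-- `f` is in the closed span of the eigenfunctions of the commutator subgroup, or `j` is the
exceptional index and the sequence consists of the powers of one map -/
def AdmA [MeasurableSpace X] {m : ℕ} (μ : Measure X) (G : Subgroup (Equiv.Perm X)) (i0 : Fin m)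
    (σ : Fin m → ℤ → Equiv.Perm X) (j : Fin m) (f : X → ℂ) : Prop :=
  InAc μ G f ∨ (j = i0 ∧ ∃ V : Equiv.Perm X, ∀ n : ℤ, σ j n = V ^ n)

/-- the weighted form of `nil_finalM` -/
def BaseWA (m : ℕ) : Prop :=
  ∀ (X : Type) [MeasurableSpace X] (μ : Measure X) [IsProbabilityMeasure μ]
    (d : ℕ) (T : Fin d → Equiv.Perm X), (∀ i, Measurable ⇑(T i).symm) →
    (∀ i, MeasurePreserving (⇑(T i)) μ μ) →
    Group.IsNilpotent (Subgroup.closure (Set.range T)) →
    ∀ (P : Fin d → Fin m → Polynomial ℤ), (∀ i j, (P i j).eval 0 = 0) →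
    (∀ i j, (P i j).natDegree ≤ 1) → ∀ (f : Fin m → X → ℂ), (∀ j, MemLp (f j) ∞ μ) →
    ∀ i0 : Fin m, (∀ j, AdmA μ (Subgroup.closure (Set.range T)) i0
      (fun j => sq T fun i => P i j) j (f j)) →
    ∀ u : X → ℤ → ℂ, IsPh m μ (Subgroup.closure (Set.range T)) u →
    ∀ᵐ x ∂μ, ∃ L : ℂ, Tendsto (fun N : ℕ =>
      cav (fun n => u x n * ∏ j, f j (sq T (fun i => P i j) n x)) N) atTop (𝓝 L)

/-- **`m + r` functions on one system** -/
theorem struct_sysA (m : ℕ) (hb : BaseWA m) (X : Type) [MeasurableSpace X] (μ : Measure X)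
    [IsProbabilityMeasure μ] (d : ℕ) (T : Fin d → Equiv.Perm X) (hT : SysM μ T) (r : ℕ)
    (P : Fin d → Fin (m + r) → Polynomial ℤ) (hP0 : ∀ i j, (P i j).eval 0 = 0)
    (hP1 : ∀ i j, (P i (Fin.castAdd r j)).natDegree ≤ 1)
    (f : Fin (m + r) → X → ℂ) (hf : ∀ j, MemLp (f j) ∞ μ) (i0 : Fin m)
    (hA : ∀ j : Fin m, AdmA μ (Subgroup.closure (Set.range T)) i0
      (fun j => sq T fun i => P i (Fin.castAdd r j)) j (f (Fin.castAdd r j)))
    (hS : ∀ j : Fin r, Struc μ (IsPh m μ (Subgroup.closure (Set.range T)))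
      (AdmA μ (Subgroup.closure (Set.range T)) i0
        (fun j => sq T fun i => P i (Fin.castAdd r j)))
      (fun j => sq T fun i => P i (Fin.castAdd r j))
      (sq T fun i => P i (Fin.natAdd m j)) (f (Fin.natAdd m j)))
    (u : X → ℤ → ℂ) (hu : IsPh m μ (Subgroup.closure (Set.range T)) u) :
    ∀ᵐ x ∂μ, ∃ L : ℂ, Tendsto (fun N : ℕ =>
      cav (fun n => u x n * ∏ j, f j (sq T (fun i => P i j) n x)) N) atTop (𝓝 L) := by
  have hsm : ∀ (Q : Fin d → Polynomial ℤ) (n : ℤ), MeasurePreserving ⇑(sq T Q n) μ μ :=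
    fun Q n => (hT.mp2 _ (sq_mem T Q n)).1
  have h := CvS_of_struc (wcl_isPh m μ (Subgroup.closure (Set.range T)))
    (fun j => sq T fun i => P i (Fin.castAdd r j)) (fun j n => hsm _ n)
    (AdmA μ (Subgroup.closure (Set.range T)) i0 fun j => sq T fun i => P i (Fin.castAdd r j))
    (fun j f h hf hh a b => by
      rcases a with a | a
      · rcases b with b | b
        · exact Or.inl (InAc_mul hf hh a b)
        · exact Or.inr b
      · exact Or.inr a)
    (fun w hw f hf => hb X μ d T hT.ms hT.mp hT.nil (fun i j => P i (Fin.castAdd r j))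
      (fun i j => hP0 _ _) hP1 f (fun j => (hf j).1) i0 (fun j => (hf j).2) w hw)
    r (fun j => sq T fun i => P i (Fin.natAdd m j)) (fun j n => hsm _ n) (fun j => hT.sg _)
    u hu (fun j => f (Fin.castAdd r j))
    (fun j => f (Fin.natAdd m j)) (fun j => ⟨hf _, hA j⟩) (fun j => ⟨hf _, hS j⟩)
  unfold CvS at h
  filter_upwards [h] with x hx
  obtain ⟨L, hL⟩ := hx
  refine ⟨L, hL.congr fun N => ?_⟩
  congr 1
  funext n
  rw [Fin.prod_univ_add]

/-- **`m + r` functions, with an extension** -/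
theorem struct_extA (m : ℕ) (hb : BaseWA m) (X : Type) [MeasurableSpace X] (μ : Measure X)
    [IsProbabilityMeasure μ] (d : ℕ) (T : Fin d → Equiv.Perm X)
    (hT' : ∀ i, Measurable ⇑(T i).symm) (hT : ∀ i, MeasurePreserving (⇑(T i)) μ μ) (r : ℕ)
    (P : Fin d → Fin (m + r) → Polynomial ℤ) (hP0 : ∀ i j, (P i j).eval 0 = 0)
    (hP1 : ∀ i j, (P i (Fin.castAdd r j)).natDegree ≤ 1)
    (f : Fin (m + r) → X → ℂ) (hf : ∀ j, MemLp (f j) ∞ μ)
    (Y : Type) [MeasurableSpace Y] (ν : Measure Y) [IsProbabilityMeasure ν]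
    (S : Fin d → Equiv.Perm Y) (hS : SysM ν S) (π : Y → X) (hπ : MeasurePreserving π ν μ)
    (hπS : ∀ i, ∀ᵐ y ∂ν, π (S i y) = T i (π y)) (i0 : Fin m)
    (hA : ∀ j : Fin m, AdmA ν (Subgroup.closure (Set.range S)) i0
      (fun j => sq S fun i => P i (Fin.castAdd r j)) j (fun y => f (Fin.castAdd r j) (π y)))
    (hSt : ∀ j : Fin r, Struc ν (IsPh m ν (Subgroup.closure (Set.range S)))
      (AdmA ν (Subgroup.closure (Set.range S)) i0
        (fun j => sq S fun i => P i (Fin.castAdd r j)))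
      (fun j => sq S fun i => P i (Fin.castAdd r j))
      (sq S fun i => P i (Fin.natAdd m j)) (fun y => f (Fin.natAdd m j) (π y)))
    (Φ : Polynomial ℝ) (hΦ : Φ.natDegree ≤ m) :
    ∀ᵐ x ∂μ, ∃ L : ℂ, Tendsto (fun N : ℕ =>
      cav (fun n => Complex.exp (2 * Real.pi * Complex.I * (Φ.eval (n : ℝ) : ℝ)) *
        ∏ j, f j (sq T (fun i => P i j) n x)) N) atTop (𝓝 L) := by
  have hT2 : ∀ γ ∈ Subgroup.closure (Set.range T), MP2 μ γ := by
    intro γ hγ
    induction hγ using Subgroup.closure_induction with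
    | mem γ h' =>
      obtain ⟨i, rfl⟩ := h'
      exact MP2.of (hT' i) (hT i)
    | one => exact MP2.one
    | mul a b _ _ ha hb => exact ha.mul hb
    | inv a _ ha => exact ha.inv
  have hsm : ∀ (Q : Fin d → Polynomial ℤ) (n : ℤ), MeasurePreserving ⇑(sq T Q n) μ μ :=
    fun Q n => (hT2 _ (sq_mem T Q n)).1
  -- measurable versions
  have hv : ∀ j, ∃ f' : X → ℂ, Measurable f' ∧ ∀ᵐ x ∂μ, f j x = f' x := by
    intro j
    exact ⟨(hf j).1.mk _, (hf j).1.stronglyMeasurable_mk.measurable, (hf j).1.ae_eq_mk⟩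
  choose f' hf'm hf'e using hv
  have h1 : ∀ᵐ x ∂μ, ∀ j n, f j (sq T (fun i => P i j) n x) =
      f' j (sq T (fun i => P i j) n x) := by
    rw [ae_all_iff]
    intro j
    rw [ae_all_iff]
    exact fun n => (hsm _ n).quasiMeasurePreserving.ae (hf'e j)
  set C : Set X := {x | ∃ L : ℂ, Tendsto (fun N : ℕ =>
      cav (fun n => Complex.exp (2 * Real.pi * Complex.I * (Φ.eval (n : ℝ) : ℝ)) *
        ∏ j, f' j (sq T (fun i => P i j) n x)) N) atTop (𝓝 L)} with hC
  have hCm : MeasurableSet C := by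
    refine measurableSet_exists_tendsto fun N => ?_
    exact measurable_cav _ (fun n => measurable_const.mul (Finset.measurable_prod _ fun j _ =>
      (hf'm j).comp (hsm _ n).measurable)) N
  have h2 := struct_sysA m hb Y ν d S hS r P hP0 hP1 (fun j y => f j (π y))
    (fun j => (hf j).comp_measurePreserving hπ) i0 hA hSt _
    (isPh_const ν (Subgroup.closure (Set.range S)) hΦ)
  have h3 : ∀ᵐ y ∂ν, ∀ j n, π (sq S (fun i => P i j) n y) = sq T (fun i => P i j) n (π y) := by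
    rw [ae_all_iff]
    intro j
    rw [ae_all_iff]
    exact fun n => push_sq π (fun i => MP2.of (hS.ms i) (hS.mp i)) hπS _ n
  have h4 : ∀ᵐ y ∂ν, π y ∈ C := by
    filter_upwards [h2, h3, hπ.quasiMeasurePreserving.ae h1] with y e2 e3 e1
    obtain ⟨L, hL⟩ := e2
    refine ⟨L, hL.congr fun N => ?_⟩
    congr 1
    funext n
    congr 1
    refine Finset.prod_congr rfl fun j _ => ?_
    rw [e3, e1]
  have h5 : ∀ᵐ x ∂μ, x ∈ C := by
    rw [← hπ.map_eq]
    exact (ae_map_iff hπ.measurable.aemeasurable hCm).2 h4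
  filter_upwards [h1, h5] with x e1 e5
  obtain ⟨L, hL⟩ := e5
  refine ⟨L, hL.congr fun N => ?_⟩
  congr 1
  funext n
  congr 1
  exact Finset.prod_congr rfl fun j _ => (e1 j n).symm

end Pool.PWM
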