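/-
PWM (MP_4d8f14_an), module NilWAM (helper35).
`m >= 3` functions along linear sequences in a nilpotent group, with a phase of degree at most `m`
which is constant along the orbits of the group; the commutator subgroup acts on the functions,
with one possible exception, by functions which are constant along the orbits of the group.
-/
import Pool.Agent.PWM.NilWA
import Pool.Agent.PWM.StructA

set_option autoImplicit false

open Finset MeasureTheory Filter Topology Pool.Agent.PWZ Pool.PWZ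
open NPK (df dh df_dh df_iter_zero_of_le inv_set ag measurable_ag toCircle_ag CvW Ex3 EigP InA
  EigA ex3_E approx norm_toCircle df_sum_zero)
open scoped ENNReal commutatorElement

namespace Pool.PWM

noncomputable section

variable {X : Type}

/-- the splitting lemma -/
theorem splitM {m : ℕ} {G : Subgroup (Equiv.Perm X)} (i0 : Fin m) (T : Fin m → G)
    (f : Fin m → X → ℂ) (χ : Fin m → G → X → ℂ) (H : ∀ i, i ≠ i0 → EigP G (f i) (χ i))
    (hf : ∀ i x, ‖f i x‖ ≤ 1) (Φ : ℤ → X → UnitAddCircle)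
    (hΦi : ∀ (γ : G) n x, Φ n ((γ : Equiv.Perm X) x) = Φ n x)
    (hΦ : ∀ x, df^[m + 1] (fun n => Φ n x) = 0) (x : X) :
    ∃ (θ : (Fin m → ℤ) → ℂ) (F : Fin m → (Fin m → ℤ) → ℂ),
      (∀ a, ‖θ a‖ ≤ 1) ∧ (∀ i a, ‖F i a‖ ≤ 1) ∧
      ∀ a n, (AddCircle.toCircle (Φ n (((Gm T i0 a : G) : Equiv.Perm X) x)) : ℂ) *
        ∏ i, f i (((T i : G) : Equiv.Perm X) ^ n <| ((Gm T i0 a : G) : Equiv.Perm X) x) =
        θ a * ∏ i, F i (Function.update a i (a i + n)) := by
  classical
  obtain ⟨C, A, hC, hA, hCA⟩ := phase_facesM (hΦ x)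
  refine ⟨fun a => C a * ∏ i, (if i = i0 then 1 else χ i (Nu T i0 i a) x),
    fun i w => A i w * f i (((T i ^ w i * Wo T i w : G) : Equiv.Perm X) x), ?_, ?_, ?_⟩
  · intro a
    refine norm_mul_le_one' (hC _) (norm_prod_le_one _ _ fun i _ => ?_)
    by_cases hi : i = i0
    · rw [if_pos hi]; simp
    · rw [if_neg hi]; exact (H i hi).norm _ (Nu_mem T i0 i a) x
  · intro i a
    exact norm_mul_le_one' (hA _ _) (hf _ _)
  · intro a n
    have h1 : ∀ i, f i (((T i : G) : Equiv.Perm X) ^ n <| ((Gm T i0 a : G) : Equiv.Perm X) x) =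
        (if i = i0 then 1 else χ i (Nu T i0 i a) x) *
        f i (((T i ^ (Function.update a i (a i + n) i) *
          Wo T i (Function.update a i (a i + n)) : G) : Equiv.Perm X) x) := by
      intro i
      rw [Function.update_self, Wo_update]
      by_cases hi : i = i0
      · subst hi
        rw [if_pos rfl, one_mul, ← Equiv.Perm.mul_apply, ← Subgroup.coe_zpow,
          ← Subgroup.coe_mul]
        congr 3
        unfold Gm
        rw [← mul_assoc, ← zpow_add, add_comm]
      · rw [if_neg hi]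
        have h3 := (H i hi).eig (T i ^ (a i + n)) (Nu T i0 i a) (Nu_mem T i0 i a)
          (((Wo T i a : G) : Equiv.Perm X) x)
        rw [(H i hi).inv _ _ (Nu_mem T i0 i a)] at h3
        rw [← Equiv.Perm.mul_apply, ← Equiv.Perm.mul_apply, ← Subgroup.coe_mul,
          ← Subgroup.coe_mul] at h3
        rw [← h3, ← Equiv.Perm.mul_apply, ← Subgroup.coe_zpow, ← Subgroup.coe_mul]
        congr 3
        rw [Gm_eq T i0 i a, ← mul_assoc, ← mul_assoc, ← zpow_add, add_comm]
    rw [hΦi, hCA a n, Finset.prod_congr rfl fun i _ => h1 i, Finset.prod_mul_distrib,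
      Finset.prod_mul_distrib]
    ring

lemma toCircle_sum {ι : Type} (s : Finset ι) (f : ι → UnitAddCircle) :
    (AddCircle.toCircle (∑ j ∈ s, f j) : ℂ) = ∏ j ∈ s, (AddCircle.toCircle (f j) : ℂ) := by
  classical
  induction s using Finset.induction_on with
  | empty => rw [Finset.sum_empty, Finset.prod_empty, AddCircle.toCircle_zero, Circle.coe_one]
  | insert b s hb ih =>
    rw [Finset.sum_insert hb, Finset.prod_insert hb, AddCircle.toCircle_add, Circle.coe_mul, ih]

/-- the exact case -/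
theorem cvMw_exactM {m : ℕ} (hm3 : 3 ≤ m) (hfin : FinTh m) [MeasurableSpace X] {μ : Measure X}
    [IsProbabilityMeasure μ] {G : Subgroup (Equiv.Perm X)} (hG : ∀ γ ∈ G, MP2 μ γ)
    (s : Fin m → ℤ → Equiv.Perm X) (i0 : Fin m) (Θ : ℤ → X → UnitAddCircle)
    (hΘm : ∀ n, Measurable (Θ n)) (hΘi : ∀ γ ∈ G, ∀ n x, Θ n (γ x) = Θ n x)
    (hΘ : ∀ x, df^[m + 1] (fun n => Θ n x) = 0)
    (h : Fin m → X → ℂ) (hh : ∀ j, Ex3 G (s j) (fun _ => True) (j ≠ i0) (h j)) :
    CvMw μ (fun x n => (AddCircle.toCircle (Θ n x) : ℂ)) s h := by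
  classical
  choose hm hb hV hχ using hh
  choose V hVG hV1 Φ hΦm hΦi hΦ he using hV
  obtain ⟨M, hMpos, hMb⟩ : ∃ M : Fin m → ℝ, (∀ j, 0 < M j) ∧ ∀ j x, ‖h j x‖ ≤ M j := by
    choose M hM using hb
    exact ⟨fun j => max (M j) 1, fun j => lt_of_lt_of_le one_pos (le_max_right _ _),
      fun j x => (hM j x).trans (le_max_left _ _)⟩
  set h' : Fin m → X → ℂ := fun j x => ((M j : ℂ))⁻¹ * h j x with hh'
  have hMc : ∀ j, (M j : ℂ) ≠ 0 := fun j => by exact_mod_cast (hMpos j).ne'
  have hh'b : ∀ j x, ‖h' j x‖ ≤ 1 := by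
    intro j x
    rw [hh', norm_mul, norm_inv, Complex.norm_real, Real.norm_eq_abs, abs_of_pos (hMpos j),
      inv_mul_le_iff₀ (hMpos j), mul_one]
    exact hMb j x
  have hh'm : ∀ j, Measurable (h' j) := fun j => measurable_const.mul (hm j)
  obtain ⟨χ, hχE⟩ : ∃ χ : Fin m → G → X → ℂ, ∀ i, i ≠ i0 → EigP G (h' i) (χ i) := by
    have h1 : ∀ i : Fin m, ∃ χ : G → X → ℂ, i ≠ i0 → EigP G (h' i) χ := by
      intro i
      by_cases hi : i = i0
      · exact ⟨fun _ _ => 1, fun h2 => absurd hi h2⟩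
      · obtain ⟨χ, hχ'⟩ := hχ i hi
        exact ⟨χ, fun _ => hχ'.const_mul _⟩
    choose χ hχ' using h1
    exact ⟨χ, hχ'⟩
  obtain ⟨W, hW⟩ : ∃ W : Fin m → G, ∀ j, (W j : Equiv.Perm X) = V j :=
    ⟨fun j => ⟨V j, hVG j⟩, fun _ => rfl⟩
  obtain ⟨Ψ, hΨ⟩ : ∃ Ψ : ℤ → X → UnitAddCircle, ∀ n x, Ψ n x = ∑ j, Φ j n x + Θ n x :=
    ⟨fun n x => ∑ j, Φ j n x + Θ n x, fun _ _ => rfl⟩
  have hΨm : ∀ n, Measurable (Ψ n) := by
    intro n
    have e : Ψ n = fun x => ∑ j, Φ j n x + Θ n x := funext fun x => hΨ n x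
    rw [e]
    exact (Finset.measurable_fun_sum _ fun j _ => hΦm j n).add (hΘm n)
  have hΨd : ∀ x, df^[m + 1] (fun n => Ψ n x) = 0 := by
    intro x
    have h2 := df_sum_zero (univ : Finset (Option (Fin m)))
      (fun j n => (match j with | none => Θ n x | some j => Φ j n x)) (m + 1)
      (fun j _ => by
        cases j with
        | none => exact hΘ x
        | some j => exact df_iter_zero_of_le (hΦ j x) (by omega))
    have h3 : (fun n => Ψ n x) = fun n : ℤ => ∑ j : Option (Fin m),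
        (match j with | none => Θ n x | some j => Φ j n x) := by
      funext n
      rw [hΨ, Fintype.sum_option, add_comm]
    rw [h3]
    exact h2
  have key := ae_of_split m hfin μ (fun a => ((Gm W i0 a : G) : Equiv.Perm X))
    (fun a => hG _ (Gm W i0 a).2)
    (fun x n => (AddCircle.toCircle (Ψ n x) : ℂ) *
      ∏ i, h' i ((((W i : G) : Equiv.Perm X) ^ n) x))
    (fun n => ((continuous_subtype_val.comp AddCircle.continuous_toCircle).measurable.comp
      (hΨm n)).mul
      (Finset.measurable_fun_prod _ fun i _ => (hh'm i).comp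
        (hG _ (Subgroup.zpow_mem _ (W i).2 n)).1.measurable))
    (fun x n => norm_mul_le_one' (norm_toCircle _) (norm_prod_le_one _ _ fun i _ => hh'b i _))
    (fun x => splitM i0 W h' χ hχE hh'b Ψ (fun γ n x => by
        rw [hΨ, hΨ, hΘi γ γ.2 n x]
        congr 1
        exact Finset.sum_congr rfl fun j _ => hΦi j γ γ.2 n x)
      hΨd x)
  unfold CvMw
  filter_upwards [key] with x hx
  obtain ⟨L, hL⟩ := hx
  refine ⟨(∏ j, (M j : ℂ)) * L, (hL.const_mul (∏ j, (M j : ℂ))).congr fun N => ?_⟩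
  unfold cav
  rw [mul_left_comm, Finset.mul_sum]
  congr 1
  refine Finset.sum_congr rfl fun n _ => ?_
  have e1 : ∀ j, h j (s j n x) = (AddCircle.toCircle (Φ j n x) : ℂ) *
      ((M j : ℂ) * h' j ((((W j : G) : Equiv.Perm X) ^ n) x)) := by
    intro j
    rw [he j n x, hW]
    congr 1
    show _ = (M j : ℂ) * ((M j : ℂ)⁻¹ * _)
    rw [mul_inv_cancel_left₀ (hMc j)]
  simp only [e1, Finset.prod_mul_distrib]
  rw [hΨ, AddCircle.toCircle_add, Circle.coe_mul, toCircle_sum]
  ring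

/-- the weighted base case with an everywhere version of the phase -/
theorem base_wA_core (m : ℕ) (hm3 : 3 ≤ m) (hfin : FinTh m) (X : Type) [MeasurableSpace X]
    (μ : Measure X) [IsProbabilityMeasure μ] (d : ℕ) (T : Fin d → Equiv.Perm X)
    (hsys : SysM μ T) (P : Fin d → Fin m → Polynomial ℤ) (hP0 : ∀ i j, (P i j).eval 0 = 0)
    (hP1 : ∀ i j, (P i j).natDegree ≤ 1) (f : Fin m → X → ℂ) (hf : ∀ j, MemLp (f j) ∞ μ)
    (i0 : Fin m) (hE' : ∀ j, AdmA μ (Subgroup.closure (Set.range T)) i0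
      (fun j => sq T fun i => P i j) j (f j))
    (Θ : ℤ → X → UnitAddCircle) (hΘm : ∀ n, Measurable (Θ n))
    (hΘi : ∀ γ ∈ Subgroup.closure (Set.range T), ∀ n x, Θ n (γ x) = Θ n x)
    (hΘ : ∀ x, df^[m + 1] (fun n => Θ n x) = 0) :
    ∀ᵐ x ∂μ, ∃ L : ℂ, Tendsto (fun N : ℕ =>
      cav (fun n => (AddCircle.toCircle (Θ n x) : ℂ) *
        ∏ j, f j (sq T (fun i => P i j) n x)) N) atTop (𝓝 L) := by
  have hE : ∀ j, InA μ (Subgroup.closure (Set.range T))
        {⁅Subgroup.closure (Set.range T), Subgroup.closure (Set.range T)⁆} (f j) ∨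
        (j = i0 ∧ ∃ V : Equiv.Perm X, ∀ n : ℤ, sq T (fun i => P i j) n = V ^ n) :=
    fun j => (hE' j).imp (fun h => InAc_iff.1 h) id
  classical
  have hT2 : ∀ i, MP2 μ (T i) := fun i => MP2.of (hsys.ms i) (hsys.mp i)
  have hG : ∀ γ ∈ Subgroup.closure (Set.range T), MP2 μ γ := hsys.mp2
  have hcount : Countable (Subgroup.closure (Set.range T)) := NP2.countable_closure T
  obtain ⟨s, hsd⟩ : ∃ s : Fin m → ℤ → Equiv.Perm X, ∀ j, s j = sq T fun i => P i j :=
    ⟨fun j => sq T fun i => P i j, fun _ => rfl⟩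
  have hsm : ∀ j n, MeasurePreserving ⇑(s j n) μ μ := by
    intro j n
    rw [hsd]
    exact (hG _ (sq_mem T _ n)).1
  have hSg : ∀ j, Sg μ (s j) := by
    intro j
    rw [hsd]
    exact hsys.sg _
  choose M f' hM' fm fb fe using fun j => exists_bdd' μ (f j) (hf j)
  have fe' : ∀ j, ∀ᵐ x ∂μ, f j x = (M j : ℂ) * f' j x := fe
  have hbd : ∀ j x, ‖(M j : ℂ) * f' j x‖ ≤ M j := by
    intro j x
    rw [norm_mul, Complex.norm_real, Real.norm_eq_abs, abs_of_pos (hM' j)]
    exact mul_le_of_le_one_right (hM' j).le (fb j x)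
  have hcore : CvMw μ (fun x n => (AddCircle.toCircle (Θ n x) : ℂ)) s
      (fun j x => (M j : ℂ) * f' j x) := by
    refine CvMw_of_span _ (fun x n => norm_toCircle _) hsm hSg
      (fun j => Ex3 (Subgroup.closure (Set.range T)) (s j) (fun _ => True) (j ≠ i0))
      (fun j h hh => ⟨hh.1, hh.2.1⟩)
      (fun h hh => cvMw_exactM hm3 hfin hG s i0 Θ hΘm hΘi hΘ h hh)
      Finset.univ _ (fun j => measurable_const.mul (fm j)) (fun j => ⟨M j, hbd j⟩)
      (fun j hj => absurd (Finset.mem_univ j) hj) fun j _ ε hε => ?_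
    by_cases hE1 : InA μ (Subgroup.closure (Set.range T))
          {⁅Subgroup.closure (Set.range T), Subgroup.closure (Set.range T)⁆} (f j)
    · refine approx (hf j) (fe' j) _ (fun h => ∃ N ∈ ({⁅Subgroup.closure (Set.range T),
        Subgroup.closure (Set.range T)⁆} : Set (Subgroup (Equiv.Perm X))),
        EigA μ (Subgroup.closure (Set.range T)) N h) (fun h hh => ?_)
        (fun h hh => ?_) hE1 ε hε
      · obtain ⟨N, hN, hh⟩ := hh
        rw [Set.mem_singleton_iff] at hN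
        subst hN
        obtain ⟨h', e1, e2⟩ := ex3_E T hT2 (fun i => P i j) (fun i => hP0 i j)
          (fun i => hP1 i j) (j ≠ i0) hh
        have e3 : Ex3 (Subgroup.closure (Set.range T)) (sq T fun i => P i j) (fun _ => True)
          (j ≠ i0) h' := e1
        rw [← hsd] at e3
        exact ⟨h', e3, e2⟩
      · obtain ⟨N, _, hh⟩ := hh
        exact hh.1
    · obtain ⟨hj0, V, hV⟩ := (hE j).resolve_left hE1
      have hVG : V ∈ Subgroup.closure (Set.range T) := by
        have h5 := hV 1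
        rw [zpow_one] at h5
        rw [← h5]
        exact sq_mem T (fun i => P i j) 1
      refine ⟨1, fun _ x => (M j : ℂ) * f' j x, fun _ => ⟨measurable_const.mul (fm j),
        ⟨M j, hbd j⟩, ⟨V, hVG, trivial, fun _ _ => 0, fun _ => measurable_const,
        fun _ _ _ _ => rfl, fun _ => df_iter_zero_of_le (k := 0) rfl (Nat.zero_le _),
        fun n y => ?_⟩, fun h3 => absurd hj0 h3⟩, ?_⟩
      · rw [hsd, hV n, AddCircle.toCircle_zero, Circle.coe_one, one_mul]
      · simp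
  have h1 : ∀ᵐ x ∂μ, ∀ j n, f j (s j n x) = (M j : ℂ) * f' j (s j n x) := by
    rw [ae_all_iff]; intro j
    rw [ae_all_iff]; exact fun n => (hsm j n).quasiMeasurePreserving.ae (fe' j)
  unfold CvMw at hcore
  filter_upwards [hcore, h1] with x hx e1
  obtain ⟨L, hL⟩ := hx
  refine ⟨L, hL.congr fun N => ?_⟩
  congr 1
  funext n
  congr 1
  refine Finset.prod_congr rfl fun j _ => ?_
  have e2 := e1 j n
  rw [hsd] at e2
  rw [e2, hsd]

/-- **the weighted base case for `m >= 3` functions**, fibrewise form -/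
theorem base_wA (m : ℕ) (hm3 : 3 ≤ m) (hfin : FinTh m) : BaseWA m := by
  intro X _ μ _ d T hs hT hnil P hP0 hP1 f hf i0 hE' u hu
  have hsys : SysM μ T := ⟨hs, hT, hnil⟩
  have hcount : Countable (Subgroup.closure (Set.range T)) := NP2.countable_closure T
  obtain ⟨Θ, hΘm, hΘi, hΘ, hΘu⟩ := hu.everywhere hsys.mp2
  have h := base_wA_core m hm3 hfin X μ d T hsys P hP0 hP1 f hf i0 hE' Θ hΘm hΘi hΘ
  filter_upwards [h, hΘu] with x hx e
  obtain ⟨L, hL⟩ := hx
  refine ⟨L, hL.congr fun N => ?_⟩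
  congr 1
  funext n
  rw [e n]

end

end Pool.PWM
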