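/-
PWM (MP_4d8f14_an), module NilWI (helper35).
Any number of functions along linear sequences in a nilpotent group, with a polynomial phase of any
degree which is constant along the orbits of the group, and any number of structured functions:
everything which follows from the finite theorem for all numbers of functions.
-/
import Pool.Agent.PWM.NilWAM

set_option autoImplicit false

open Finset MeasureTheory Filter Topology Pool.Agent.PWZ Pool.PWZ
open NPK (df dh df_dh df_iter_zero_of_le inv_set ag measurable_ag toCircle_ag InA EigA)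
open scoped ENNReal commutatorElement

namespace Pool.PWM

noncomputable section

variable {X : Type}

/-- `u x n = e(Φ_x(n))` with real polynomials `Φ_x` of any degree, and `u` is `G`-invariant -/
def IsPhs [MeasurableSpace X] (μ : Measure X) (G : Subgroup (Equiv.Perm X))
    (u : X → ℤ → ℂ) : Prop :=
  (∀ n, AEStronglyMeasurable (fun x => u x n) μ) ∧
    (∀ γ ∈ G, ∀ n, ∀ᵐ x ∂μ, u (γ x) n = u x n) ∧
    ∀ᵐ x ∂μ, ∃ Φ : Polynomial ℝ,
      ∀ n : ℤ, u x n = Complex.exp (2 * Real.pi * Complex.I * (Φ.eval (n : ℝ) : ℝ))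

lemma IsPh.isPhs [MeasurableSpace X] {m : ℕ} {μ : Measure X} {G : Subgroup (Equiv.Perm X)}
    {u : X → ℤ → ℂ} (h : IsPh m μ G u) : IsPhs μ G u :=
  ⟨h.1, h.2.1, h.2.2.mono fun _ ⟨Φ, _, h⟩ => ⟨Φ, h⟩⟩

lemma wcl_isPhs [MeasurableSpace X] (μ : Measure X) (G : Subgroup (Equiv.Perm X)) :
    WCl μ (IsPhs μ G) where
  bdd := by
    intro w hw
    filter_upwards [hw.2.2] with x hx n
    obtain ⟨Φ, h⟩ := hx
    rw [h n]
    have h1 : 2 * (Real.pi : ℂ) * Complex.I * ((Φ.eval (n : ℝ) : ℝ) : ℂ) =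
        ((2 * Real.pi * Φ.eval (n : ℝ) : ℝ) : ℂ) * Complex.I := by
      push_cast; ring
    rw [h1, Complex.norm_exp_ofReal_mul_I]
  mul := by
    intro w w' h h'
    refine ⟨fun n => (h.1 n).mul (h'.1 n), fun γ hγ n => ?_, ?_⟩
    · filter_upwards [h.2.1 γ hγ n, h'.2.1 γ hγ n] with x e1 e2
      rw [e1, e2]
    · filter_upwards [h.2.2, h'.2.2] with x e1 e2
      obtain ⟨Φ, h2⟩ := e1
      obtain ⟨Ψ, h4⟩ := e2
      refine ⟨Φ + Ψ, fun n => ?_⟩
      rw [h2, h4, ← Complex.exp_add, Polynomial.eval_add]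
      congr 1
      push_cast
      ring
  one := by
    refine ⟨fun n => aestronglyMeasurable_const, fun γ _ n => Eventually.of_forall fun x => rfl,
      Eventually.of_forall fun x => ⟨0, fun n => by simp⟩⟩

/-- a polynomial phase of any degree -/
lemma isPhs_const [MeasurableSpace X] (μ : Measure X) (G : Subgroup (Equiv.Perm X))
    (Φ : Polynomial ℝ) :
    IsPhs μ G fun _ n => Complex.exp (2 * Real.pi * Complex.I * (Φ.eval (n : ℝ) : ℝ)) :=
  ⟨fun n => aestronglyMeasurable_const, fun γ _ n => Eventually.of_forall fun x => rfl,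
    Eventually.of_forall fun x => ⟨Φ, fun n => rfl⟩⟩

/-- everywhere version of a phase -/
lemma IsPhs.everywhere [MeasurableSpace X] {μ : Measure X} {G : Subgroup (Equiv.Perm X)}
    [Countable G] (hG : ∀ γ ∈ G, MP2 μ γ) {u : X → ℤ → ℂ} (hu : IsPhs μ G u) :
    ∃ Φ : ℤ → X → UnitAddCircle, (∀ n, Measurable (Φ n)) ∧
      (∀ γ ∈ G, ∀ n x, Φ n (γ x) = Φ n x) ∧ (∀ x, ∃ k, df^[k] (fun n => Φ n x) = 0) ∧
      ∀ᵐ x ∂μ, ∀ n, u x n = (AddCircle.toCircle (Φ n x) : ℂ) := by
  classical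
  obtain ⟨h1, h2, h3⟩ := hu
  have hinj : Function.Injective (AddCircle.toCircle : UnitAddCircle → Circle) :=
    AddCircle.injective_toCircle one_ne_zero
  obtain ⟨v, hvm, hv⟩ : ∃ v : ℤ → X → ℂ, (∀ n, Measurable (v n)) ∧
      ∀ n, ∀ᵐ x ∂μ, u x n = v n x :=
    ⟨fun n => (h1 n).mk _, fun n => (h1 n).stronglyMeasurable_mk.measurable,
      fun n => (h1 n).ae_eq_mk⟩
  have hp : ∀ᵐ x ∂μ, (∀ n, u x n = v n x) ∧ (∀ (γ : G) (n : ℤ), v n ((γ : Equiv.Perm X) x) = v n x) ∧
      ∃ Φ : Polynomial ℝ,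
        ∀ n : ℤ, u x n = Complex.exp (2 * Real.pi * Complex.I * (Φ.eval (n : ℝ) : ℝ)) := by
    have a1 : ∀ᵐ x ∂μ, ∀ n, u x n = v n x := by rw [ae_all_iff]; exact hv
    have a2 : ∀ᵐ x ∂μ, ∀ (γ : G) (n : ℤ), u ((γ : Equiv.Perm X) x) n = u x n := by
      rw [ae_all_iff]
      intro γ
      rw [ae_all_iff]
      exact fun n => h2 γ γ.2 n
    have a3 : ∀ᵐ x ∂μ, ∀ (γ : G) (n : ℤ), u ((γ : Equiv.Perm X) x) n =
        v n ((γ : Equiv.Perm X) x) := by
      rw [ae_all_iff]
      intro γ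
      rw [ae_all_iff]
      exact fun n => (hG γ γ.2).1.quasiMeasurePreserving.ae (hv n)
    filter_upwards [a1, a2, a3, h3] with x e1 e2 e3 e4
    exact ⟨e1, fun γ n => by rw [← e3, e2, e1], e4⟩
  obtain ⟨E, hEm, hEae, hEinv, hEp⟩ := inv_set hG hp
  -- the phase at the points of `E`
  have key : ∀ x ∈ E, ∃ Φ : Polynomial ℝ,
      ∀ n : ℤ, v n x = (AddCircle.toCircle ((Φ.eval (n : ℝ) : ℝ) : UnitAddCircle) : ℂ) := by
    intro x hx
    obtain ⟨e1, _, Φ, e3⟩ := hEp x hx
    refine ⟨Φ, fun n => ?_⟩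
    rw [← e1, e3, AddCircle.toCircle_apply_mk, Circle.coe_exp]
    push_cast
    congr 1
    ring
  refine ⟨fun n x => if x ∈ E then ag (v n x) else 0,
    fun n => Measurable.ite hEm (measurable_ag.comp (hvm n)) measurable_const,
    fun γ hγ n x => ?_, fun x => ?_, ?_⟩
  · by_cases hx : x ∈ E
    · have hx2 : γ x ∈ E := (hEinv γ hγ x).2 hx
      simp only [if_pos hx, if_pos hx2]
      rw [(hEp x hx).2.1 ⟨γ, hγ⟩ n]
    · have hx2 : γ x ∉ E := fun h => hx ((hEinv γ hγ x).1 h)
      simp only [if_neg hx, if_neg hx2]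
  · by_cases hx : x ∈ E
    · simp only [if_pos hx]
      obtain ⟨Φ, e⟩ := key x hx
      have e1 : (fun n : ℤ => ag (v n x)) = fun n : ℤ => ((Φ.eval (n : ℝ) : ℝ) : UnitAddCircle) := by
        funext n
        apply hinj
        apply Subtype.ext
        rw [toCircle_ag (by rw [e n]; exact Circle.norm_coe _), e n]
      rw [e1]
      have h1 : ∀ (a : ℕ) (n : ℤ), df^[a] (fun n : ℤ => ((Φ.eval (n : ℝ) : ℝ) : UnitAddCircle)) n =
          (((fwdDiff (1 : ℝ))^[a] Φ.eval (n : ℝ) : ℝ) : UnitAddCircle) := by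
        intro a
        induction a with
        | zero => intro n; rfl
        | succ a ih =>
          intro n
          rw [Function.iterate_succ_apply', Function.iterate_succ_apply']
          show df^[a] _ (n + 1) - df^[a] _ n = _
          rw [ih, ih]
          unfold fwdDiff
          push_cast
          rfl
      refine ⟨Φ.natDegree + 1, ?_⟩
      funext n
      rw [h1, Polynomial.fwdDiff_iter_degree_add_one_eq_zero]
      rfl
    · simp only [if_neg hx]
      exact ⟨0, df_iter_zero_of_le (k := 0) rfl (Nat.zero_le _)⟩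
  · filter_upwards [hEae] with x hx n
    rw [if_pos hx]
    obtain ⟨Φ, e⟩ := key x hx
    rw [toCircle_ag (by rw [e n]; exact Circle.norm_coe _), (hEp x hx).1]

/-- the base case for all phases -/
def BaseWI (m : ℕ) : Prop :=
  ∀ (X : Type) [MeasurableSpace X] (μ : Measure X) [IsProbabilityMeasure μ]
    (d : ℕ) (T : Fin d → Equiv.Perm X), SysM μ T →
    ∀ (P : Fin d → Fin m → Polynomial ℤ), (∀ i j, (P i j).eval 0 = 0) →
    (∀ i j, (P i j).natDegree ≤ 1) → ∀ (f : Fin m → X → ℂ), (∀ j, MemLp (f j) ∞ μ) →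
    ∀ i0 : Fin m, (∀ j, AdmA μ (Subgroup.closure (Set.range T)) i0
      (fun j => sq T fun i => P i j) j (f j)) →
    ∀ u : X → ℤ → ℂ, IsPhs μ (Subgroup.closure (Set.range T)) u →
    ∀ᵐ x ∂μ, ∃ L : ℂ, Tendsto (fun N : ℕ =>
      cav (fun n => u x n * ∏ j, f j (sq T (fun i => P i j) n x)) N) atTop (𝓝 L)

/-- more slots give higher degrees -/
theorem base_wD (hfin : ∀ k, 3 ≤ k → FinTh k) (m D : ℕ) (X : Type) [MeasurableSpace X]
    (μ : Measure X) [IsProbabilityMeasure μ] (d : ℕ) (T : Fin d → Equiv.Perm X)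
    (hsys : SysM μ T) (P : Fin d → Fin m → Polynomial ℤ) (hP0 : ∀ i j, (P i j).eval 0 = 0)
    (hP1 : ∀ i j, (P i j).natDegree ≤ 1) (f : Fin m → X → ℂ) (hf : ∀ j, MemLp (f j) ∞ μ)
    (i0 : Fin m) (hE : ∀ j, AdmA μ (Subgroup.closure (Set.range T)) i0
      (fun j => sq T fun i => P i j) j (f j))
    (Θ : ℤ → X → UnitAddCircle) (hΘm : ∀ n, Measurable (Θ n))
    (hΘi : ∀ γ ∈ Subgroup.closure (Set.range T), ∀ n x, Θ n (γ x) = Θ n x)
    (hΘ : ∀ x, df^[D] (fun n => Θ n x) = 0) :
    ∀ᵐ x ∂μ, ∃ L : ℂ, Tendsto (fun N : ℕ =>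
      cav (fun n => (AddCircle.toCircle (Θ n x) : ℂ) *
        ∏ j, f j (sq T (fun i => P i j) n x)) N) atTop (𝓝 L) := by
  have h := base_wA_core (m + (D + 3)) (by omega) (hfin _ (by omega)) X μ d T hsys
    (fun i => Fin.addCases (P i) fun _ => 0)
    (fun i j => by
      refine Fin.addCases (fun j => ?_) (fun j => ?_) j
      · rw [Fin.addCases_left]; exact hP0 i j
      · rw [Fin.addCases_right]; simp)
    (fun i j => by
      refine Fin.addCases (fun j => ?_) (fun j => ?_) j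
      · rw [Fin.addCases_left]; exact hP1 i j
      · rw [Fin.addCases_right]; simp)
    (Fin.addCases f fun _ _ => 1)
    (fun j => by
      refine Fin.addCases (fun j => ?_) (fun j => ?_) j
      · rw [Fin.addCases_left]; exact hf j
      · rw [Fin.addCases_right]; exact memLp_const _)
    (Fin.castAdd (D + 3) i0)
    (fun j => by
      refine Fin.addCases (fun j => ?_) (fun j => ?_) j
      · rw [Fin.addCases_left]
        rcases hE j with h | ⟨h, V, hV⟩
        · exact Or.inl h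
        · refine Or.inr ⟨by rw [h], V, fun n => ?_⟩
          rw [← hV n]
          simp only [Fin.addCases_left]
      · rw [Fin.addCases_right]
        exact Or.inl (InAc_iff.2 (inA_one μ _ _)))
    Θ hΘm hΘi (fun x => df_iter_zero_of_le (hΘ x) (by omega))
  filter_upwards [h] with x hx
  obtain ⟨L, hL⟩ := hx
  refine ⟨L, hL.congr fun N => ?_⟩
  congr 1
  funext n
  congr 1
  rw [Fin.prod_univ_add]
  simp only [Fin.addCases_left, Fin.addCases_right, Finset.prod_const_one, mul_one]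

lemma measurable_df_iter [MeasurableSpace X] {Φ : ℤ → X → UnitAddCircle}
    (hm : ∀ n, Measurable (Φ n)) (k : ℕ) :
    ∀ n, Measurable fun x => df^[k] (fun n => Φ n x) n := by
  induction k with
  | zero => exact hm
  | succ k ih =>
    intro n
    have e : (fun x => df^[k + 1] (fun n => Φ n x) n) =
        fun x => df^[k] (fun n => Φ n x) (n + 1) - df^[k] (fun n => Φ n x) n := by
      funext x
      rw [Function.iterate_succ_apply']
      rfl
    rw [e]
    exact (ih (n + 1)).sub (ih n)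

/-- **the base case for all phases** -/
theorem base_wI (hfin : ∀ k, 3 ≤ k → FinTh k) (m : ℕ) : BaseWI m := by
  intro X _ μ _ d T hsys P hP0 hP1 f hf i0 hE u hu
  classical
  have hcount : Countable (Subgroup.closure (Set.range T)) := NP2.countable_closure T
  obtain ⟨Θ, hΘm, hΘi, hΘ, hΘu⟩ := hu.everywhere hsys.mp2
  set E : ℕ → Set X := fun D => {x | df^[D] (fun n => Θ n x) = 0} with hEd
  have hEm : ∀ D, MeasurableSet (E D) := by
    intro D
    have e : E D = ⋂ n : ℤ, (fun x => df^[D] (fun n => Θ n x) n) ⁻¹' {0} := by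
      ext x
      simp only [hEd, Set.mem_setOf_eq, Set.mem_iInter, Set.mem_preimage, Set.mem_singleton_iff]
      exact ⟨fun h n => congrFun h n, fun h => funext h⟩
    rw [e]
    exact MeasurableSet.iInter fun n => measurable_df_iter hΘm D n (measurableSet_singleton 0)
  have hEi : ∀ D, ∀ γ ∈ Subgroup.closure (Set.range T), ∀ x, γ x ∈ E D ↔ x ∈ E D := by
    intro D γ hγ x
    have e : (fun n => Θ n (γ x)) = fun n => Θ n x := funext fun n => hΘi γ hγ n x
    simp only [hEd, Set.mem_setOf_eq]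
    rw [e]
  have h : ∀ D, ∀ᵐ x ∂μ, ∃ L : ℂ, Tendsto (fun N : ℕ =>
      cav (fun n => (AddCircle.toCircle (if x ∈ E D then Θ n x else 0) : ℂ) *
        ∏ j, f j (sq T (fun i => P i j) n x)) N) atTop (𝓝 L) := by
    intro D
    refine base_wD hfin m D X μ d T hsys P hP0 hP1 f hf i0 hE
      (fun n x => if x ∈ E D then Θ n x else 0)
      (fun n => Measurable.ite (hEm D) (hΘm n) measurable_const)
      (fun γ hγ n x => ?_) (fun x => ?_)
    · by_cases hx : x ∈ E D
      · have hx2 : γ x ∈ E D := (hEi D γ hγ x).2 hx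
        simp only [if_pos hx, if_pos hx2]
        exact hΘi γ hγ n x
      · have hx2 : γ x ∉ E D := fun h => hx ((hEi D γ hγ x).1 h)
        simp only [if_neg hx, if_neg hx2]
    · by_cases hx : x ∈ E D
      · simp only [if_pos hx]
        exact hx
      · simp only [if_neg hx]
        exact df_iter_zero_of_le (k := 0) rfl (Nat.zero_le _)
  have h' := ae_all_iff.2 h
  filter_upwards [h', hΘu] with x hx e
  obtain ⟨D, hD⟩ := hΘ x
  obtain ⟨L, hL⟩ := hx D
  refine ⟨L, hL.congr fun N => ?_⟩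
  congr 1
  funext n
  have hx1 : x ∈ E D := hD
  rw [e n, if_pos hx1]

/-- **`m + r` functions on one system** -/
theorem struct_sysI (m : ℕ) (hb : BaseWI m) (X : Type) [MeasurableSpace X] (μ : Measure X)
    [IsProbabilityMeasure μ] (d : ℕ) (T : Fin d → Equiv.Perm X) (hT : SysM μ T) (r : ℕ)
    (P : Fin d → Fin (m + r) → Polynomial ℤ) (hP0 : ∀ i j, (P i j).eval 0 = 0)
    (hP1 : ∀ i j, (P i (Fin.castAdd r j)).natDegree ≤ 1)
    (f : Fin (m + r) → X → ℂ) (hf : ∀ j, MemLp (f j) ∞ μ) (i0 : Fin m)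
    (hA : ∀ j : Fin m, AdmA μ (Subgroup.closure (Set.range T)) i0
      (fun j => sq T fun i => P i (Fin.castAdd r j)) j (f (Fin.castAdd r j)))
    (hS : ∀ j : Fin r, Struc μ (IsPhs μ (Subgroup.closure (Set.range T)))
      (AdmA μ (Subgroup.closure (Set.range T)) i0
        (fun j => sq T fun i => P i (Fin.castAdd r j)))
      (fun j => sq T fun i => P i (Fin.castAdd r j))
      (sq T fun i => P i (Fin.natAdd m j)) (f (Fin.natAdd m j)))
    (u : X → ℤ → ℂ) (hu : IsPhs μ (Subgroup.closure (Set.range T)) u) :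
    ∀ᵐ x ∂μ, ∃ L : ℂ, Tendsto (fun N : ℕ =>
      cav (fun n => u x n * ∏ j, f j (sq T (fun i => P i j) n x)) N) atTop (𝓝 L) := by
  have hsm : ∀ (Q : Fin d → Polynomial ℤ) (n : ℤ), MeasurePreserving ⇑(sq T Q n) μ μ :=
    fun Q n => (hT.mp2 _ (sq_mem T Q n)).1
  have h := CvS_of_struc (wcl_isPhs μ (Subgroup.closure (Set.range T)))
    (fun j => sq T fun i => P i (Fin.castAdd r j)) (fun j n => hsm _ n)
    (AdmA μ (Subgroup.closure (Set.range T)) i0 fun j => sq T fun i => P i (Fin.castAdd r j))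
    (fun j f h hf hh a b => by
      rcases a with a | a
      · rcases b with b | b
        · exact Or.inl (InAc_mul hf hh a b)
        · exact Or.inr b
      · exact Or.inr a)
    (fun w hw f hf => hb X μ d T hT (fun i j => P i (Fin.castAdd r j))
      (fun i j => hP0 _ _) hP1 f (fun j => (hf j).1) i0 (fun j => (hf j).2) w hw)
    r (fun j => sq T fun i => P i (Fin.natAdd m j)) (fun j n => hsm _ n) (fun j => hT.sg _)
    u hu (fun j => f (Fin.castAdd r j))
    (fun j => f (Fin.natAdd m j)) (fun j => ⟨hf _, hA j⟩) (fun j => ⟨hf _, hS j⟩)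
  unfold CvS at h
  filter_upwards [h] with x hx
  obtain ⟨L, hL⟩ := hx
  refine ⟨L, hL.congr fun N => ?_⟩
  congr 1
  funext n
  rw [Fin.prod_univ_add]

/-- **`m + r` functions, with an extension** -/
theorem struct_extI (m : ℕ) (hb : BaseWI m) (X : Type) [MeasurableSpace X] (μ : Measure X)
    [IsProbabilityMeasure μ] (d : ℕ) (T : Fin d → Equiv.Perm X)
    (hT' : ∀ i, Measurable ⇑(T i).symm) (hT : ∀ i, MeasurePreserving (⇑(T i)) μ μ) (r : ℕ)
    (P : Fin d → Fin (m + r) → Polynomial ℤ) (hP0 : ∀ i j, (P i j).eval 0 = 0)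
    (hP1 : ∀ i j, (P i (Fin.castAdd r j)).natDegree ≤ 1)
    (f : Fin (m + r) → X → ℂ) (hf : ∀ j, MemLp (f j) ∞ μ)
    (Y : Type) [MeasurableSpace Y] (ν : Measure Y) [IsProbabilityMeasure ν]
    (S : Fin d → Equiv.Perm Y) (hS : SysM ν S) (π : Y → X) (hπ : MeasurePreserving π ν μ)
    (hπS : ∀ i, ∀ᵐ y ∂ν, π (S i y) = T i (π y)) (i0 : Fin m)
    (hA : ∀ j : Fin m, AdmA ν (Subgroup.closure (Set.range S)) i0
      (fun j => sq S fun i => P i (Fin.castAdd r j)) j (fun y => f (Fin.castAdd r j) (π y)))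
    (hSt : ∀ j : Fin r, Struc ν (IsPhs ν (Subgroup.closure (Set.range S)))
      (AdmA ν (Subgroup.closure (Set.range S)) i0
        (fun j => sq S fun i => P i (Fin.castAdd r j)))
      (fun j => sq S fun i => P i (Fin.castAdd r j))
      (sq S fun i => P i (Fin.natAdd m j)) (fun y => f (Fin.natAdd m j) (π y)))
    (Φ : Polynomial ℝ) :
    ∀ᵐ x ∂μ, ∃ L : ℂ, Tendsto (fun N : ℕ =>
      cav (fun n => Complex.exp (2 * Real.pi * Complex.I * (Φ.eval (n : ℝ) : ℝ)) *
        ∏ j, f j (sq T (fun i => P i j) n x)) N) atTop (𝓝 L) := by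
  have hT2 : ∀ γ ∈ Subgroup.closure (Set.range T), MP2 μ γ := by
    intro γ hγ
    induction hγ using Subgroup.closure_induction with
    | mem γ h' =>
      obtain ⟨i, rfl⟩ := h'
      exact MP2.of (hT' i) (hT i)
    | one => exact MP2.one
    | mul a b _ _ ha hb => exact ha.mul hb
    | inv a _ ha => exact ha.inv
  have hsm : ∀ (Q : Fin d → Polynomial ℤ) (n : ℤ), MeasurePreserving ⇑(sq T Q n) μ μ :=
    fun Q n => (hT2 _ (sq_mem T Q n)).1
  -- measurable versions
  have hv : ∀ j, ∃ f' : X → ℂ, Measurable f' ∧ ∀ᵐ x ∂μ, f j x = f' x := by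
    intro j
    exact ⟨(hf j).1.mk _, (hf j).1.stronglyMeasurable_mk.measurable, (hf j).1.ae_eq_mk⟩
  choose f' hf'm hf'e using hv
  have h1 : ∀ᵐ x ∂μ, ∀ j n, f j (sq T (fun i => P i j) n x) =
      f' j (sq T (fun i => P i j) n x) := by
    rw [ae_all_iff]
    intro j
    rw [ae_all_iff]
    exact fun n => (hsm _ n).quasiMeasurePreserving.ae (hf'e j)
  set C : Set X := {x | ∃ L : ℂ, Tendsto (fun N : ℕ =>
      cav (fun n => Complex.exp (2 * Real.pi * Complex.I * (Φ.eval (n : ℝ) : ℝ)) *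
        ∏ j, f' j (sq T (fun i => P i j) n x)) N) atTop (𝓝 L)} with hC
  have hCm : MeasurableSet C := by
    refine measurableSet_exists_tendsto fun N => ?_
    exact measurable_cav _ (fun n => measurable_const.mul (Finset.measurable_prod _ fun j _ =>
      (hf'm j).comp (hsm _ n).measurable)) N
  have h2 := struct_sysI m hb Y ν d S hS r P hP0 hP1 (fun j y => f j (π y))
    (fun j => (hf j).comp_measurePreserving hπ) i0 hA hSt _
    (isPhs_const ν (Subgroup.closure (Set.range S)) Φ)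
  have h3 : ∀ᵐ y ∂ν, ∀ j n, π (sq S (fun i => P i j) n y) = sq T (fun i => P i j) n (π y) := by
    rw [ae_all_iff]
    intro j
    rw [ae_all_iff]
    exact fun n => push_sq π (fun i => MP2.of (hS.ms i) (hS.mp i)) hπS _ n
  have h4 : ∀ᵐ y ∂ν, π y ∈ C := by
    filter_upwards [h2, h3, hπ.quasiMeasurePreserving.ae h1] with y e2 e3 e1
    obtain ⟨L, hL⟩ := e2
    refine ⟨L, hL.congr fun N => ?_⟩
    congr 1
    funext n
    congr 1
    refine Finset.prod_congr rfl fun j _ => ?_
    rw [e3, e1]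
  have h5 : ∀ᵐ x ∂μ, x ∈ C := by
    rw [← hπ.map_eq]
    exact (ae_map_iff hπ.measurable.aemeasurable hCm).2 h4
  filter_upwards [h1, h5] with x e1 e5
  obtain ⟨L, hL⟩ := e5
  refine ⟨L, hL.congr fun N => ?_⟩
  congr 1
  funext n
  congr 1
  exact Finset.prod_congr rfl fun j _ => (e1 j n).symm

/-- everything from the finite theorem of the binary model for all numbers of functions -/
theorem base_wI_bin (h : ∀ k, 3 ≤ k → BinTh k) (m : ℕ) : BaseWI m :=
  base_wI (fun k hk => finTh_of_bin k (h k hk)) m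

end

end Pool.PWM
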