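/-
PWM (MP_4d8f14_an), module StrK (helper35).
Kronecker type functions are structured: a function on which a normal subgroup containing the
maps of the sequence acts by invariant unimodular functions is constant along the sequence up to
a phase, and the degree of the phase is at most the degree of the polynomials.
-/
import Pool.Agent.PWM.Struct
import Pool.Agent.NPK.End3F

set_option autoImplicit false

open Finset MeasureTheory Filter Topology Pool.Agent.PWZ Pool.PWZ
open NPK (df df_iter_zero_of_le EigA InA ag measurable_ag toCircle_ag deg_K ag_hom)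
open scoped ENNReal commutatorElement

namespace Pool.PWM

noncomputable section

variable {X : Type}

/-- Newton interpolation -/
lemma newton (K : ℕ) : ∀ Φ : ℤ → UnitAddCircle, df^[K] Φ = 0 → ∀ n : ℤ,
    Φ n = ∑ k ∈ range K, Ring.choose n k • df^[k] Φ 0 := by
  induction K with
  | zero =>
    intro Φ hΦ n
    rw [Finset.range_zero, Finset.sum_empty]
    exact congrFun hΦ n
  | succ K ih =>
    intro Φ hΦ
    have h1 : ∀ n : ℤ, df Φ n = ∑ k ∈ range K, Ring.choose n k • df^[k + 1] Φ 0 := ih (df Φ) hΦ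
    obtain ⟨R, hR⟩ : ∃ R : ℤ → UnitAddCircle, ∀ n, R n =
        ∑ k ∈ range (K + 1), Ring.choose n k • df^[k] Φ 0 := ⟨_, fun _ => rfl⟩
    have h2 : ∀ n : ℤ, R (n + 1) - R n = Φ (n + 1) - Φ n := by
      intro n
      have e : Φ (n + 1) - Φ n = df Φ n := rfl
      rw [e, h1, hR, hR, Finset.sum_range_succ', Finset.sum_range_succ' (fun k =>
        Ring.choose n k • df^[k] Φ 0)]
      simp only [Ring.choose_succ_succ, Ring.choose_zero_right, add_smul, Finset.sum_add_distrib]
      abel
    have h3 : R 0 = Φ 0 := by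
      rw [hR, Finset.sum_range_succ']
      simp [Ring.choose_zero_succ]
    intro n
    rw [← hR]
    induction n using Int.induction_on with
    | zero => exact h3.symm
    | succ n ihn =>
      have := h2 n
      rw [← ihn] at this
      exact (sub_left_inj.1 this).symm
    | pred n ihn =>
      have h4 := h2 (-(n : ℤ) - 1)
      rw [sub_add_cancel, ← ihn] at h4
      exact (sub_right_inj.1 h4).symm

/-- phases are polynomials -/
lemma exists_poly {m : ℕ} {Φ : ℤ → UnitAddCircle} (hΦ : df^[m + 1] Φ = 0) :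
    ∃ Q : Polynomial ℝ, Q.natDegree ≤ m ∧ ∀ n : ℤ, Φ n = ((Q.eval (n : ℝ) : ℝ) : UnitAddCircle) := by
  choose c hc using fun k => QuotientAddGroup.mk_surjective (df^[k] Φ 0)
  refine ⟨∑ k ∈ range (m + 1), Polynomial.C (c k / (k.factorial : ℝ)) * descPochhammer ℝ k,
    Polynomial.natDegree_sum_le_of_forall_le _ _ fun k hk => ?_, fun n => ?_⟩
  · refine (Polynomial.natDegree_C_mul_le _ _).trans ?_
    rw [descPochhammer_natDegree]
    rw [Finset.mem_range] at hk
    omega
  · rw [newton (m + 1) Φ hΦ n, Polynomial.eval_finsetSum]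
    have h1 : ∀ t : Finset ℕ, ∀ v : ℕ → ℝ, ((∑ k ∈ t, v k : ℝ) : UnitAddCircle) =
        ∑ k ∈ t, ((v k : ℝ) : UnitAddCircle) := by
      intro t v
      exact map_sum (QuotientAddGroup.mk' (AddSubgroup.zmultiples (1 : ℝ))) v t
    rw [h1]
    refine Finset.sum_congr rfl fun k _ => ?_
    have h2 : (descPochhammer ℝ k).eval (n : ℝ) = ((k.factorial * Ring.choose n k : ℤ) : ℝ) := by
      have h3 := Ring.descPochhammer_eq_factorial_smul_choose n k
      rw [← Polynomial.eval_eq_smeval] at h3
      rw [← descPochhammer_eval_cast, h3]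
      simp
    rw [Polynomial.eval_mul, Polynomial.eval_C, h2, ← hc k]
    have h4 : c k / (k.factorial : ℝ) * ((k.factorial * Ring.choose n k : ℤ) : ℝ) =
        Ring.choose n k • c k := by
      have : (k.factorial : ℝ) ≠ 0 := by exact_mod_cast k.factorial_ne_zero
      rw [zsmul_eq_mul]
      push_cast
      field_simp
    rw [h4]
    rfl

lemma inEK_one [MeasurableSpace X] (μ : Measure X) [IsProbabilityMeasure μ]
    (G : Subgroup (Equiv.Perm X)) (k : ℕ) : NP2.InEK μ G k fun _ => (1 : ℂ) := by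
  intro ε hε
  refine ⟨1, fun _ _ => 1, fun _ => ⟨memLp_const _, fun _ => 1, fun _ _ => norm_one,
    fun _ _ _ _ => rfl, fun _ _ => Eventually.of_forall fun x => (one_mul _).symm⟩, ?_⟩
  simp

/-- a function on which a normal subgroup acts by invariant functions, along a sequence with values
in this subgroup -/
theorem phase_of_eigA [MeasurableSpace X] {μ : Measure X} {m d : ℕ} (T : Fin d → Equiv.Perm X)
    (hT : ∀ γ ∈ Subgroup.closure (Set.range T), MP2 μ γ) (P : Fin d → Polynomial ℤ)
    (hPm : ∀ i, (P i).natDegree ≤ m) (N : Subgroup (Equiv.Perm X))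
    (hN1 : N ≤ Subgroup.closure (Set.range T))
    (hN2 : ∀ γ ∈ Subgroup.closure (Set.range T), ∀ ν ∈ N, γ * ν * γ⁻¹ ∈ N)
    (hN3 : ∀ i, P i ≠ 0 → T i ∈ N) {h : X → ℂ}
    (H : EigA μ (Subgroup.closure (Set.range T)) N h) :
    ∃ u, IsPh m μ (Subgroup.closure (Set.range T)) u ∧
      ∀ n, ∀ᵐ x ∂μ, h (sq T P n x) = u x n * h x := by
  have hcount : Countable (Subgroup.closure (Set.range T)) := NP2.countable_closure T
  obtain ⟨h', χ, M, hM, hm', hb', hev, hae⟩ := H.everywhere hT hN1 hN2
  have hmem : ∀ n : ℤ, sq T P n ∈ N := by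
    intro n
    refine Subgroup.list_prod_mem _ fun g hg => ?_
    rw [List.mem_ofFn] at hg
    obtain ⟨i, rfl⟩ := hg
    by_cases hi : P i = 0
    · rw [hi, Polynomial.eval_zero, zpow_zero]
      exact N.one_mem
    · exact N.zpow_mem (hN3 i hi) _
  refine ⟨fun x n => χ (sq T P n) x, ⟨fun n => (hev.meas _ (hmem n)).aestronglyMeasurable,
    fun γ hγ n => Eventually.of_forall fun x => hev.inv γ hγ _ (hmem n) x,
    Eventually.of_forall fun x => ?_⟩, fun n => ?_⟩
  · have h1 : df^[m + 1] (fun n : ℤ => ag (χ (sq T P n) x)) = 0 :=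
      deg_K (H := Equiv.Perm X) (N := N) (ψ := fun ν => ag (χ ν x))
        (ag_hom (χ := fun ν => χ ν x) (fun ν hν => hev.norm ν hν x)
          (fun a ha b hb => hev.mul a ha b hb x)) T P hN3 fun i => by
            have := hPm i
            omega
    obtain ⟨Q, hQ, e⟩ := exists_poly h1
    refine ⟨Q, hQ, fun n => ?_⟩
    have e1 := e n
    have e2 := toCircle_ag (hev.norm _ (hmem n) x)
    rw [e1, AddCircle.toCircle_apply_mk, Circle.coe_exp] at e2
    show χ (sq T P n) x = _
    rw [← e2]
    push_cast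
    congr 1
    ring
  · filter_upwards [hae, (hT _ (sq_mem T P n)).1.quasiMeasurePreserving.ae hae] with x e1 e2
    have e3 := hev.eig 1 (Subgroup.one_mem _) _ (hmem n) x
    rw [one_mul, Equiv.Perm.one_apply] at e3
    rw [e2, e1, e3]

/-- the class of subgroups which is allowed for a sequence -/
def Nm {d : ℕ} (T : Fin d → Equiv.Perm X) (P : Fin d → Polynomial ℤ) :
    Set (Subgroup (Equiv.Perm X)) :=
  {N | N ≤ Subgroup.closure (Set.range T) ∧
    (∀ γ ∈ Subgroup.closure (Set.range T), ∀ ν ∈ N, γ * ν * γ⁻¹ ∈ N) ∧ ∀ i, P i ≠ 0 → T i ∈ N}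

/-- **Kronecker type functions are structured** -/
theorem Struc.of_inA [MeasurableSpace X] {μ : Measure X} [IsProbabilityMeasure μ] {m k d : ℕ}
    (T : Fin d → Equiv.Perm X) (hT : ∀ γ ∈ Subgroup.closure (Set.range T), MP2 μ γ)
    (P : Fin d → Polynomial ℤ) (hPm : ∀ i, (P i).natDegree ≤ m)
    (A : Fin k → (X → ℂ) → Prop) (hA : ∀ j, A j fun _ => 1) (σ : Fin k → ℤ → Equiv.Perm X)
    {f : X → ℂ} (hf : InA μ (Subgroup.closure (Set.range T)) (Nm T P) f) :
    Struc μ (IsPh m μ (Subgroup.closure (Set.range T))) A σ (sq T P) f := by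
  intro ε hε
  obtain ⟨l, h, h1, h2⟩ := hf ε hε
  refine ⟨l, h, fun _ _ _ => 1, fun i => ?_, fun i j => ?_, ?_⟩
  · obtain ⟨N, hN, H⟩ := h1 i
    exact ⟨H.1, phase_of_eigA T hT P hPm N hN.1 hN.2.1 hN.2.2 H⟩
  · refine ⟨memLp_const _, hA j, fun _ _ => 1, ?_, fun n => Eventually.of_forall fun x =>
      (one_mul _).symm⟩
    exact (wcl_isPh m μ (Subgroup.closure (Set.range T))).one
  · simpa using h2

end

end Pool.PWM
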