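/-
PWM (MP_4d8f14_an), module StructB (helper96): the base case with G-invariant characters.
-/
import Mathlib
import Pool.Agent.PWM.StructA
import Pool.Agent.PWM.NilWA

set_option autoImplicit false

open Finset MeasureTheory Filter Topology Pool.Agent.PWZ Pool.PWZ
open scoped ENNReal commutatorElement

namespace Pool.PWM

theorem baseWA3 (hfin : FinTh 3) : BaseWA 3 := by
  intro X _ μ _ d T h1 h2 h3 P h4 h5 f hf i0 hE u hu
  exact base_w3A hfin X μ d T h1 h2 h3 P h4 h5 f hf i0
    (fun j => (hE j).imp (fun h => InAc_iff.1 h) id) u hu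

end Pool.PWM
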